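import Pool.Agent.H65.RI.Defs

set_option autoImplicit false

/-!
Module MISC: bipartite Ramsey lemmas, edge-minimal graphs, partitions of subcubic graphs.
-/

namespace Pool.Agent.H65.RI

open Finset Classical

/-- Bipartite Ramsey property. -/
def BR (t τ : ℕ) : Prop := ∀ χ : Fin τ → Fin τ → Prop,
  (∃ x y : Fin t → Fin τ, Function.Injective x ∧ Function.Injective y ∧ ∀ a b, χ (x a) (y b)) ∨
  (∃ x y : Fin t → Fin τ, Function.Injective x ∧ Function.Injective y ∧ ∀ a b, ¬ χ (x a) (y b))

/-- An injection of a small finite type into a large finset. -/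
theorem h70_inj {α β : Type} [Fintype β] (s : Finset α) (h : Fintype.card β ≤ s.card) :
    ∃ x : β → α, Function.Injective x ∧ ∀ i, x i ∈ s := by
  have h1 : Fintype.card β ≤ Fintype.card s := by simpa using h
  obtain ⟨e⟩ := Function.Embedding.nonempty_of_card_le h1
  exact ⟨fun i => (e i : α), fun a b hab => e.injective (Subtype.ext hab), fun i => (e i).2⟩

theorem bipRam (t : ℕ) : ∃ τ, 1 ≤ τ ∧ BR t τ := by
  obtain ⟨τ, hτ⟩ : ∃ τ, τ = 2 ^ (2 * t) * t + 2 * t + 1 := ⟨_, rfl⟩
  refine ⟨τ, by omega, ?_⟩
  intro χ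
  have hle : 2 * t ≤ τ := by omega
  let r : Fin (2 * t) → Fin τ := Fin.castLE hle
  have hr : Function.Injective r := Fin.castLE_injective hle
  let f : Fin τ → (Fin (2 * t) → Bool) := fun y i => decide (χ (r i) y)
  have hcard : Fintype.card (Fin (2 * t) → Bool) * t ≤ Fintype.card (Fin τ) := by
    simp only [Fintype.card_fun, Fintype.card_bool, Fintype.card_fin]
    omega
  obtain ⟨p, hp⟩ := Fintype.exists_le_card_fiber_of_mul_le_card f hcard
  obtain ⟨y, hyi, hy⟩ := h70_inj (β := Fin t) _ (by simpa using hp)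
  have hsum : (univ.filter (fun i => p i = true)).card + (univ.filter (fun i => ¬ (p i = true))).card =
      2 * t := by
    rw [Finset.card_filter_add_card_filter_not]
    simp
  rcases le_or_gt t (univ.filter (fun i => p i = true)).card with h | h
  · obtain ⟨x, hxi, hx⟩ := h70_inj (β := Fin t) _ (by simpa using h)
    refine Or.inl ⟨fun a => r (x a), y, hr.comp hxi, hyi, ?_⟩
    intro a b
    have h1 := (Finset.mem_filter.1 (hy b)).2
    have h2 := (Finset.mem_filter.1 (hx a)).2
    have h3 : f (y b) (x a) = true := by rw [h1]; exact h2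
    simpa [f] using h3
  · obtain ⟨x, hxi, hx⟩ := h70_inj (β := Fin t) (univ.filter (fun i => ¬ (p i = true)))
      (by rw [Fintype.card_fin]; omega)
    refine Or.inr ⟨fun a => r (x a), y, hr.comp hxi, hyi, ?_⟩
    intro a b
    have h1 := (Finset.mem_filter.1 (hy b)).2
    have h2 := (Finset.mem_filter.1 (hx a)).2
    have h3 : ¬ (f (y b) (x a) = true) := by rw [h1]; exact h2
    simpa [f] using h3

/-- A bipartite graph that arrows a given bipartite graph. -/
theorem knn_arrow {W : Type} [Fintype W] (H : SimpleGraph W) (hH : H.Colorable 2) (q : ℕ)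
    (hq : 1 ≤ q) : ∃ (V' : Type) (_ : Fintype V') (G' : SimpleGraph V'),
      G'.Colorable 2 ∧ NB G' q H 1 := by
  obtain ⟨col⟩ := hH
  set N1 := q * Fintype.card W with hN1
  set N2 := q ^ N1 * Fintype.card W with hN2
  refine ⟨Fin N1 ⊕ Fin N2, inferInstance, completeBipartiteGraph (Fin N1) (Fin N2), ?_, ?_⟩
  · refine ⟨SimpleGraph.Coloring.mk (fun v => if v.isLeft then 0 else 1) ?_⟩
    intro v w hvw
    rcases v with v | v <;> rcases w with w | w <;> simp_all
  · intro c hc hb
    by_cases hK : ∃ a b, (completeBipartiteGraph (Fin N1) (Fin N2)).Adj a b ∧ c a b = q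
    · right
      obtain ⟨a, b, hab, hcab⟩ := hK
      refine ⟨Sum.elim (fun _ => a) (fun _ => b), ?_, ?_⟩
      · rintro (x | x) (y | y) hxy
        · rw [Subsingleton.elim x y]
        · exact absurd hxy hab.ne
        · exact absurd hxy hab.ne'
        · rw [Subsingleton.elim x y]
      · intro x y
        exact ⟨hab, hcab⟩
    · left
      push Not at hK
      have hadj : ∀ (i : Fin N1) (j : Fin N2),
          (completeBipartiteGraph (Fin N1) (Fin N2)).Adj (Sum.inl i) (Sum.inr j) := by
        intro i j
        simp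
      have hlt : ∀ (i : Fin N1) (j : Fin N2), c (Sum.inl i) (Sum.inr j) < q := by
        intro i j
        exact lt_of_le_of_ne (hb _ _ (hadj i j)) (hK _ _ (hadj i j))
      let f : Fin N2 → (Fin N1 → Fin q) := fun j i => ⟨c (Sum.inl i) (Sum.inr j), hlt i j⟩
      have : Nonempty (Fin q) := ⟨⟨0, hq⟩⟩
      have hcard : Fintype.card (Fin N1 → Fin q) * Fintype.card W ≤ Fintype.card (Fin N2) := by
        simp only [Fintype.card_fun, Fintype.card_fin]
        exact le_refl _
      obtain ⟨p, hp⟩ := Fintype.exists_le_card_fiber_of_mul_le_card f hcard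
      obtain ⟨y, hyi, hy⟩ := h70_inj (β := W) _ hp
      have hcard2 : Fintype.card (Fin q) * Fintype.card W ≤ Fintype.card (Fin N1) := by
        simp only [Fintype.card_fin]
        exact le_refl _
      obtain ⟨i, hi⟩ := Fintype.exists_le_card_fiber_of_mul_le_card p hcard2
      obtain ⟨x, hxi, hx⟩ := h70_inj (β := W) _ hi
      have hval : ∀ u v, c (Sum.inl (x u)) (Sum.inr (y v)) = (i : ℕ) := by
        intro u v
        have h1 := (Finset.mem_filter.1 (hy v)).2
        have h2 := (Finset.mem_filter.1 (hx u)).2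
        have h3 : f (y v) (x u) = i := by rw [h1]; exact h2
        have h4 := congrArg (fun z : Fin q => (z : ℕ)) h3
        simpa [f] using h4
      refine ⟨i, i.2, fun w => if col w = 0 then Sum.inl (x w) else Sum.inr (y w), ?_, ?_⟩
      · intro u v huv
        by_cases hu : col u = 0 <;> by_cases hv : col v = 0
        · simp only [hu, hv, if_true] at huv
          exact hxi (Sum.inl.inj huv)
        · simp only [hu, hv, if_true, if_false] at huv
          exact absurd huv (by simp)
        · simp only [hu, hv, if_true, if_false] at huv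
          exact absurd huv (by simp)
        · simp only [hu, hv, if_false] at huv
          exact hyi (Sum.inr.inj huv)
      · intro u v huv
        have hne : col u ≠ col v := col.valid huv
        by_cases hu : col u = 0 <;> by_cases hv : col v = 0
        · exact absurd (hu.trans hv.symm) hne
        · simp only [hu, hv, if_true, if_false]
          exact ⟨hadj _ _, hval _ _⟩
        · simp only [hu, hv, if_true, if_false]
          exact ⟨(hadj _ _).symm, by rw [hc]; exact hval _ _⟩
        · exfalso
          apply hne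
          have h1 : (col u : ℕ) = 1 := by
            have := (col u).2
            have h0 : (col u : ℕ) ≠ 0 := fun h => hu (Fin.ext h)
            omega
          have h2 : (col v : ℕ) = 1 := by
            have := (col v).2
            have h0 : (col v : ℕ) ≠ 0 := fun h => hv (Fin.ext h)
            omega
          exact Fin.ext (h1.trans h2.symm)

/-- Lovasz: graphs of maximum degree at most three. -/
theorem deg3_partition {W : Type} [Fintype W] (B : SimpleGraph W)
    (h : ∀ v, (univ.filter (fun w => B.Adj v w)).card ≤ 3) :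
    ∃ S : Set W, Deg1On B S ∧ Deg1On B Sᶜ := by
  -- the number of ordered inner edges
  let F : (W → Bool) → W → W → ℕ := fun s a b => if B.Adj a b ∧ s a = s b then 1 else 0
  let Φ : (W → Bool) → ℕ := fun s => ∑ a, ∑ b, F s a b
  obtain ⟨s, hs⟩ := Finite.exists_min Φ
  have key : ∀ (s : W → Bool) (u : W), Φ s =
      2 * (univ.filter (fun b => B.Adj u b ∧ s u = s b)).card +
        ∑ a ∈ univ.erase u, ∑ b ∈ univ.erase u, F s a b := by
    intro s u
    have hsym : ∀ a b, F s a b = F s b a := by
      intro a b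
      simp only [F, B.adj_comm a b, eq_comm (a := s a)]
    have huu : F s u u = 0 := by simp [F]
    have hrow : ∑ b, F s u b = (univ.filter (fun b => B.Adj u b ∧ s u = s b)).card := by
      rw [Finset.card_filter]
    have h1 : Φ s = ∑ b, F s u b + ∑ a ∈ univ.erase u, ∑ b, F s a b :=
      (Finset.add_sum_erase univ (fun a => ∑ b, F s a b) (Finset.mem_univ u)).symm
    have h2 : ∑ a ∈ univ.erase u, ∑ b, F s a b =
        ∑ a ∈ univ.erase u, F s a u + ∑ a ∈ univ.erase u, ∑ b ∈ univ.erase u, F s a b := by
      rw [← Finset.sum_add_distrib]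
      apply Finset.sum_congr rfl
      intro a _
      exact (Finset.add_sum_erase univ (fun b => F s a b) (Finset.mem_univ u)).symm
    have h3 : ∑ a ∈ univ.erase u, F s a u = ∑ b, F s u b := by
      rw [← Finset.add_sum_erase univ (fun b => F s u b) (Finset.mem_univ u), huu, zero_add]
      exact Finset.sum_congr rfl (fun a _ => hsym a u)
    rw [h1, h2, h3, hrow]
    ring
  have hdeg : ∀ u, (univ.filter (fun b => B.Adj u b ∧ s u = s b)).card ≤ 1 := by
    intro u
    by_contra hcon
    push Not at hcon
    let s' : W → Bool := Function.update s u (!(s u))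
    have hk := key s u
    have hk' := key s' u
    have hR : ∑ a ∈ univ.erase u, ∑ b ∈ univ.erase u, F s' a b =
        ∑ a ∈ univ.erase u, ∑ b ∈ univ.erase u, F s a b := by
      apply Finset.sum_congr rfl
      intro a ha
      apply Finset.sum_congr rfl
      intro b hb
      have ha' := Finset.ne_of_mem_erase ha
      have hb' := Finset.ne_of_mem_erase hb
      simp only [F, s', Function.update_of_ne ha', Function.update_of_ne hb']
    have hd : (univ.filter (fun b => B.Adj u b ∧ s u = s b)).card +
        (univ.filter (fun b => B.Adj u b ∧ s' u = s' b)).card ≤ 3 := by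
      rw [← Finset.card_union_of_disjoint]
      · refine le_trans (Finset.card_le_card ?_) (h u)
        intro b hb
        rcases Finset.mem_union.1 hb with hb | hb
        · exact Finset.mem_filter.2 ⟨Finset.mem_univ _, (Finset.mem_filter.1 hb).2.1⟩
        · exact Finset.mem_filter.2 ⟨Finset.mem_univ _, (Finset.mem_filter.1 hb).2.1⟩
      · rw [Finset.disjoint_left]
        intro b hb hb'
        have h1 := (Finset.mem_filter.1 hb).2
        have h2 := (Finset.mem_filter.1 hb').2
        have hne : b ≠ u := fun hbu => B.loopless.irrefl u (hbu ▸ h1.1)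
        have h3 := h2.2
        simp only [s', Function.update_self, Function.update_of_ne hne] at h3
        rw [← h1.2] at h3
        cases hsu : s u <;> simp [hsu] at h3
    have hmin := hs s'
    rw [hk, hk', hR] at hmin
    omega
  have hfin : ∀ (β : Bool), Deg1On B {w | s w = β} := by
    intro β u hu v hv v' hv' huv huv'
    by_contra hne
    have h1 : ({v, v'} : Finset W) ⊆ univ.filter (fun b => B.Adj u b ∧ s u = s b) := by
      intro b hb
      simp only [Finset.mem_insert, Finset.mem_singleton] at hb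
      simp only [Set.mem_ofPred_eq] at hu hv hv'
      rcases hb with rfl | rfl
      · exact Finset.mem_filter.2 ⟨Finset.mem_univ _, huv, hu.trans hv.symm⟩
      · exact Finset.mem_filter.2 ⟨Finset.mem_univ _, huv', hu.trans hv'.symm⟩
    have h2 := Finset.card_le_card h1
    rw [Finset.card_pair hne] at h2
    have := hdeg u
    omega
  refine ⟨{w | s w = true}, hfin true, ?_⟩
  have : ({w | s w = true} : Set W)ᶜ = {w | s w = false} := by
    ext w
    simp
  rw [this]
  exact hfin false

/-- An edge-minimal subgraph that is not a union of `q` graphs without `B`; one of its edges gets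
the colour `q`. -/
theorem edge_min {W V : Type} [Fintype V] (B : SimpleGraph W) (G : SimpleGraph V) (q : ℕ)
    (hq : 1 ≤ q) (he : ∃ u v, B.Adj u v) (hG : NB G q B 1) :
    ∃ (Y : SimpleGraph V) (c : V → V → ℕ), NB Y q B 1 ∧ Sm c ∧ (∀ a b, Y.Adj a b → c a b ≤ q) ∧
      (∀ j, j < q → ∀ f : W → V, ¬ Mono Y B c j f) ∧
      ∀ a b b', Y.Adj a b → c a b = q → Y.Adj a b' → c a b' = q → b = b' := by
  obtain ⟨Y, hY, hmin⟩ := (wellFounded_lt (α := SimpleGraph V)).has_min
    {Y : SimpleGraph V | NB Y q B 1} ⟨G, hG⟩
  have hY' : NB Y q B 1 := hY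
  obtain ⟨b₁, b₂, hb12⟩ := he
  have hedge : ∃ u v, Y.Adj u v := by
    rcases hY' (fun _ _ => 0) (fun _ _ => rfl) (fun _ _ _ => Nat.zero_le _) with
      ⟨i, hi, f, hf⟩ | ⟨g, hg, hg2⟩
    · exact ⟨f b₁, f b₂, (hf.2 _ _ hb12).1⟩
    · exact ⟨_, _, (hg2 0 0).1⟩
  obtain ⟨u, v, huv⟩ := hedge
  let Y' : SimpleGraph V := Y.deleteEdges {s(u, v)}
  have hY'adj : ∀ a b, Y'.Adj a b ↔ Y.Adj a b ∧ s(a, b) ≠ s(u, v) := by
    intro a b
    simp only [Y', SimpleGraph.deleteEdges_adj, Set.mem_singleton_iff, ne_eq]
  have hlt : Y' < Y := by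
    refine lt_of_le_of_ne (SimpleGraph.deleteEdges_le _) ?_
    intro heq
    have : Y'.Adj u v := heq ▸ huv
    exact ((hY'adj u v).1 this).2 rfl
  have hnot : ¬ NB Y' q B 1 := fun hcon => hmin Y' hcon hlt
  unfold NB at hnot
  push Not at hnot
  obtain ⟨c₀, hc₀, hle, hno, hK⟩ := hnot
  have hlt₀ : ∀ a b, Y'.Adj a b → c₀ a b < q := by
    intro a b hab
    refine lt_of_le_of_ne (hle a b hab) ?_
    intro hcq
    apply hK
    refine ⟨Sum.elim (fun _ => a) (fun _ => b), ?_, ?_⟩
    · rintro (x | x) (y | y) hxy
      · rw [Subsingleton.elim x y]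
      · exact absurd hxy hab.ne
      · exact absurd hxy hab.ne'
      · rw [Subsingleton.elim x y]
    · intro x y
      exact ⟨hab, hcq⟩
  let c : V → V → ℕ := fun a b => if s(a, b) = s(u, v) then q else c₀ a b
  have hsymc : Sm c := by
    intro a b
    simp only [c, Sym2.eq_swap (a := a) (b := b), hc₀ a b]
  refine ⟨Y, c, hY', hsymc, ?_, ?_, ?_⟩
  · intro a b hab
    by_cases h : s(a, b) = s(u, v)
    · simp only [c, h, if_true]; exact le_refl _
    · simp only [c, h, if_false]
      exact (hlt₀ a b ((hY'adj a b).2 ⟨hab, h⟩)).le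
  · intro j hj f hf
    apply hno j hj f
    refine ⟨hf.1, ?_⟩
    intro x y hxy
    obtain ⟨h1, h2⟩ := hf.2 x y hxy
    by_cases h : s(f x, f y) = s(u, v)
    · simp only [c, h, if_true] at h2
      omega
    · simp only [c, h, if_false] at h2
      exact ⟨(hY'adj _ _).2 ⟨h1, h⟩, h2⟩
  · have hq' : ∀ a b, Y.Adj a b → c a b = q → s(a, b) = s(u, v) := by
      intro a b hab hcab
      by_contra h
      simp only [c, h, if_false] at hcab
      have := hlt₀ a b ((hY'adj a b).2 ⟨hab, h⟩)
      omega
    intro a b b' hab hcab hab' hcab'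
    have h1 := (hq' a b hab hcab).trans (hq' a b' hab' hcab').symm
    rcases Sym2.eq_iff.1 h1 with ⟨-, h⟩ | ⟨h2, h3⟩
    · exact h
    · exact h3.trans h2

/-- `NB` with a colour removed: if `G` is not a union of `r` graphs without `H`, then every
colouring with the colours `0..r` in which no colour contains `H` uses all the colours. -/
theorem nb_all_colours {W V : Type} (H : SimpleGraph W) (G : SimpleGraph V) (r : ℕ)
    (hG : NB G r H 1) (c : V → V → ℕ) (hc : Sm c) (hb : ∀ a b, G.Adj a b → c a b ≤ r)
    (hf : ∀ i, i ≤ r → ∀ f : W → V, ¬ Mono G H c i f) (i : ℕ) (hi : i ≤ r) :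
    ∃ a b, G.Adj a b ∧ c a b = i := by
  let σ : Equiv.Perm ℕ := Equiv.swap i r
  have hσ : ∀ x, x ≤ r → σ x ≤ r := by
    intro x hx
    by_cases h1 : x = i
    · rw [h1]; simp only [σ, Equiv.swap_apply_left]; exact le_refl _
    · by_cases h2 : x = r
      · rw [h2]; simp only [σ, Equiv.swap_apply_right]; exact hi
      · simp only [σ, Equiv.swap_apply_of_ne_of_ne h1 h2]; exact hx
  have hσσ : ∀ x, σ (σ x) = x := fun x => Equiv.swap_apply_self i r x
  rcases hG (fun a b => σ (c a b)) (fun a b => by simp only [hc a b])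
      (fun a b hab => hσ _ (hb a b hab)) with ⟨j, hj, f, hfm⟩ | ⟨g, -, hg⟩
  · exfalso
    refine hf (σ j) (hσ j hj.le) f ⟨hfm.1, ?_⟩
    intro u v huv
    obtain ⟨h1, h2⟩ := hfm.2 u v huv
    refine ⟨h1, ?_⟩
    rw [← h2, hσσ]
  · obtain ⟨h1, h2⟩ := hg 0 0
    refine ⟨_, _, h1, ?_⟩
    have h3 := congrArg σ h2
    rw [hσσ] at h3
    rw [h3]
    simp only [σ, Equiv.swap_apply_right]

end Pool.Agent.H65.RI
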