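import Pool.Agent.H65.RI.SysL
import Pool.Agent.H65.RI.Misc

set_option autoImplicit false

namespace Pool.Agent.H65.RI

open Finset Classical

/-- A complete tripartite pattern in colour `i` contains every 3-colourable graph. -/
theorem tri_embed {W V : Type} (B : SimpleGraph W) (h3 : B.Colorable 3) (G : SimpleGraph V)
    (c : V → V → ℕ) (i : ℕ) (p : Fin 3 → W → V) (hp : ∀ a, Function.Injective (p a))
    (h : ∀ a b, a ≠ b → ∀ u v, G.Adj (p a u) (p b v) ∧ c (p a u) (p b v) = i) :
    ∃ f : W → V, Mono G B c i f := by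
  obtain ⟨φ⟩ := h3
  refine ⟨fun w => p (φ w) w, ?_, ?_⟩
  · intro u v huv
    simp only at huv
    by_cases hφ : φ u = φ v
    · rw [hφ] at huv
      exact hp _ huv
    · exact absurd huv (h _ _ hφ u v).1.ne
  · intro u v huv
    exact h _ _ (φ.valid huv) u v

/-- Remove the colours `i < i'` from `0..q`. -/
def rho (q i i' j : ℕ) : ℕ :=
  if j = i ∨ j = i' then q - 1 else j - (if i < j then 1 else 0) - (if i' < j then 1 else 0)

theorem rho_lt {q i i' j : ℕ} (hii : i ≠ i') (hi : i ≤ q) (hi' : i' ≤ q) (hj : j ≤ q)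
    (h : ¬ (j = i ∨ j = i')) : rho q i i' j < q - 1 := by
  unfold rho
  rw [if_neg h]
  split_ifs <;> omega

theorem rho_inj {q i i' j j' : ℕ} (hii : i ≠ i')
    (h : ¬ (j = i ∨ j = i')) (h' : ¬ (j' = i ∨ j' = i'))
    (he : rho q i i' j = rho q i i' j') : j = j' := by
  unfold rho at he
  rw [if_neg h, if_neg h'] at he
  split_ifs at he <;> omega

theorem rho_special {q i i' j : ℕ} (h : j = i ∨ j = i') : rho q i i' j = q - 1 := by
  unfold rho
  rw [if_pos h]

/-- Two colours that are joined completely to many vertices outside a copy of `A`. -/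
theorem two_joins {W V : Type} [Fintype W] (B : SimpleGraph W) (h3 : B.Colorable 3)
    (hBe : ∃ u v, B.Adj u v) (q τ : ℕ) (_hq : 1 ≤ q) (hτ : BR (Fintype.card W) τ) {nA : ℕ}
    (A : SimpleGraph (Fin nA)) (hA : NB A (q - 1) B τ) (G : SimpleGraph V) (c : V → V → ℕ)
    (hc : Sm c) (hb : ∀ a b, G.Adj a b → c a b ≤ q) (e : Fin nA → V)
    (he : Function.Injective e) (hadj : ∀ a b, A.Adj a b → G.Adj (e a) (e b)) (i i' : ℕ)
    (hii : i ≠ i') (hi : i ≤ q) (hi' : i' ≤ q) (x x' : Fin (Fintype.card W) → V)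
    (hx : Function.Injective x) (hx' : Function.Injective x')
    (hxe : ∀ s a, G.Adj (x s) (e a) ∧ c (x s) (e a) = i)
    (hxe' : ∀ s a, G.Adj (x' s) (e a) ∧ c (x' s) (e a) = i') :
    ∃ j, j ≤ q ∧ ∃ f : W → V, Mono G B c j f := by
  have key := hA (fun a b => rho q i i' (c (e a) (e b))) (fun a b => by
    show rho q i i' (c (e a) (e b)) = rho q i i' (c (e b) (e a))
    rw [hc]) (fun a b hab => by
    show rho q i i' (c (e a) (e b)) ≤ q - 1
    by_cases h : c (e a) (e b) = i ∨ c (e a) (e b) = i'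
    · rw [rho_special h]
    · exact (rho_lt hii hi hi' (hb _ _ (hadj a b hab)) h).le)
  rcases key with ⟨l, hl, f, hf1, hf2⟩ | ⟨g, hg1, hg2⟩
  · obtain ⟨u0, v0, h0⟩ := hBe
    refine ⟨c (e (f u0)) (e (f v0)), hb _ _ (hadj _ _ (hf2 u0 v0 h0).1), fun w => e (f w),
      he.comp hf1, ?_⟩
    intro u v huv
    refine ⟨hadj _ _ (hf2 u v huv).1, ?_⟩
    have e1 := (hf2 u v huv).2
    have e0 := (hf2 u0 v0 h0).2
    simp only at e1 e0
    have n1 : ¬ (c (e (f u)) (e (f v)) = i ∨ c (e (f u)) (e (f v)) = i') := by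
      intro h
      rw [rho_special h] at e1
      omega
    have n0 : ¬ (c (e (f u0)) (e (f v0)) = i ∨ c (e (f u0)) (e (f v0)) = i') := by
      intro h
      rw [rho_special h] at e0
      omega
    exact rho_inj hii n1 n0 (e1.trans e0.symm)
  · let ω := Fintype.equivFin W
    have hcol : ∀ a b, c (e (g (Sum.inl a))) (e (g (Sum.inr b))) = i ∨
        c (e (g (Sum.inl a))) (e (g (Sum.inr b))) = i' := by
      intro a b
      by_contra h
      have h1 := rho_lt hii hi hi' (hb _ _ (hadj _ _ (hg2 a b).1)) h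
      have h2 := (hg2 a b).2
      simp only at h2
      omega
    -- the general embedding
    have main : ∀ (I : ℕ) (y : Fin (Fintype.card W) → V), I ≤ q → Function.Injective y →
        (∀ s a, G.Adj (y s) (e a) ∧ c (y s) (e a) = I) →
        (∃ x₁ y₁ : Fin (Fintype.card W) → Fin τ, Function.Injective x₁ ∧ Function.Injective y₁ ∧
          ∀ a b, c (e (g (Sum.inl (x₁ a)))) (e (g (Sum.inr (y₁ b)))) = I) →
        ∃ j, j ≤ q ∧ ∃ f : W → V, Mono G B c j f := by
      rintro I y hI hy hye ⟨x₁, y₁, hx₁, hy₁, hxy⟩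
      refine ⟨I, hI, ?_⟩
      let p : Fin 3 → W → V := fun a w =>
        if a = 0 then y (ω w) else if a = 1 then e (g (Sum.inl (x₁ (ω w))))
        else e (g (Sum.inr (y₁ (ω w))))
      have p0 : ∀ w, p 0 w = y (ω w) := fun w => by simp [p]
      have p1 : ∀ w, p 1 w = e (g (Sum.inl (x₁ (ω w)))) := fun w => by simp [p]
      have p2 : ∀ w, p 2 w = e (g (Sum.inr (y₁ (ω w)))) := fun w => by simp [p]
      have s01 : ∀ u v, G.Adj (p 0 u) (p 1 v) ∧ c (p 0 u) (p 1 v) = I := by
        intro u v
        rw [p0, p1]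
        exact hye _ _
      have s02 : ∀ u v, G.Adj (p 0 u) (p 2 v) ∧ c (p 0 u) (p 2 v) = I := by
        intro u v
        rw [p0, p2]
        exact hye _ _
      have s12 : ∀ u v, G.Adj (p 1 u) (p 2 v) ∧ c (p 1 u) (p 2 v) = I := by
        intro u v
        rw [p1, p2]
        exact ⟨hadj _ _ (hg2 _ _).1, hxy _ _⟩
      have sy : ∀ a b : Fin 3, (∀ u v, G.Adj (p a u) (p b v) ∧ c (p a u) (p b v) = I) →
          ∀ u v, G.Adj (p b u) (p a v) ∧ c (p b u) (p a v) = I := by
        intro a b h u v
        exact ⟨(h v u).1.symm, by rw [hc]; exact (h v u).2⟩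
      apply tri_embed B h3 G c I p
      · intro a
        fin_cases a
        · intro u v huv
          simp only [Fin.zero_eta] at huv
          rw [p0, p0] at huv
          exact ω.injective (hy huv)
        · intro u v huv
          simp only [Fin.mk_one] at huv
          rw [p1, p1] at huv
          exact ω.injective (hx₁ (Sum.inl_injective (hg1 (he huv))))
        · intro u v huv
          have huv' : p 2 u = p 2 v := huv
          rw [p2, p2] at huv'
          exact ω.injective (hy₁ (Sum.inr_injective (hg1 (he huv'))))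
      · intro a b hab
        fin_cases a <;> fin_cases b
        · exact absurd rfl hab
        · exact s01
        · exact s02
        · exact sy 0 1 s01
        · exact absurd rfl hab
        · exact s12
        · exact sy 0 2 s02
        · exact sy 1 2 s12
        · exact absurd rfl hab
    rcases hτ (fun a b => c (e (g (Sum.inl a))) (e (g (Sum.inr b))) = i) with
      ⟨x₁, y₁, hx₁, hy₁, hxy⟩ | ⟨x₁, y₁, hx₁, hy₁, hxy⟩
    · exact main i x hi hx hxe ⟨x₁, y₁, hx₁, hy₁, hxy⟩
    · exact main i' x' hi' hx' hxe' ⟨x₁, y₁, hx₁, hy₁, fun a b => (hcol _ _).resolve_left (hxy a b)⟩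


/-- Embedding of a graph of maximum degree one into a matching. -/
theorem match_embed {W : Type} [Fintype W] (B : SimpleGraph W) (X : Set W) (hX : Deg1On B X) :
    ∃ (rep : W → Fin (Fintype.card W)) (sd : W → Bool),
      (∀ u ∈ X, ∀ v ∈ X, rep u = rep v → sd u = sd v → u = v) ∧
      (∀ u ∈ X, ∀ v ∈ X, B.Adj u v → rep u = rep v ∧ sd u ≠ sd v) := by
  let ω := Fintype.equivFin W
  let rep : W → Fin (Fintype.card W) := fun u =>
    if h : ∃ v, v ∈ X ∧ B.Adj u v then min (ω u) (ω h.choose) else ω u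
  let sd : W → Bool := fun u => decide (ω u = rep u)
  have hpart : ∀ u ∈ X, ∀ v ∈ X, B.Adj u v → rep u = min (ω u) (ω v) := by
    intro u hu v hv huv
    have h : ∃ v, v ∈ X ∧ B.Adj u v := ⟨v, hv, huv⟩
    have e : h.choose = v := hX u hu _ h.choose_spec.1 _ hv h.choose_spec.2 huv
    simp only [rep]
    rw [dif_pos h, e]
  refine ⟨rep, sd, ?_, ?_⟩
  · intro u hu v hv hr hs
    by_cases h1 : ω u = rep u
    · have h2 : sd u = true := by simp [sd, h1]
      have h3 : sd v = true := by rw [← hs]; exact h2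
      have h4 : ω v = rep v := by simpa [sd] using h3
      exact ω.injective (by rw [h1, h4, hr])
    · have h2 : sd u = false := by simp [sd, h1]
      have h3 : sd v = false := by rw [← hs]; exact h2
      have h4 : ω v ≠ rep v := by simpa [sd] using h3
      have hu' : ∃ v, v ∈ X ∧ B.Adj u v := by
        by_contra hcon
        apply h1
        simp only [rep]
        rw [dif_neg hcon]
      have hv' : ∃ u, u ∈ X ∧ B.Adj v u := by
        by_contra hcon
        apply h4
        simp only [rep]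
        rw [dif_neg hcon]
      obtain ⟨p, hp, hup⟩ := hu'
      obtain ⟨p', hp', hvp⟩ := hv'
      have e1 : rep u = ω p := by
        have := hpart u hu p hp hup
        rcases min_choice (ω u) (ω p) with h | h
        · exact absurd (this.trans h).symm h1
        · exact this.trans h
      have e2 : rep v = ω p' := by
        have := hpart v hv p' hp' hvp
        rcases min_choice (ω v) (ω p') with h | h
        · exact absurd (this.trans h).symm h4
        · exact this.trans h
      have e3 : p = p' := ω.injective (by rw [← e1, ← e2, hr])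
      subst e3
      exact hX p hp u hu v hv hup.symm hvp.symm
  · intro u hu v hv huv
    have e1 := hpart u hu v hv huv
    have e2 := hpart v hv u hu huv.symm
    have e3 : rep u = rep v := by rw [e1, e2, min_comm]
    refine ⟨e3, ?_⟩
    intro hs
    have hne : ω u ≠ ω v := fun h => huv.ne (ω.injective h)
    rcases min_choice (ω u) (ω v) with h | h
    · have h1 : ω u = rep u := (e1.trans h).symm
      have h2 : sd u = true := by simp [sd, h1]
      have h3 : sd v = true := by rw [← hs]; exact h2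
      have h4 : ω v = rep v := by simpa [sd] using h3
      exact hne (by rw [h1, h4, e3])
    · have h1 : ω v = rep v := by rw [← e3]; exact (e1.trans h).symm
      have h2 : sd v = true := by simp [sd, h1]
      have h3 : sd u = true := by rw [hs]; exact h2
      have h4 : ω u = rep u := by simpa [sd] using h3
      exact hne (by rw [h1, h4, e3])

/-- Extract an injection of `Fin t` from a large set. -/
theorem exists_inj_of_card {α : Type} (A : Finset α) (t : ℕ) (h : t ≤ A.card) :
    ∃ f : Fin t → α, Function.Injective f ∧ ∀ s, f s ∈ A := by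
  obtain ⟨A', hA', hc⟩ := Finset.exists_subset_card_eq h
  let e := (Finset.equivFinOfCardEq hc).symm
  refine ⟨fun s => (e s : α), ?_, fun s => hA' (e s).2⟩
  intro s s' hs
  exact e.injective (Subtype.ext hs)

theorem pend_nb {W Vr : Type} [Fintype W] [Fintype Vr] (B : SimpleGraph W)
    (hBe : ∃ u v, B.Adj u v) (h3 : B.Colorable 3) (S : Set W) (hS1 : Deg1On B S)
    (hS2 : Deg1On B Sᶜ) (q τ : ℕ) (hq : 1 ≤ q) (hτ : BR (Fintype.card W) τ)
    {nA nB m k κ R : ℕ} (hA2 : 2 ≤ nA) (hAt : Fintype.card W ≤ nA) (hB1 : 1 ≤ nB)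
    (A : SimpleGraph (Fin nA))
    (hA : NB A (q - 1) B τ) (G : SimpleGraph (Fin nB)) (hG : NB G q B 1)
    (Y : SimpleGraph (Fin nB)) (hY : IndepOn B Sᶜ ∨ NB Y q B 1) {ι : Type} [Fintype ι]
    (E : ι → Fin nA → Fin m × Fin nB) (hSp : Sparse E R) (hR : 1 ≤ R) (hD : Dense E k)
    (hk : k = 4 * nB * ((q + 1) ^ nB + (q + 1)))
    (hm : 4 * (q + 1) * (Fintype.card W + 1) ≤ m) (Gr : SimpleGraph Vr)
    (hκ : (q + 1) ^ (m * nB) ≤ κ)
    (hr : ∀ φ : Vr → Fin κ, ∃ e : Fin nA → Vr, Function.Injective e ∧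
      (∀ a b, A.Adj a b → Gr.Adj (e a) (e b)) ∧ ∀ a b, φ (e a) = φ (e b)) :
    ∃ N, NB (jn (Sys E A Y) (ds Gr (cps N G))) (q + 1) B 1 := by
  set t := Fintype.card W with ht
  have hEinj := sparse_inj hSp hR (by omega : 1 ≤ nA)
  let P := (Fin nB → Fin nB → Fin (q + 1)) × ((Fin m × Fin nB) → Fin nB → Fin (q + 1))
  refine ⟨Fintype.card P * t + 1, ?_⟩
  set N := Fintype.card P * t + 1 with hN
  set G' := jn (Sys E A Y) (ds Gr (cps N G)) with hG'
  intro ψ hψ hψb
  by_contra hcon
  rw [not_or] at hcon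
  obtain ⟨hcon1, hcon2⟩ := hcon
  -- the special colour does not occur
  have hb : ∀ a b, G'.Adj a b → ψ a b ≤ q := by
    intro a b hab
    by_contra hgt
    apply hcon2
    have he : ψ a b = q + 1 := le_antisymm (hψb a b hab) (by omega)
    refine ⟨fun x => Sum.elim (fun _ => a) (fun _ => b) x, ?_, ?_⟩
    · rintro (x | x) (y | y) hxy
      · rw [Subsingleton.elim x y]
      · exact absurd hxy hab.ne
      · exact absurd hxy.symm hab.ne
      · rw [Subsingleton.elim x y]
    · intro x y
      exact ⟨hab, he⟩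
  have hno : ∀ j, j ≤ q → ∀ f : W → _, ¬ Mono G' B ψ j f := by
    intro j hj f hf
    exact hcon1 ⟨j, by omega, f, hf⟩
  have adjJ : ∀ z y, G'.Adj (Sum.inl z) (Sum.inr y) := fun z y => trivial
  have adjJ' : ∀ z y, G'.Adj (Sum.inr y) (Sum.inl z) := fun z y => trivial
  let toF : ℕ → Fin (q + 1) := fun x => ⟨min x q, by omega⟩
  have htoF : ∀ x, x ≤ q → (toF x : ℕ) = x := fun x hx => by simp [toF, hx]
  -- patterns of the copies
  let pt : Fin N → P := fun n =>
    (fun a b => toF (ψ (Sum.inr (Sum.inr (n, a))) (Sum.inr (Sum.inr (n, b)))),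
      fun z b => toF (ψ (Sum.inl z) (Sum.inr (Sum.inr (n, b)))))
  obtain ⟨pat, hpat⟩ : ∃ pat, t < (univ.filter (fun n => pt n = pat)).card := by
    apply Fintype.exists_lt_card_fiber_of_mul_lt_card
    rw [Fintype.card_fin]
    omega
  obtain ⟨kp, hkp, hkpm⟩ := exists_inj_of_card (univ.filter (fun n => pt n = pat)) t hpat.le
  obtain ⟨cG, sv⟩ := pat
  have F0 : ∀ x, pt (kp x) = (cG, sv) := fun x => (Finset.mem_filter.mp (hkpm x)).2
  have F1 : ∀ x a b, G.Adj a b →
      ψ (Sum.inr (Sum.inr (kp x, a))) (Sum.inr (Sum.inr (kp x, b))) = cG a b := by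
    intro x a b hab
    have h1 : G'.Adj (Sum.inr (Sum.inr (kp x, a))) (Sum.inr (Sum.inr (kp x, b))) := ⟨rfl, hab⟩
    have h2 := congrArg Prod.fst (F0 x)
    have h3 : toF (ψ (Sum.inr (Sum.inr (kp x, a))) (Sum.inr (Sum.inr (kp x, b)))) = cG a b :=
      congrFun (congrFun h2 a) b
    rw [← h3]
    exact (htoF _ (hb _ _ h1)).symm
  have F2 : ∀ x z b, ψ (Sum.inl z) (Sum.inr (Sum.inr (kp x, b))) = sv z b := by
    intro x z b
    have h2 := congrArg Prod.snd (F0 x)
    have h3 : toF (ψ (Sum.inl z) (Sum.inr (Sum.inr (kp x, b)))) = sv z b :=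
      congrFun (congrFun h2 z) b
    rw [← h3]
    exact (htoF _ (hb _ _ (adjJ _ _))).symm
  -- the rich part on the right
  obtain ⟨ε, hε⟩ : ∃ ε : ((Fin m × Fin nB) → Fin (q + 1)) → Fin κ, Function.Injective ε := by
    have hcard : Fintype.card ((Fin m × Fin nB) → Fin (q + 1)) ≤ κ := by
      simpa [Fintype.card_fun] using hκ
    exact ⟨fun f => Fin.castLE hcard (Fintype.equivFin _ f),
      (Fin.castLE_injective hcard).comp (Fintype.equivFin _).injective⟩
  obtain ⟨e, he, headj, heφ⟩ := hr (fun v => ε (fun z => toF (ψ (Sum.inl z) (Sum.inr (Sum.inl v)))))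
  let a0 : Fin nA := ⟨0, by omega⟩
  let s' : (Fin m × Fin nB) → Fin (q + 1) := fun z => toF (ψ (Sum.inl z) (Sum.inr (Sum.inl (e a0))))
  have F3 : ∀ z a, ψ (Sum.inl z) (Sum.inr (Sum.inl (e a))) = s' z := by
    intro z a
    have h1 := congrFun (hε (heφ a a0)) z
    show _ = ((toF (ψ (Sum.inl z) (Sum.inr (Sum.inl (e a0))))) : ℕ)
    rw [← h1]
    exact (htoF _ (hb _ _ (adjJ _ _))).symm
  -- at most one popular colour of `s'`
  have D1 : ∀ i i' : Fin (q + 1), i ≠ i' → t ≤ (univ.filter (fun z => s' z = i)).card →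
      ¬ t ≤ (univ.filter (fun z => s' z = i')).card := by
    intro i i' hii h1 h2
    obtain ⟨x, hx, hxm⟩ := exists_inj_of_card _ t h1
    obtain ⟨x', hx', hxm'⟩ := exists_inj_of_card _ t h2
    obtain ⟨j, hj, f, hf⟩ := two_joins B h3 hBe q τ hq hτ A hA G' ψ hψ hb
      (fun a => Sum.inr (Sum.inl (e a))) (Sum.inr_injective.comp (Sum.inl_injective.comp he))
      (fun a b hab => headj a b hab) (i : ℕ) (i' : ℕ) (fun h => hii (Fin.ext h)) (by omega)
      (by omega) (fun k => Sum.inl (x k)) (fun k => Sum.inl (x' k)) (Sum.inl_injective.comp hx)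
      (Sum.inl_injective.comp hx')
      (fun k a => ⟨adjJ _ _, by
        have := (Finset.mem_filter.mp (hxm k)).2
        rw [F3, this]⟩)
      (fun k a => ⟨adjJ _ _, by
        have := (Finset.mem_filter.mp (hxm' k)).2
        rw [F3, this]⟩)
    exact hno j hj f hf
  have hcardZ : Fintype.card (Fin m × Fin nB) = m * nB := by simp
  have hmnB : m ≤ m * nB := Nat.le_mul_of_pos_right m hB1
  obtain ⟨i₀, hi₀⟩ : ∃ i₀, t < (univ.filter (fun z => s' z = i₀)).card := by
    apply Fintype.exists_lt_card_fiber_of_mul_lt_card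
    rw [Fintype.card_fin, hcardZ]
    have : (q + 1) * t < 4 * (q + 1) * (t + 1) := by nlinarith
    omega
  have hrest : (univ.filter (fun z => s' z ≠ i₀)).card ≤ (q + 1) * t := by
    have hsub : (univ.filter (fun z => s' z ≠ i₀)) ⊆
        (univ.erase i₀).biUnion (fun i => univ.filter (fun z => s' z = i)) := by
      intro z hz
      rw [Finset.mem_biUnion]
      exact ⟨s' z, Finset.mem_erase.mpr ⟨(Finset.mem_filter.mp hz).2, Finset.mem_univ _⟩,
        Finset.mem_filter.mpr ⟨Finset.mem_univ _, rfl⟩⟩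
    calc _ ≤ _ := Finset.card_le_card hsub
      _ ≤ ∑ i ∈ univ.erase i₀, (univ.filter (fun z => s' z = i)).card := Finset.card_biUnion_le
      _ ≤ ∑ _i ∈ univ.erase i₀, t := by
        apply Finset.sum_le_sum
        intro i hi
        have := D1 i₀ i (Finset.ne_of_mem_erase hi).symm hi₀.le
        omega
      _ ≤ (q + 1) * t := by
        rw [Finset.sum_const, smul_eq_mul]
        apply Nat.mul_le_mul_right
        calc (univ.erase i₀).card ≤ (univ : Finset (Fin (q + 1))).card :=
              Finset.card_le_card (Finset.erase_subset _ _)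
          _ = q + 1 := by simp
  -- two colours on a hyperedge are impossible
  have D2 : ∀ (Q : Finset (Fin m × Fin nB)) (i i' : Fin (q + 1)), i ≠ i' →
      (∃ x : Fin t → (Vr ⊕ (Fin N × Fin nB)), Function.Injective x ∧
        ∀ k, ∀ z ∈ Q, ψ (Sum.inl z) (Sum.inr (x k)) = i) →
      (∃ x : Fin t → (Vr ⊕ (Fin N × Fin nB)), Function.Injective x ∧
        ∀ k, ∀ z ∈ Q, ψ (Sum.inl z) (Sum.inr (x k)) = i') → k * Q.card < m * nB := by
    rintro Q i i' hii ⟨x, hx, hxQ⟩ ⟨x', hx', hxQ'⟩
    by_contra hlt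
    obtain ⟨j, hj⟩ := hD Q (by omega)
    obtain ⟨j', hj', f, hf⟩ := two_joins B h3 hBe q τ hq hτ A hA G' ψ hψ hb
      (fun a => Sum.inl (E j a)) (Sum.inl_injective.comp (hEinj j))
      (fun a b hab => sys_adjA hSp hR (by omega) A Y j hab) (i : ℕ) (i' : ℕ)
      (fun h => hii (Fin.ext h)) (by omega)
      (by omega) (fun k => Sum.inr (x k)) (fun k => Sum.inr (x' k)) (Sum.inr_injective.comp hx)
      (Sum.inr_injective.comp hx')
      (fun k a => ⟨adjJ' _ _, by rw [hψ]; exact hxQ k _ (hj a)⟩)
      (fun k a => ⟨adjJ' _ _, by rw [hψ]; exact hxQ' k _ (hj a)⟩)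
    exact hno j' hj' f hf
  let b0 : Fin nB := ⟨0, by omega⟩
  have E1 : ∀ s0 : Fin nB → Fin (q + 1), (¬ ∃ i, s0 = fun _ => i) →
      k * (univ.filter (fun z => sv z = s0)).card < m * nB := by
    intro s0 hs0
    obtain ⟨p, hp⟩ : ∃ p, s0 p ≠ s0 b0 := by
      by_contra hcon
      push Not at hcon
      exact hs0 ⟨s0 b0, funext hcon⟩
    apply D2 _ (s0 p) (s0 b0) hp
    · refine ⟨fun k => Sum.inr (kp k, p), ?_, ?_⟩
      · intro k k' hkk
        exact hkp (congrArg Prod.fst (Sum.inr_injective hkk))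
      · intro k z hz
        rw [F2, (Finset.mem_filter.mp hz).2]
    · refine ⟨fun k => Sum.inr (kp k, b0), ?_, ?_⟩
      · intro k k' hkk
        exact hkp (congrArg Prod.fst (Sum.inr_injective hkk))
      · intro k z hz
        rw [F2, (Finset.mem_filter.mp hz).2]
  have E2 : ∀ i, i ≠ i₀ →
      k * (univ.filter (fun z => (sv z = fun _ => i) ∧ s' z = i₀)).card < m * nB := by
    intro i hi
    apply D2 _ i i₀ hi
    · refine ⟨fun k => Sum.inr (kp k, b0), ?_, ?_⟩
      · intro k k' hkk
        exact hkp (congrArg Prod.fst (Sum.inr_injective hkk))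
      · intro k z hz
        rw [F2, (Finset.mem_filter.mp hz).2.1]
    · refine ⟨fun k => Sum.inl (e (Fin.castLE hAt k)), ?_, ?_⟩
      · intro k k' hkk
        exact Fin.castLE_injective hAt (he (Sum.inl_injective hkk))
      · intro k z hz
        rw [F3, (Finset.mem_filter.mp hz).2.2]
  -- the bad vertices
  set bad := univ.filter (fun z => ¬ sv z = fun _ => i₀) with hbad
  set Q := (q + 1) ^ nB + (q + 1) with hQ
  have hbadc : k * bad.card ≤ Q * (m * nB) + k * ((q + 1) * t) := by
    have hsub : bad ⊆ ((univ : Finset (Fin nB → Fin (q + 1))).filter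
        (fun s0 => ¬ ∃ i, s0 = fun _ => i)).biUnion (fun s0 => univ.filter (fun z => sv z = s0)) ∪
        ((univ.erase i₀).biUnion
          (fun i => univ.filter (fun z => (sv z = fun _ => i) ∧ s' z = i₀)) ∪
        univ.filter (fun z => s' z ≠ i₀)) := by
      intro z hz
      have hz' := (Finset.mem_filter.mp hz).2
      simp only [Finset.mem_union, Finset.mem_biUnion, Finset.mem_filter, Finset.mem_univ,
        true_and, Finset.mem_erase]
      by_cases h1 : ∃ i, sv z = fun _ => i
      · obtain ⟨i, hi⟩ := h1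
        by_cases h2 : s' z = i₀
        · right
          left
          refine ⟨i, ⟨?_, trivial⟩, hi, h2⟩
          rintro rfl
          exact hz' hi
        · right
          right
          exact h2
      · left
        exact ⟨sv z, h1, rfl⟩
    have hc1 : k * (((univ : Finset (Fin nB → Fin (q + 1))).filter
        (fun s0 => ¬ ∃ i, s0 = fun _ => i)).biUnion
          (fun s0 => univ.filter (fun z => sv z = s0))).card ≤ (q + 1) ^ nB * (m * nB) := by
      calc _ ≤ k * ∑ s0 ∈ ((univ : Finset (Fin nB → Fin (q + 1))).filter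
            (fun s0 => ¬ ∃ i, s0 = fun _ => i)), (univ.filter (fun z => sv z = s0)).card :=
            Nat.mul_le_mul_left _ Finset.card_biUnion_le
        _ = ∑ s0 ∈ ((univ : Finset (Fin nB → Fin (q + 1))).filter
            (fun s0 => ¬ ∃ i, s0 = fun _ => i)), k * (univ.filter (fun z => sv z = s0)).card := by
            rw [Finset.mul_sum]
        _ ≤ ∑ _s0 ∈ ((univ : Finset (Fin nB → Fin (q + 1))).filter
            (fun s0 => ¬ ∃ i, s0 = fun _ => i)), m * nB := by
            apply Finset.sum_le_sum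
            intro s0 hs0
            exact (E1 s0 (Finset.mem_filter.mp hs0).2).le
        _ ≤ (q + 1) ^ nB * (m * nB) := by
            rw [Finset.sum_const, smul_eq_mul]
            apply Nat.mul_le_mul_right
            calc _ ≤ (univ : Finset (Fin nB → Fin (q + 1))).card :=
                  Finset.card_le_card (Finset.filter_subset _ _)
              _ = (q + 1) ^ nB := by simp
    have hc2 : k * (((univ : Finset (Fin (q + 1))).erase i₀).biUnion
          (fun i => univ.filter (fun z => (sv z = fun _ => i) ∧ s' z = i₀))).card ≤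
          (q + 1) * (m * nB) := by
      calc _ ≤ k * ∑ i ∈ (univ : Finset (Fin (q + 1))).erase i₀,
            (univ.filter (fun z => (sv z = fun _ => i) ∧ s' z = i₀)).card :=
            Nat.mul_le_mul_left _ Finset.card_biUnion_le
        _ = ∑ i ∈ (univ : Finset (Fin (q + 1))).erase i₀,
            k * (univ.filter (fun z => (sv z = fun _ => i) ∧ s' z = i₀)).card := by
            rw [Finset.mul_sum]
        _ ≤ ∑ _i ∈ (univ : Finset (Fin (q + 1))).erase i₀, m * nB := by
            apply Finset.sum_le_sum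
            intro i hi
            exact (E2 i (Finset.ne_of_mem_erase hi)).le
        _ ≤ (q + 1) * (m * nB) := by
            rw [Finset.sum_const, smul_eq_mul]
            apply Nat.mul_le_mul_right
            calc _ ≤ (univ : Finset (Fin (q + 1))).card :=
                  Finset.card_le_card (Finset.erase_subset _ _)
              _ = q + 1 := by simp
    calc k * bad.card ≤ k * _ := Nat.mul_le_mul_left _ (Finset.card_le_card hsub)
      _ ≤ k * (_ + (_ + _)) := Nat.mul_le_mul_left _ ((Finset.card_union_le _ _).trans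
          (Nat.add_le_add_left (Finset.card_union_le _ _) _))
      _ ≤ Q * (m * nB) + k * ((q + 1) * t) := by
          rw [mul_add, mul_add, hQ, add_mul, add_assoc]
          exact Nat.add_le_add hc1 (Nat.add_le_add hc2 (Nat.mul_le_mul_left _ hrest))
  have hQpos : 0 < Q := by positivity
  have hbad4 : 4 * bad.card ≤ m + 4 * ((q + 1) * t) := by
    rw [hk] at hbadc
    have h1 : (nB * Q) * (4 * bad.card) ≤ (nB * Q) * (m + 4 * ((q + 1) * t)) := by
      calc (nB * Q) * (4 * bad.card) = 4 * nB * Q * bad.card := by ring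
        _ ≤ Q * (m * nB) + 4 * nB * Q * ((q + 1) * t) := hbadc
        _ = (nB * Q) * (m + 4 * ((q + 1) * t)) := by ring
    exact Nat.le_of_mul_le_mul_left h1 (by positivity)
  -- good blocks
  set Lg := (univ : Finset (Fin m)).filter (fun l => ∀ b, sv (l, b) = fun _ => i₀) with hLg
  have hLc : t ≤ Lg.card := by
    have h1 : Lgᶜ ⊆ bad.image Prod.fst := by
      intro l hl
      rw [Finset.mem_compl, hLg, Finset.mem_filter] at hl
      have : ∃ b, ¬ sv (l, b) = fun _ => i₀ := by
        by_contra hcon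
        push Not at hcon
        exact hl ⟨Finset.mem_univ _, hcon⟩
      obtain ⟨b, hb'⟩ := this
      rw [Finset.mem_image]
      exact ⟨(l, b), Finset.mem_filter.mpr ⟨Finset.mem_univ _, hb'⟩, rfl⟩
    have h2 : Lgᶜ.card ≤ bad.card := (Finset.card_le_card h1).trans Finset.card_image_le
    have h4 : Lg.card + Lgᶜ.card = m := by
      rw [Finset.card_add_card_compl, Fintype.card_fin]
    have h5 : 4 * (q + 1) * (t + 1) = 4 * ((q + 1) * t) + 4 * (q + 1) := by ring
    have h6 : t ≤ (q + 1) * t := Nat.le_mul_of_pos_left t (by omega)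
    omega
  obtain ⟨lm, hlm, hlmm⟩ := exists_inj_of_card Lg t hLc
  -- the edge of colour `i₀` on the right
  have ht1 : 0 < t := by
    obtain ⟨u, _⟩ := hBe
    exact Fintype.card_pos_iff.mpr ⟨u⟩
  obtain ⟨a1, b1, hab1, hcab1⟩ := nb_all_colours B G q hG
    (fun a b => ψ (Sum.inr (Sum.inr (kp ⟨0, ht1⟩, a))) (Sum.inr (Sum.inr (kp ⟨0, ht1⟩, b))))
    (fun a b => hψ _ _) (fun a b hab => hb _ _ ⟨rfl, hab⟩)
    (fun i hi f hf => hno i hi (fun w => Sum.inr (Sum.inr (kp ⟨0, ht1⟩, f w)))
      ⟨fun u v huv => hf.1 (congrArg Prod.snd (Sum.inr_injective (Sum.inr_injective huv))),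
        fun u v huv => ⟨⟨rfl, (hf.2 u v huv).1⟩, (hf.2 u v huv).2⟩⟩) i₀ (by omega)
  have hU : ∀ x, ψ (Sum.inr (Sum.inr (kp x, a1))) (Sum.inr (Sum.inr (kp x, b1))) = i₀ := by
    intro x
    rw [F1 x a1 b1 hab1, ← F1 ⟨0, ht1⟩ a1 b1 hab1]
    exact hcab1
  -- the edges of colour `i₀` on the left
  have hZ : ∀ l : Fin m, ∃ a b : Fin nB, a ≠ b ∧ (¬ IndepOn B Sᶜ →
      Y.Adj a b ∧ ψ (Sum.inl (l, a)) (Sum.inl (l, b)) = i₀) := by
    intro l
    by_cases hI : IndepOn B Sᶜ
    · exact ⟨a1, b1, hab1.ne, fun h => absurd hI h⟩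
    · have hYn := hY.resolve_left hI
      obtain ⟨a, b, hab, hcab⟩ := nb_all_colours B Y q hYn
        (fun a b => ψ (Sum.inl (l, a)) (Sum.inl (l, b)))
        (fun a b => hψ _ _) (fun a b hab => hb _ _ (sys_adjY A Y l hab))
        (fun i hi f hf => hno i hi (fun w => Sum.inl (l, f w))
          ⟨fun u v huv => hf.1 (congrArg Prod.snd (Sum.inl_injective huv)),
            fun u v huv => ⟨sys_adjY A Y l (hf.2 u v huv).1, (hf.2 u v huv).2⟩⟩) i₀ (by omega)
      exact ⟨a, b, hab.ne, fun _ => ⟨hab, hcab⟩⟩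
  choose al bl hlne hlY using hZ
  obtain ⟨r1, d1, hr1, hr1'⟩ := match_embed B S hS1
  obtain ⟨r2, d2, hr2, hr2'⟩ := match_embed B Sᶜ hS2
  let fU : W → (Fin m × Fin nB) ⊕ (Vr ⊕ (Fin N × Fin nB)) := fun u =>
    Sum.inr (Sum.inr (kp (r1 u), if d1 u = true then a1 else b1))
  let fZ : W → (Fin m × Fin nB) ⊕ (Vr ⊕ (Fin N × Fin nB)) := fun u =>
    Sum.inl (lm (r2 u), if d2 u = true then al (lm (r2 u)) else bl (lm (r2 u)))
  have ab_inj : ∀ (a b : Fin nB), a ≠ b → ∀ (p p' : Bool),
      (if p = true then a else b) = (if p' = true then a else b) → p = p' := by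
    intro a b hab p p' h
    cases p <;> cases p' <;> simp at h ⊢
    · exact hab h.symm
    · exact hab h
  apply hno (i₀ : ℕ) (by omega) (fun u => if u ∈ S then fU u else fZ u)
  constructor
  · intro u v huv
    simp only at huv
    by_cases hu : u ∈ S
    · by_cases hv : v ∈ S
      · rw [if_pos hu, if_pos hv] at huv
        have h1 := Sum.inr_injective (Sum.inr_injective huv)
        have h2 := hkp (congrArg Prod.fst h1)
        have h3 := ab_inj a1 b1 hab1.ne _ _ (congrArg Prod.snd h1)
        exact hr1 u hu v hv h2 h3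
      · rw [if_pos hu, if_neg hv] at huv
        exact absurd huv (by simp [fU, fZ])
    · by_cases hv : v ∈ S
      · rw [if_neg hu, if_pos hv] at huv
        exact absurd huv (by simp [fU, fZ])
      · rw [if_neg hu, if_neg hv] at huv
        have h1 := Sum.inl_injective huv
        have h2 := hlm (congrArg Prod.fst h1)
        have h3 := congrArg Prod.snd h1
        simp only at h3
        rw [h2] at h3
        exact hr2 u hu v hv h2 (ab_inj _ _ (hlne _) _ _ h3)
  · intro u v huv
    simp only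
    have cross : ∀ u v, u ∈ S → v ∉ S → G'.Adj (fU u) (fZ v) ∧ ψ (fU u) (fZ v) = i₀ := by
      intro u v hu hv
      refine ⟨adjJ' _ _, ?_⟩
      rw [hψ]
      show ψ (Sum.inl _) (Sum.inr (Sum.inr (kp _, _))) = _
      rw [F2]
      have := (Finset.mem_filter.mp (hlmm (r2 v))).2
      rw [this]
    by_cases hu : u ∈ S
    · by_cases hv : v ∈ S
      · rw [if_pos hu, if_pos hv]
        obtain ⟨h1, h2⟩ := hr1' u hu v hv huv
        simp only [fU]
        rw [h1]
        cases hdu : d1 u <;> cases hdv : d1 v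
        · exact absurd (hdu.trans hdv.symm) h2
        · simp only [Bool.false_eq_true, if_false, if_true]
          exact ⟨⟨rfl, hab1.symm⟩, by rw [hψ]; exact hU _⟩
        · simp only [Bool.false_eq_true, if_false, if_true]
          exact ⟨⟨rfl, hab1⟩, hU _⟩
        · exact absurd (hdu.trans hdv.symm) h2
      · rw [if_pos hu, if_neg hv]
        exact cross u v hu hv
    · by_cases hv : v ∈ S
      · rw [if_neg hu, if_pos hv]
        have := cross v u hv hu
        exact ⟨this.1.symm, by rw [hψ]; exact this.2⟩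
      · rw [if_neg hu, if_neg hv]
        obtain ⟨h1, h2⟩ := hr2' u hu v hv huv
        have hI : ¬ IndepOn B Sᶜ := fun h => h u hu v hv huv
        simp only [fZ]
        rw [h1]
        cases hdu : d2 u <;> cases hdv : d2 v
        · exact absurd (hdu.trans hdv.symm) h2
        · simp only [Bool.false_eq_true, if_false, if_true]
          exact ⟨sys_adjY A Y _ (hlY _ hI).1.symm, by rw [hψ]; exact (hlY _ hI).2⟩
        · simp only [Bool.false_eq_true, if_false, if_true]
          exact ⟨sys_adjY A Y _ (hlY _ hI).1, (hlY _ hI).2⟩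
        · exact absurd (hdu.trans hdv.symm) h2

end Pool.Agent.H65.RI
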