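import Pool.Agent.H65.RI.Defs

set_option autoImplicit false

/-!
Module BLK: reduction to subgraphs without separation (blocks).
-/

namespace Pool.Agent.H65.RI

open Finset Classical

/-- 2-connected graphs. -/
def TwoConn {W : Type} [Fintype W] (K : SimpleGraph W) : Prop :=
  3 ≤ Fintype.card W ∧ K.Connected ∧ ∀ v : W, (K.induce ({v}ᶜ : Set W)).Connected

/-- A set closed under adjacency contains everything reachable. -/
theorem h91_closed_reach {W : Type} (K : SimpleGraph W) (S : Set W)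
    (hS : ∀ u v, K.Adj u v → u ∈ S → v ∈ S) {a b : W} (h : K.Reachable a b) (ha : a ∈ S) :
    b ∈ S := by
  obtain ⟨p⟩ := h
  induction p with
  | nil => exact ha
  | cons hadj _ ih => exact ih (hS _ _ hadj ha)

theorem noSep_of_twoConn {W : Type} [Fintype W] (K : SimpleGraph W) (h : TwoConn K) :
    NoSep K := by
  intro S₁ S₂ hU hE hI
  by_contra hcon
  push Not at hcon
  obtain ⟨h1, h2⟩ := hcon
  obtain ⟨a, ha⟩ := (Set.ne_univ_iff_exists_notMem S₁).1 h1
  obtain ⟨b, hb⟩ := (Set.ne_univ_iff_exists_notMem S₂).1 h2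
  have hab : ∀ x, x ∈ S₁ ∨ x ∈ S₂ := fun x => by
    have : x ∈ S₁ ∪ S₂ := by rw [hU]; trivial
    exact this
  have ha2 : a ∈ S₂ := (hab a).resolve_left ha
  have hb1 : b ∈ S₁ := (hab b).resolve_right hb
  by_cases hne : (S₁ ∩ S₂).Nonempty
  · obtain ⟨v, hv⟩ := hne
    have hav : a ≠ v := by rintro rfl; exact ha hv.1
    have hbv : b ≠ v := by rintro rfl; exact hb hv.2
    have hr := (h.2.2 v).preconnected ⟨b, hbv⟩ ⟨a, hav⟩
    have := h91_closed_reach (K.induce ({v}ᶜ : Set W)) {x | x.1 ∈ S₁} (by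
      intro x y hxy hx
      rcases hE x.1 y.1 hxy with h' | h'
      · exact h'.2
      · exact absurd (hI ⟨hx, h'.1⟩ hv) x.2) hr hb1
    exact ha this
  · have hr := h.2.1.preconnected b a
    have := h91_closed_reach K S₁ (by
      intro x y hxy hx
      rcases hE x y hxy with h' | h'
      · exact h'.2
      · exact absurd ⟨x, hx, h'.1⟩ hne) hr hb1
    exact ha this

/-- Gluing principle: a property of vertex sets which holds for sets of size at most one and for
sets inducing a graph without separation, and which is preserved by gluing along at most one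
vertex, holds for all vertex sets. -/
theorem h91_glue {W : Type} [Fintype W] (H : SimpleGraph W) (P : Set W → Prop)
    (h0 : ∀ S : Set W, S.Subsingleton → P S)
    (hb : ∀ S : Set W, 2 ≤ Fintype.card S → NoSep (H.induce S) → P S)
    (hg : ∀ S₁ S₂ : Set W, (∀ u ∈ S₁ ∪ S₂, ∀ v ∈ S₁ ∪ S₂, H.Adj u v →
      (u ∈ S₁ ∧ v ∈ S₁) ∨ (u ∈ S₂ ∧ v ∈ S₂)) → (S₁ ∩ S₂).Subsingleton → P S₁ → P S₂ →
      P (S₁ ∪ S₂)) (S : Set W) : P S := by
  induction hn : S.ncard using Nat.strong_induction_on generalizing S with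
  | _ n ih =>
    by_cases hs : S.Subsingleton
    · exact h0 S hs
    · have h2 : 2 ≤ Fintype.card S := by
        rw [Set.not_subsingleton_iff] at hs
        have := hs.coe_sort
        exact Fintype.one_lt_card
      by_cases hN : NoSep (H.induce S)
      · exact hb S h2 hN
      · unfold NoSep at hN
        push Not at hN
        obtain ⟨T₁, T₂, hU, hE, hI, h1, h2⟩ := hN
        have hS : S = Subtype.val '' T₁ ∪ Subtype.val '' T₂ := by
          rw [← Set.image_union, hU]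
          simp
        have hlt : ∀ T : Set S, T ≠ Set.univ → P (Subtype.val '' T) := by
          intro T hT
          refine ih _ ?_ _ rfl
          rw [← hn]
          apply Set.ncard_lt_ncard _ (Set.toFinite _)
          refine ⟨?_, ?_⟩
          · rintro x ⟨y, _, rfl⟩; exact y.2
          · intro hsub
            apply hT
            ext x
            refine ⟨fun _ => trivial, fun _ => ?_⟩
            obtain ⟨y, hy, hxy⟩ := hsub x.2
            rw [← Subtype.ext hxy]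
            exact hy
        rw [hS]
        refine hg _ _ ?_ ?_ (hlt T₁ h1) (hlt T₂ h2)
        · intro u hu v hv huv
          rw [← hS] at hu hv
          rcases hE ⟨u, hu⟩ ⟨v, hv⟩ huv with h' | h'
          · exact Or.inl ⟨⟨_, h'.1, rfl⟩, ⟨_, h'.2, rfl⟩⟩
          · exact Or.inr ⟨⟨_, h'.1, rfl⟩, ⟨_, h'.2, rfl⟩⟩
        · rintro x ⟨⟨x1, hx1, rfl⟩, ⟨x2, hx2, hx12⟩⟩ y ⟨⟨y1, hy1, rfl⟩, ⟨y2, hy2, hy12⟩⟩
          rw [Subtype.ext hx12] at hx2
          rw [Subtype.ext hy12] at hy2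
          exact congrArg Subtype.val (hI ⟨hx1, hx2⟩ ⟨hy1, hy2⟩)

theorem h91_forestOn_mono {W : Type} (H : SimpleGraph W) (X Y : Set W) (h : Y ⊆ X)
    (hX : ForestOn H X) : ForestOn H Y :=
  fun A hA hAY => hX A hA (hAY.trans h)

theorem h91_forestOn_image {W : Type} (H : SimpleGraph W) (S : Set W) (X : Set S)
    (hX : ForestOn (H.induce S) X) : ForestOn H (Subtype.val '' X) := by
  intro A hA hAX
  have hAS : ∀ a ∈ A, a ∈ S := by
    intro a ha
    obtain ⟨b, _, rfl⟩ := hAX ha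
    exact b.2
  have key := hX (A.subtype (· ∈ S)) ?_ ?_
  · have h1 : (A.subtype (· ∈ S)).card = A.card := by
      rw [Finset.card_subtype, Finset.filter_true_of_mem hAS]
    rw [h1] at key
    refine le_trans (Nat.add_le_add_right ?_ 2) key
    apply Finset.card_le_card_of_surjOn (fun p : S × S => (p.1.1, p.2.1))
    rintro ⟨a, b⟩ hab
    rw [Finset.mem_coe, Finset.mem_filter, Finset.mem_product] at hab
    obtain ⟨⟨ha, hb⟩, hadj⟩ := hab
    refine ⟨(⟨a, hAS a ha⟩, ⟨b, hAS b hb⟩), ?_, rfl⟩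
    rw [Finset.mem_coe, Finset.mem_filter, Finset.mem_product]
    refine ⟨⟨?_, ?_⟩, hadj⟩
    · exact Finset.mem_subtype.2 ha
    · exact Finset.mem_subtype.2 hb
  · obtain ⟨a, ha⟩ := hA
    exact ⟨⟨a, hAS a ha⟩, Finset.mem_subtype.2 ha⟩
  · intro x hx
    rw [Finset.mem_coe, Finset.mem_subtype] at hx
    obtain ⟨y, hy, hxy⟩ := hAX hx
    rw [← Subtype.ext hxy]
    exact hy

theorem h91_forestOn_union {W : Type} (H : SimpleGraph W) (X Y : Set W)
    (hX : ForestOn H X) (hY : ForestOn H Y) (hI : (X ∩ Y).Subsingleton)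
    (hE : ∀ u ∈ X ∪ Y, ∀ v ∈ X ∪ Y, H.Adj u v → (u ∈ X ∧ v ∈ X) ∨ (u ∈ Y ∧ v ∈ Y)) :
    ForestOn H (X ∪ Y) := by
  intro A hA hAXY
  set A1 := A.filter (· ∈ X) with hA1
  set A2 := A.filter (· ∈ Y) with hA2
  have hU : A1 ∪ A2 = A := by
    ext a
    rw [Finset.mem_union, Finset.mem_filter, Finset.mem_filter]
    constructor
    · rintro (h | h) <;> exact h.1
    · intro ha
      rcases hAXY ha with h | h
      · exact Or.inl ⟨ha, h⟩
      · exact Or.inr ⟨ha, h⟩
  by_cases h1 : A1.Nonempty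
  · by_cases h2 : A2.Nonempty
    · have e1 := hX A1 h1 (by intro a ha; exact (Finset.mem_filter.1 ha).2)
      have e2 := hY A2 h2 (by intro a ha; exact (Finset.mem_filter.1 ha).2)
      have hc : (A1 ∩ A2).card ≤ 1 := by
        rw [Finset.card_le_one]
        intro a ha b hb
        rw [Finset.mem_inter, Finset.mem_filter, Finset.mem_filter] at ha hb
        exact hI ⟨ha.1.2, ha.2.2⟩ ⟨hb.1.2, hb.2.2⟩
      have hc2 := Finset.card_union_add_card_inter A1 A2
      rw [hU] at hc2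
      have hle : ((A ×ˢ A).filter (fun p => H.Adj p.1 p.2)).card ≤
          ((A1 ×ˢ A1).filter (fun p => H.Adj p.1 p.2)).card +
          ((A2 ×ˢ A2).filter (fun p => H.Adj p.1 p.2)).card := by
        refine le_trans (Finset.card_le_card ?_) (Finset.card_union_le _ _)
        rintro ⟨a, b⟩ hab
        rw [Finset.mem_filter, Finset.mem_product] at hab
        rw [Finset.mem_union, Finset.mem_filter, Finset.mem_filter, Finset.mem_product,
          Finset.mem_product]
        rcases hE a (hAXY hab.1.1) b (hAXY hab.1.2) hab.2 with h | h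
        · exact Or.inl ⟨⟨Finset.mem_filter.2 ⟨hab.1.1, h.1⟩,
            Finset.mem_filter.2 ⟨hab.1.2, h.2⟩⟩, hab.2⟩
        · exact Or.inr ⟨⟨Finset.mem_filter.2 ⟨hab.1.1, h.1⟩,
            Finset.mem_filter.2 ⟨hab.1.2, h.2⟩⟩, hab.2⟩
      omega
    · rw [Finset.not_nonempty_iff_eq_empty] at h2
      rw [h2, Finset.union_empty] at hU
      refine hX A hA ?_
      intro a ha
      rw [← hU] at ha
      exact (Finset.mem_filter.1 ha).2
  · rw [Finset.not_nonempty_iff_eq_empty] at h1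
    rw [h1, Finset.empty_union] at hU
    refine hY A hA ?_
    intro a ha
    rw [← hU] at ha
    exact (Finset.mem_filter.1 ha).2

/-- Forest partitions relative to a vertex set. -/
def h91_TFon {W : Type} (H : SimpleGraph W) (S : Set W) : Prop :=
  ∃ X : Set W, ForestOn H (S ∩ X) ∧ ForestOn H (S \ X)

theorem h91_tf_glue {W : Type} (H : SimpleGraph W) (S₁ S₂ : Set W)
    (hE : ∀ u ∈ S₁ ∪ S₂, ∀ v ∈ S₁ ∪ S₂, H.Adj u v →
      (u ∈ S₁ ∧ v ∈ S₁) ∨ (u ∈ S₂ ∧ v ∈ S₂)) (hI : (S₁ ∩ S₂).Subsingleton)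
    (h1 : h91_TFon H S₁) (h2 : h91_TFon H S₂) : h91_TFon H (S₁ ∪ S₂) := by
  obtain ⟨X₁, hX1, hX1'⟩ := h1
  obtain ⟨X₂, hX2, hX2', hag⟩ : ∃ X : Set W, ForestOn H (S₂ ∩ X) ∧ ForestOn H (S₂ \ X) ∧
      ∀ v ∈ S₁ ∩ S₂, (v ∈ X₁ ↔ v ∈ X) := by
    obtain ⟨X₂, hX2, hX2'⟩ := h2
    by_cases hne : (S₁ ∩ S₂).Nonempty
    · obtain ⟨v, hv⟩ := hne
      by_cases hv12 : v ∈ X₁ ↔ v ∈ X₂
      · refine ⟨X₂, hX2, hX2', fun w hw => ?_⟩
        rw [hI hw hv]; exact hv12
      · refine ⟨X₂ᶜ, ?_, ?_, fun w hw => ?_⟩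
        · rw [← Set.sdiff_eq]; exact hX2'
        · rw [Set.sdiff_compl]; exact hX2
        · rw [hI hw hv, Set.mem_compl_iff]
          tauto
    · refine ⟨X₂, hX2, hX2', fun w hw => absurd ⟨w, hw⟩ hne⟩
  refine ⟨(S₁ ∩ X₁) ∪ (S₂ ∩ X₂), ?_, ?_⟩
  · have hset : (S₁ ∪ S₂) ∩ ((S₁ ∩ X₁) ∪ (S₂ ∩ X₂)) = (S₁ ∩ X₁) ∪ (S₂ ∩ X₂) := by
      ext x
      constructor
      · exact fun h => h.2
      · intro h
        refine ⟨?_, h⟩
        rcases h with h | h
        · exact Or.inl h.1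
        · exact Or.inr h.1
    rw [hset]
    refine h91_forestOn_union H _ _ hX1 hX2 ?_ ?_
    · intro x hx y hy
      exact hI ⟨hx.1.1, hx.2.1⟩ ⟨hy.1.1, hy.2.1⟩
    · intro u hu v hv huv
      have hu' : u ∈ S₁ ∪ S₂ := by
        rcases hu with h | h
        · exact Or.inl h.1
        · exact Or.inr h.1
      have hv' : v ∈ S₁ ∪ S₂ := by
        rcases hv with h | h
        · exact Or.inl h.1
        · exact Or.inr h.1
      have e : ∀ w, w ∈ (S₁ ∩ X₁) ∪ (S₂ ∩ X₂) → (w ∈ S₁ → w ∈ S₁ ∩ X₁) ∧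
          (w ∈ S₂ → w ∈ S₂ ∩ X₂) := by
        intro w hw
        constructor
        · intro h
          refine ⟨h, ?_⟩
          rcases hw with h' | h'
          · exact h'.2
          · exact (hag w ⟨h, h'.1⟩).2 h'.2
        · intro h
          refine ⟨h, ?_⟩
          rcases hw with h' | h'
          · exact (hag w ⟨h'.1, h⟩).1 h'.2
          · exact h'.2
      rcases hE u hu' v hv' huv with h | h
      · exact Or.inl ⟨(e u hu).1 h.1, (e v hv).1 h.2⟩
      · exact Or.inr ⟨(e u hu).2 h.1, (e v hv).2 h.2⟩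
  · have hset : (S₁ ∪ S₂) \ ((S₁ ∩ X₁) ∪ (S₂ ∩ X₂)) ⊆ (S₁ \ X₁) ∪ (S₂ \ X₂) := by
      rintro x ⟨hx, hx'⟩
      rcases hx with h | h
      · exact Or.inl ⟨h, fun h' => hx' (Or.inl ⟨h, h'⟩)⟩
      · exact Or.inr ⟨h, fun h' => hx' (Or.inr ⟨h, h'⟩)⟩
    refine h91_forestOn_mono H _ _ hset ?_
    refine h91_forestOn_union H _ _ hX1' hX2' ?_ ?_
    · intro x hx y hy
      exact hI ⟨hx.1.1, hx.2.1⟩ ⟨hy.1.1, hy.2.1⟩
    · intro u hu v hv huv
      have hu' : u ∈ S₁ ∪ S₂ := by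
        rcases hu with h | h
        · exact Or.inl h.1
        · exact Or.inr h.1
      have hv' : v ∈ S₁ ∪ S₂ := by
        rcases hv with h | h
        · exact Or.inl h.1
        · exact Or.inr h.1
      have e : ∀ w, w ∈ (S₁ \ X₁) ∪ (S₂ \ X₂) → (w ∈ S₁ → w ∈ S₁ \ X₁) ∧
          (w ∈ S₂ → w ∈ S₂ \ X₂) := by
        intro w hw
        constructor
        · intro h
          refine ⟨h, ?_⟩
          rcases hw with h' | h'
          · exact h'.2
          · exact fun h'' => h'.2 ((hag w ⟨h, h'.1⟩).1 h'')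
        · intro h
          refine ⟨h, ?_⟩
          rcases hw with h' | h'
          · exact fun h'' => h'.2 ((hag w ⟨h'.1, h⟩).2 h'')
          · exact h'.2
      rcases hE u hu' v hv' huv with h | h
      · exact Or.inl ⟨(e u hu).1 h.1, (e v hv).1 h.2⟩
      · exact Or.inr ⟨(e u hu).2 h.1, (e v hv).2 h.2⟩

theorem h91_forestOn_subsingleton {W : Type} (H : SimpleGraph W) (X : Set W)
    (hX : X.Subsingleton) : ForestOn H X := by
  intro A hA hAX
  have h1 : ((A ×ˢ A).filter (fun p => H.Adj p.1 p.2)).card = 0 := by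
    rw [Finset.card_eq_zero, Finset.filter_eq_empty_iff]
    rintro ⟨a, b⟩ hab
    rw [Finset.mem_product] at hab
    have := hX (hAX hab.1) (hAX hab.2)
    simp only at this
    rw [this]
    exact H.loopless.irrefl b
  have h2 : 1 ≤ A.card := Finset.card_pos.2 hA
  omega

theorem tf_of_blocks {W : Type} [Fintype W] (H : SimpleGraph W)
    (h : ∀ S : Set W, 2 ≤ Fintype.card S → NoSep (H.induce S) → TF (H.induce S)) : TF H := by
  have key : h91_TFon H Set.univ := by
    refine h91_glue H (h91_TFon H) ?_ ?_ ?_ Set.univ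
    · intro S hS
      refine ⟨Set.univ, ?_, ?_⟩
      · exact h91_forestOn_subsingleton H _ (hS.anti Set.inter_subset_left)
      · exact h91_forestOn_subsingleton H _ (hS.anti Set.sdiff_subset)
    · intro S hS hN
      obtain ⟨X, hX, hX'⟩ := h S hS hN
      refine ⟨Subtype.val '' X, ?_, ?_⟩
      · exact h91_forestOn_mono H _ _ Set.inter_subset_right (h91_forestOn_image H S X hX)
      · refine h91_forestOn_mono H _ _ ?_ (h91_forestOn_image H S Xᶜ hX')
        rintro x ⟨hx, hx'⟩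
        exact ⟨⟨x, hx⟩, fun h' => hx' ⟨_, h', rfl⟩, rfl⟩
    · exact h91_tf_glue H
  obtain ⟨X, hX, hX'⟩ := key
  rw [Set.univ_inter] at hX
  refine ⟨X, hX, ?_⟩
  rw [Set.compl_eq_univ_sdiff]
  exact hX'

/-- 2-colourability relative to a vertex set. -/
def h91_Bip {W : Type} (H : SimpleGraph W) (S : Set W) : Prop :=
  ∃ c : W → Bool, ∀ u ∈ S, ∀ v ∈ S, H.Adj u v → c u ≠ c v

theorem h91_bip_glue {W : Type} (H : SimpleGraph W) (S₁ S₂ : Set W)
    (hE : ∀ u ∈ S₁ ∪ S₂, ∀ v ∈ S₁ ∪ S₂, H.Adj u v →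
      (u ∈ S₁ ∧ v ∈ S₁) ∨ (u ∈ S₂ ∧ v ∈ S₂)) (hI : (S₁ ∩ S₂).Subsingleton)
    (h1 : h91_Bip H S₁) (h2 : h91_Bip H S₂) : h91_Bip H (S₁ ∪ S₂) := by
  obtain ⟨c₁, hc1⟩ := h1
  obtain ⟨c₂, hc2, hag⟩ : ∃ c : W → Bool, (∀ u ∈ S₂, ∀ v ∈ S₂, H.Adj u v → c u ≠ c v) ∧
      ∀ v ∈ S₁ ∩ S₂, c₁ v = c v := by
    obtain ⟨c₂, hc2⟩ := h2
    by_cases hne : (S₁ ∩ S₂).Nonempty
    · obtain ⟨v, hv⟩ := hne
      by_cases hv12 : c₁ v = c₂ v
      · refine ⟨c₂, hc2, fun w hw => ?_⟩
        rw [hI hw hv]; exact hv12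
      · refine ⟨fun w => !(c₂ w), fun u hu w hw huw h => ?_, fun w hw => ?_⟩
        · apply hc2 u hu w hw huw
          simpa using h
        · rw [hI hw hv]
          cases h1 : c₁ v <;> cases h2 : c₂ v <;> simp_all
    · refine ⟨c₂, hc2, fun w hw => absurd ⟨w, hw⟩ hne⟩
  refine ⟨fun w => if w ∈ S₁ then c₁ w else c₂ w, ?_⟩
  intro u hu v hv huv
  rcases hE u hu v hv huv with h | h
  · simp only [h.1, h.2, if_true]
    exact hc1 u h.1 v h.2 huv
  · have e : ∀ w ∈ S₂, (if w ∈ S₁ then c₁ w else c₂ w) = c₂ w := by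
      intro w hw
      split_ifs with hw1
      · exact hag w ⟨hw1, hw⟩
      · rfl
    simp only [e u h.1, e v h.2]
    exact hc2 u h.1 v h.2 huv

theorem nonbip_block {W : Type} [Fintype W] (H : SimpleGraph W) (h : ¬ H.Colorable 2) :
    ∃ S : Set W, 2 ≤ Fintype.card S ∧ NoSep (H.induce S) ∧ ¬ (H.induce S).Colorable 2 := by
  by_contra hcon
  push Not at hcon
  apply h
  have key : h91_Bip H Set.univ := by
    refine h91_glue H (h91_Bip H) ?_ ?_ ?_ Set.univ
    · intro S hS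
      refine ⟨fun _ => true, fun u hu v hv huv => ?_⟩
      rw [hS hu hv] at huv
      exact absurd huv (H.loopless.irrefl v)
    · intro S hS hN
      obtain ⟨C⟩ := hcon S hS hN
      refine ⟨fun w => if hw : w ∈ S then decide (C ⟨w, hw⟩ = 0) else true, ?_⟩
      intro u hu v hv huv
      simp only [hu, hv, dif_pos]
      have hne : C ⟨u, hu⟩ ≠ C ⟨v, hv⟩ := C.valid (by exact huv)
      intro heq
      apply hne
      have h1 : (C ⟨u, hu⟩ = 0) ↔ (C ⟨v, hv⟩ = 0) := by
        have := heq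
        simpa using this
      generalize C ⟨u, hu⟩ = x at *
      generalize C ⟨v, hv⟩ = y at *
      fin_cases x <;> fin_cases y <;> simp_all
    · exact h91_bip_glue H
  obtain ⟨c, hc⟩ := key
  refine ⟨SimpleGraph.Coloring.mk (fun v => if c v then 0 else 1) ?_⟩
  intro u v huv
  have := hc u trivial v trivial huv
  cases h1 : c u <;> cases h2 : c v <;> simp_all

/-- Adding edges preserves the absence of separations. -/
theorem noSep_mono {W : Type} (K K' : SimpleGraph W) (h : K ≤ K') (hK : NoSep K) :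
    NoSep K' := by
  intro S₁ S₂ hU hE hI
  exact hK S₁ S₂ hU (fun u v huv => hE u v (h huv)) hI

/-- Images of graphs without separation: if `f` embeds `B` into `H`, then `H` induces on the range
of `f` a graph without separation. -/
theorem noSep_range {W W' : Type} (B : SimpleGraph W) (H : SimpleGraph W') (f : W → W')
    (hf : Function.Injective f) (hadj : ∀ u v, B.Adj u v → H.Adj (f u) (f v)) (hB : NoSep B) :
    NoSep (H.induce (Set.range f)) := by
  intro S₁ S₂ hU hE hI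
  have key : ∀ S : Set (Set.range f), {w : W | (⟨f w, ⟨w, rfl⟩⟩ : Set.range f) ∈ S} = Set.univ →
      S = Set.univ := by
    intro S hS
    ext ⟨x, w, rfl⟩
    refine ⟨fun _ => trivial, fun _ => ?_⟩
    have : w ∈ {w : W | (⟨f w, ⟨w, rfl⟩⟩ : Set.range f) ∈ S} := by rw [hS]; trivial
    exact this
  have h1 := hB {w : W | (⟨f w, ⟨w, rfl⟩⟩ : Set.range f) ∈ S₁}
    {w : W | (⟨f w, ⟨w, rfl⟩⟩ : Set.range f) ∈ S₂} ?_ ?_ ?_
  · rcases h1 with h1 | h1
    · exact Or.inl (key S₁ h1)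
    · exact Or.inr (key S₂ h1)
  · ext w
    refine ⟨fun _ => trivial, fun _ => ?_⟩
    have : (⟨f w, ⟨w, rfl⟩⟩ : Set.range f) ∈ S₁ ∪ S₂ := by rw [hU]; trivial
    exact this
  · intro u v huv
    exact hE ⟨f u, ⟨u, rfl⟩⟩ ⟨f v, ⟨v, rfl⟩⟩ (hadj u v huv)
  · intro u hu v hv
    have := hI (show (⟨f u, ⟨u, rfl⟩⟩ : Set.range f) ∈ S₁ ∩ S₂ from hu)
      (show (⟨f v, ⟨v, rfl⟩⟩ : Set.range f) ∈ S₁ ∩ S₂ from hv)
    exact hf (congrArg Subtype.val this)

end Pool.Agent.H65.RI
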