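import Mathlib

set_option autoImplicit false

/-!
Definitions for the isolation theorem in multicolour graph Ramsey theory (MP_b356f0_co).
All graphs live on types in `Type`; edge colourings are symmetric functions `V → V → ℕ`
(only the values on edges matter).
-/

namespace Pool.Agent.H65.RI

open Finset Classical

/-- Symmetric functions of two vertices. -/
def Sm {V : Type} (c : V → V → ℕ) : Prop := ∀ a b, c a b = c b a

/-- `f` is a copy of `H` in colour `i`. -/
def Mono {V W : Type} (G : SimpleGraph V) (H : SimpleGraph W) (c : V → V → ℕ) (i : ℕ)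
    (f : W → V) : Prop :=
  Function.Injective f ∧ ∀ u v, H.Adj u v → G.Adj (f u) (f v) ∧ c (f u) (f v) = i

/-- A complete bipartite graph with sides of size `τ` in colour `i`. -/
def MonoK {V : Type} (G : SimpleGraph V) (τ : ℕ) (c : V → V → ℕ) (i : ℕ) : Prop :=
  ∃ g : Fin τ ⊕ Fin τ → V, Function.Injective g ∧
    ∀ a b, G.Adj (g (Sum.inl a)) (g (Sum.inr b)) ∧ c (g (Sum.inl a)) (g (Sum.inr b)) = i

/-- `G` is not the union of `r` graphs without `H` and a graph without `K_{τ,τ}` (colour `r`). -/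
def NB {V W : Type} (G : SimpleGraph V) (r : ℕ) (H : SimpleGraph W) (τ : ℕ) : Prop :=
  ∀ c : V → V → ℕ, Sm c → (∀ a b, G.Adj a b → c a b ≤ r) →
    (∃ i, i < r ∧ ∃ f : W → V, Mono G H c i f) ∨ MonoK G τ c r

/-- `G` has a colouring with `m` colours, colour `0` without `L0`, the other colours without `L1`. -/
def Good {V W0 W1 : Type} (G : SimpleGraph V) (m : ℕ) (L0 : SimpleGraph W0)
    (L1 : SimpleGraph W1) : Prop :=
  ∃ c : V → V → ℕ, Sm c ∧ (∀ a b, G.Adj a b → c a b < m) ∧ (∀ f : W0 → V, ¬ Mono G L0 c 0 f) ∧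
    ∀ j, 1 ≤ j → j < m → ∀ f : W1 → V, ¬ Mono G L1 c j f

/-- `c` is a colouring with `m` colours in which no edge of colour `j` leaves a copy of `B` in
colour `j`. -/
def PrivC {V W : Type} (G : SimpleGraph V) (m : ℕ) (B : SimpleGraph W) (c : V → V → ℕ) : Prop :=
  Sm c ∧ (∀ a b, G.Adj a b → c a b < m) ∧
    ∀ (j : ℕ) (f : W → V), Mono G B c j f → ∀ w y, G.Adj (f w) y → c (f w) y = j → y ∈ Set.range f

/-- `G` has a colouring with `m` colours in which copies of `B` are private. -/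
def Priv {V W : Type} (G : SimpleGraph V) (m : ℕ) (B : SimpleGraph W) : Prop :=
  ∃ c : V → V → ℕ, PrivC G m B c

/-- No separation by at most one vertex. -/
def NoSep {W : Type} (K : SimpleGraph W) : Prop :=
  ∀ S₁ S₂ : Set W, S₁ ∪ S₂ = Set.univ →
    (∀ u v, K.Adj u v → (u ∈ S₁ ∧ v ∈ S₁) ∨ (u ∈ S₂ ∧ v ∈ S₂)) →
    (S₁ ∩ S₂).Subsingleton → S₁ = Set.univ ∨ S₂ = Set.univ

/-- `H` induces on `X` a graph in which every nonempty set `A` spans at most `|A| - 1` edges (a
forest). -/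
def ForestOn {W : Type} (H : SimpleGraph W) (X : Set W) : Prop :=
  ∀ A : Finset W, A.Nonempty → (↑A : Set W) ⊆ X →
    ((A ×ˢ A).filter (fun p => H.Adj p.1 p.2)).card + 2 ≤ 2 * A.card

/-- Vertex partition into two sets inducing forests. -/
def TF {W : Type} (H : SimpleGraph W) : Prop := ∃ X : Set W, ForestOn H X ∧ ForestOn H Xᶜ

/-- `H` induces on `X` a graph of maximum degree at most one. -/
def Deg1On {W : Type} (H : SimpleGraph W) (X : Set W) : Prop :=
  ∀ u ∈ X, ∀ v ∈ X, ∀ v' ∈ X, H.Adj u v → H.Adj u v' → v = v'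

/-- `H` has no edge inside `X`. -/
def IndepOn {W : Type} (H : SimpleGraph W) (X : Set W) : Prop :=
  ∀ u ∈ X, ∀ v ∈ X, ¬ H.Adj u v

/-- `L` is contained in `H` (not necessarily induced). -/
def Sub {W W' : Type} (L : SimpleGraph W) (H : SimpleGraph W') : Prop :=
  ∃ f : W → W', Function.Injective f ∧ ∀ u v, L.Adj u v → H.Adj (f u) (f v)

/-! ### Systems of copies along sparse families -/

/-- Sparse family: hyperedges `E j` (of size `nA`) together with the blocks `{l} × Fin nB`. Any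
`1 ≤ s ≤ R` members span at least `∑ (size - 1) + 1` vertices. -/
def Sparse {ι : Type} {nA nB m : ℕ} (E : ι → Fin nA → Fin m × Fin nB) (R : ℕ) : Prop :=
  ∀ (J : Finset ι) (D : Finset (Fin m)), 1 ≤ J.card + D.card → J.card + D.card ≤ R →
    J.card * (nA - 1) + D.card * (nB - 1) + 1 ≤
      (J.biUnion (fun j => univ.image (E j)) ∪ D ×ˢ univ).card

/-- Every set of at least `1/k` of the vertices contains a hyperedge. -/
def Dense {ι : Type} {nA nB m : ℕ} (E : ι → Fin nA → Fin m × Fin nB) (k : ℕ) : Prop :=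
  ∀ W : Finset (Fin m × Fin nB), m * nB ≤ k * W.card → ∃ j, ∀ a, E j a ∈ W

/-- Copies of `A` on the hyperedges, copies of `Y` on the blocks. -/
def Sys {ι : Type} {nA nB m : ℕ} (E : ι → Fin nA → Fin m × Fin nB) (A : SimpleGraph (Fin nA))
    (Y : SimpleGraph (Fin nB)) : SimpleGraph (Fin m × Fin nB) where
  Adj x y := x ≠ y ∧ ((∃ j a b, A.Adj a b ∧ E j a = x ∧ E j b = y) ∨
    ∃ l a b, Y.Adj a b ∧ (l, a) = x ∧ (l, b) = y)
  symm := ⟨by
    rintro x y ⟨hne, h⟩
    refine ⟨hne.symm, ?_⟩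
    rcases h with ⟨j, a, b, hab, h1, h2⟩ | ⟨l, a, b, hab, h1, h2⟩
    · exact Or.inl ⟨j, b, a, hab.symm, h2, h1⟩
    · exact Or.inr ⟨l, b, a, hab.symm, h2, h1⟩⟩
  loopless := ⟨fun x h => h.1 rfl⟩

/-- Join of two graphs. -/
def jn {V₁ V₂ : Type} (G₁ : SimpleGraph V₁) (G₂ : SimpleGraph V₂) : SimpleGraph (V₁ ⊕ V₂) where
  Adj x y := match x, y with
    | Sum.inl a, Sum.inl b => G₁.Adj a b
    | Sum.inr a, Sum.inr b => G₂.Adj a b
    | _, _ => True
  symm := ⟨by
    rintro (x | x) (y | y) h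
    · exact h.symm
    · exact h
    · exact h
    · exact h.symm⟩
  loopless := ⟨by
    rintro (x | x) h
    · exact G₁.loopless.irrefl x h
    · exact G₂.loopless.irrefl x h⟩

/-- Disjoint union of two graphs. -/
def ds {V₁ V₂ : Type} (G₁ : SimpleGraph V₁) (G₂ : SimpleGraph V₂) : SimpleGraph (V₁ ⊕ V₂) where
  Adj x y := match x, y with
    | Sum.inl a, Sum.inl b => G₁.Adj a b
    | Sum.inr a, Sum.inr b => G₂.Adj a b
    | _, _ => False
  symm := ⟨by
    rintro (x | x) (y | y) h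
    · exact h.symm
    · exact h
    · exact h
    · exact h.symm⟩
  loopless := ⟨by
    rintro (x | x) h
    · exact G₁.loopless.irrefl x h
    · exact G₂.loopless.irrefl x h⟩

/-- `N` disjoint copies of a graph. -/
def cps {V : Type} (N : ℕ) (G : SimpleGraph V) : SimpleGraph (Fin N × V) where
  Adj x y := x.1 = y.1 ∧ G.Adj x.2 y.2
  symm := ⟨by
    rintro x y ⟨h1, h2⟩
    exact ⟨h1.symm, h2.symm⟩⟩
  loopless := ⟨fun x h => G.loopless.irrefl x.2 h.2⟩

end Pool.Agent.H65.RI
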