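import Pool.Agent.H65.RI.Defs

set_option autoImplicit false

/-!
Module EMB: forests in graphs of large chromatic number.
-/

namespace Pool.Agent.H65.RI

open Finset Classical

/-- A graph that is not `κ`-colourable has a nonempty vertex set all of whose vertices have at
least `κ` neighbours in it. -/
theorem h58_core {V : Type} [Fintype V] (Γ : SimpleGraph V) (κ : ℕ) (h1 : 1 ≤ κ)
    (hΓ : ¬ ∃ φ : V → Fin κ, ∀ u v, Γ.Adj u v → φ u ≠ φ v) :
    ∃ D : Finset V, D.Nonempty ∧ ∀ v ∈ D, κ ≤ (D.filter (fun u => Γ.Adj v u)).card := by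
  by_contra hcon
  push Not at hcon
  apply hΓ
  have key : ∀ D : Finset V, ∃ φ : V → Fin κ, ∀ u ∈ D, ∀ v ∈ D, Γ.Adj u v → φ u ≠ φ v := by
    intro D
    induction D using Finset.strongInduction with
    | H D ih =>
      rcases D.eq_empty_or_nonempty with rfl | hD
      · exact ⟨fun _ => ⟨0, h1⟩, by simp⟩
      · obtain ⟨v, hv, hlt⟩ := hcon D hD
        obtain ⟨φ, hφ⟩ := ih (D.erase v) (Finset.erase_ssubset hv)
        have hcard : ((D.filter (fun u => Γ.Adj v u)).image φ).card < (univ : Finset (Fin κ)).card := by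
          rw [Finset.card_univ, Fintype.card_fin]
          exact lt_of_le_of_lt Finset.card_image_le hlt
        obtain ⟨c, -, hc⟩ := Finset.exists_mem_notMem_of_card_lt_card hcard
        refine ⟨Function.update φ v c, ?_⟩
        intro a ha b hb hab
        by_cases hav : a = v
        · subst hav
          have hba : b ≠ a := hab.ne'
          rw [Function.update_self, Function.update_of_ne hba]
          rintro rfl
          exact hc (Finset.mem_image_of_mem φ (Finset.mem_filter.mpr ⟨hb, hab⟩))
        · by_cases hbv : b = v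
          · subst hbv
            rw [Function.update_self, Function.update_of_ne hav]
            rintro rfl
            exact hc (Finset.mem_image_of_mem φ (Finset.mem_filter.mpr ⟨ha, hab.symm⟩))
          · rw [Function.update_of_ne hav, Function.update_of_ne hbv]
            exact hφ a (Finset.mem_erase.mpr ⟨hav, ha⟩) b (Finset.mem_erase.mpr ⟨hbv, hb⟩) hab
  obtain ⟨φ, hφ⟩ := key univ
  exact ⟨φ, fun u v huv => hφ u (mem_univ _) v (mem_univ _) huv⟩

theorem h58_pairs {W : Type} (H : SimpleGraph W) (A : Finset W) :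
    ((A ×ˢ A).filter (fun p => H.Adj p.1 p.2)).card =
      ∑ a ∈ A, (A.filter (fun b => H.Adj a b)).card := by
  rw [Finset.card_filter, Finset.sum_product]
  refine Finset.sum_congr rfl fun a _ => ?_
  rw [Finset.card_filter]

theorem h58_leaf {W : Type} (H : SimpleGraph W) (X : Set W) (hX : ForestOn H X) (A : Finset W)
    (hA : A.Nonempty) (hAX : (↑A : Set W) ⊆ X) :
    ∃ a ∈ A, (A.filter (fun b => H.Adj a b)).card ≤ 1 := by
  by_contra hcon
  push Not at hcon
  have h := hX A hA hAX
  rw [h58_pairs] at h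
  have : ∑ a ∈ A, 2 ≤ ∑ a ∈ A, (A.filter (fun b => H.Adj a b)).card :=
    Finset.sum_le_sum fun a ha => hcon a ha
  rw [Finset.sum_const, smul_eq_mul] at this
  omega

theorem emb_forest {W V : Type} [Fintype W] [Fintype V] (H : SimpleGraph W) (X : Set W)
    (hX : ForestOn H X) (Γ : SimpleGraph V) (κ : ℕ) (hκ : Fintype.card W ≤ κ) (h1 : 1 ≤ κ)
    (hΓ : ¬ ∃ φ : V → Fin κ, ∀ u v, Γ.Adj u v → φ u ≠ φ v) :
    ∃ f : W → V, Set.InjOn f X ∧ (∀ u ∈ X, ∀ v ∈ X, H.Adj u v → Γ.Adj (f u) (f v)) ∧
      ∀ u ∈ X, ∃ y, Γ.Adj (f u) y := by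
  obtain ⟨D, ⟨d0, hd0⟩, hD⟩ := h58_core Γ κ h1 hΓ
  have key : ∀ A : Finset W, (↑A : Set W) ⊆ X →
      ∃ f : W → V, (∀ a ∈ A, f a ∈ D) ∧ Set.InjOn f (↑A : Set W) ∧
        ∀ u ∈ A, ∀ v ∈ A, H.Adj u v → Γ.Adj (f u) (f v) := by
    intro A
    induction A using Finset.strongInduction with
    | H A ih =>
      intro hAX
      rcases A.eq_empty_or_nonempty with rfl | hA
      · exact ⟨fun _ => d0, by simp, by simp, by simp⟩
      · obtain ⟨a, ha, hdeg⟩ := h58_leaf H X hX A hA hAX
        have hsub : (↑(A.erase a) : Set W) ⊆ X := fun x hx =>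
          hAX (Finset.mem_of_mem_erase hx)
        obtain ⟨f, hfD, hfi, hfe⟩ := ih (A.erase a) (Finset.erase_ssubset ha) hsub
        -- the image of the smaller set has fewer than `κ` elements
        have hlt : ((A.erase a).image f).card < κ := by
          calc ((A.erase a).image f).card ≤ (A.erase a).card := Finset.card_image_le
            _ < A.card := Finset.card_erase_lt_of_mem ha
            _ ≤ Fintype.card W := Finset.card_le_univ A
            _ ≤ κ := hκ
        -- choose the new vertex
        obtain ⟨v, hvD, hvnew, hvadj⟩ : ∃ v ∈ D, v ∉ (A.erase a).image f ∧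
            ∀ b ∈ A, H.Adj a b → Γ.Adj v (f b) := by
          rcases (A.filter (fun b => H.Adj a b)).eq_empty_or_nonempty with he | ⟨b, hb⟩
          · have hDc : κ ≤ D.card := (hD d0 hd0).trans (Finset.card_filter_le _ _)
            obtain ⟨v, hv, hv'⟩ := Finset.exists_mem_notMem_of_card_lt_card (lt_of_lt_of_le hlt hDc)
            refine ⟨v, hv, hv', fun b hb hab => ?_⟩
            have : b ∈ A.filter (fun b => H.Adj a b) := Finset.mem_filter.mpr ⟨hb, hab⟩
            rw [he] at this
            exact absurd this (Finset.notMem_empty b)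
          · obtain ⟨hbA, hab⟩ := Finset.mem_filter.mp hb
            have hba : b ≠ a := hab.ne'
            have hbD := hfD b (Finset.mem_erase.mpr ⟨hba, hbA⟩)
            obtain ⟨v, hv, hv'⟩ := Finset.exists_mem_notMem_of_card_lt_card
              (lt_of_lt_of_le hlt (hD (f b) hbD))
            obtain ⟨hvD, hvadj⟩ := Finset.mem_filter.mp hv
            refine ⟨v, hvD, hv', fun b' hb' hab' => ?_⟩
            have : b' = b := Finset.card_le_one.mp hdeg b' (Finset.mem_filter.mpr ⟨hb', hab'⟩) b hb
            subst this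
            exact hvadj.symm
        have hne : ∀ x ∈ A, x ≠ a → f x ≠ v := fun x hx hxa he =>
          hvnew (he ▸ Finset.mem_image_of_mem f (Finset.mem_erase.mpr ⟨hxa, hx⟩))
        refine ⟨Function.update f a v, ?_, ?_, ?_⟩
        · intro x hx
          by_cases hxa : x = a
          · subst hxa; rwa [Function.update_self]
          · rw [Function.update_of_ne hxa]
            exact hfD x (Finset.mem_erase.mpr ⟨hxa, hx⟩)
        · intro x hx y hy hxy
          rw [Finset.mem_coe] at hx hy
          by_cases hxa : x = a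
          · by_cases hya : y = a
            · rw [hxa, hya]
            · subst hxa
              rw [Function.update_self, Function.update_of_ne hya] at hxy
              exact absurd hxy.symm (hne y hy hya)
          · by_cases hya : y = a
            · subst hya
              rw [Function.update_self, Function.update_of_ne hxa] at hxy
              exact absurd hxy (hne x hx hxa)
            · rw [Function.update_of_ne hxa, Function.update_of_ne hya] at hxy
              exact hfi (Finset.mem_coe.mpr (Finset.mem_erase.mpr ⟨hxa, hx⟩))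
                (Finset.mem_coe.mpr (Finset.mem_erase.mpr ⟨hya, hy⟩)) hxy
        · intro x hx y hy hxy
          by_cases hxa : x = a
          · subst hxa
            rw [Function.update_self, Function.update_of_ne hxy.ne']
            exact hvadj y hy hxy
          · by_cases hya : y = a
            · subst hya
              rw [Function.update_self, Function.update_of_ne hxa]
              exact (hvadj x hx hxy.symm).symm
            · rw [Function.update_of_ne hxa, Function.update_of_ne hya]
              exact hfe x (Finset.mem_erase.mpr ⟨hxa, hx⟩) y (Finset.mem_erase.mpr ⟨hya, hy⟩) hxy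
  obtain ⟨f, hfD, hfi, hfe⟩ := key (univ.filter (fun x => x ∈ X)) (by intro x hx; simpa using hx)
  have hm : ∀ u, u ∈ X → u ∈ univ.filter (fun x => x ∈ X) := fun u hu => by simpa using hu
  refine ⟨f, ?_, fun u hu v hv huv => hfe u (hm u hu) v (hm v hv) huv, fun u hu => ?_⟩
  · intro x hx y hy hxy
    exact hfi (Finset.mem_coe.mpr (hm x hx)) (Finset.mem_coe.mpr (hm y hy)) hxy
  · have h2 := hD (f u) (hfD u (hm u hu))
    have h3 : (D.filter (fun y => Γ.Adj (f u) y)).Nonempty := by
      rw [← Finset.card_pos]; omega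
    obtain ⟨y, hy⟩ := h3
    exact ⟨y, (Finset.mem_filter.mp hy).2⟩

theorem forestOn_of_deg1 {W : Type} (H : SimpleGraph W) (X : Set W) (h : Deg1On H X) :
    ForestOn H X := by
  intro A hA hAX
  rw [h58_pairs]
  have hle : ∀ a ∈ A, (A.filter (fun b => H.Adj a b)).card ≤ 1 := by
    intro a ha
    rw [Finset.card_le_one]
    intro b hb b' hb'
    obtain ⟨hbA, hab⟩ := Finset.mem_filter.mp hb
    obtain ⟨hbA', hab'⟩ := Finset.mem_filter.mp hb'
    exact h a (hAX ha) b (hAX hbA) b' (hAX hbA') hab hab'
  rcases Nat.lt_or_ge A.card 2 with hc | hc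
  · have h1 : A.card = 1 := by
      have := hA.card_pos
      omega
    obtain ⟨a, rfl⟩ := Finset.card_eq_one.mp h1
    simp
  · have : ∑ a ∈ A, (A.filter (fun b => H.Adj a b)).card ≤ ∑ a ∈ A, 1 := Finset.sum_le_sum hle
    rw [Finset.sum_const, smul_eq_mul, mul_one] at this
    omega

theorem forestOn_of_acyclic {W : Type} [Fintype W] (H : SimpleGraph W) (X : Set W)
    (h : (H.induce X).IsAcyclic) : ForestOn H X := by
  intro A hA hAX
  -- the graph induced on `A`
  let G : SimpleGraph {x // x ∈ A} := H.comap (fun x => x.1)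
  have hG : G.IsAcyclic := by
    let F : G →g (H.induce X) := ⟨fun x => ⟨x.1, hAX x.2⟩, fun {a b} hab => hab⟩
    refine SimpleGraph.IsAcyclic.comap F ?_ h
    intro x y hxy
    have : x.1 = y.1 := congrArg (fun z : X => z.1) hxy
    exact Subtype.ext this
  have hne : Nonempty {x // x ∈ A} := by
    obtain ⟨a, ha⟩ := hA
    exact ⟨⟨a, ha⟩⟩
  have htop : (⊤ : SimpleGraph {x // x ∈ A}).Connected := SimpleGraph.connected_top
  obtain ⟨T, hT1, -, hT3⟩ := htop.exists_isTree_le_of_le_of_isAcyclic (H := G) le_top hG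
  have hE : G.edgeFinset.card ≤ T.edgeFinset.card :=
    Finset.card_le_card (SimpleGraph.edgeFinset_subset_edgeFinset.mpr hT1)
  have hT4 := hT3.card_edgeFinset
  rw [Fintype.card_coe] at hT4
  have hsum := G.sum_degrees_eq_twice_card_edges
  have hdeg : ∑ a ∈ A, (A.filter (fun b => H.Adj a b)).card = ∑ x : {x // x ∈ A}, G.degree x := by
    rw [← Finset.sum_coe_sort A]
    refine Finset.sum_congr rfl fun a _ => ?_
    rw [← SimpleGraph.card_neighborFinset_eq_degree]
    refine (Finset.card_bij (fun (b : {x // x ∈ A}) _ => b.1) ?_ ?_ ?_).symm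
    · intro b hb
      rw [SimpleGraph.mem_neighborFinset] at hb
      exact Finset.mem_filter.mpr ⟨b.2, hb⟩
    · intro b _ c _ hbc
      exact Subtype.ext hbc
    · intro b hb
      obtain ⟨hbA, hab⟩ := Finset.mem_filter.mp hb
      exact ⟨⟨b, hbA⟩, by rw [SimpleGraph.mem_neighborFinset]; exact hab, rfl⟩
  rw [h58_pairs, hdeg, hsum]
  omega

/-- Two-forest partitions pass to subgraphs. -/
theorem tf_of_sub {W W' : Type} (H : SimpleGraph W) (H' : SimpleGraph W') (hs : Sub H' H)
    (h : TF H) : TF H' := by
  obtain ⟨f, hf, hadj⟩ := hs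
  obtain ⟨X, h1, h2⟩ := h
  have key : ∀ Y : Set W, ForestOn H Y → ForestOn H' (f ⁻¹' Y) := by
    intro Y hY A hA hAY
    have hB : ((A.map ⟨f, hf⟩ : Finset W) : Set W) ⊆ Y := by
      intro y hy
      rw [Finset.mem_coe, Finset.mem_map] at hy
      obtain ⟨x, hx, rfl⟩ := hy
      exact hAY hx
    have h3 := hY (A.map ⟨f, hf⟩) (hA.map) hB
    rw [Finset.card_map] at h3
    have h4 : ((A ×ˢ A).filter (fun p => H'.Adj p.1 p.2)).card ≤
        ((A.map ⟨f, hf⟩ ×ˢ A.map ⟨f, hf⟩).filter (fun p => H.Adj p.1 p.2)).card := by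
      refine Finset.card_le_card_of_injOn (fun p => (f p.1, f p.2)) ?_ ?_
      · intro p hp
        rw [Finset.mem_coe, Finset.mem_filter, Finset.mem_product] at hp
        obtain ⟨⟨hp1, hp2⟩, hp3⟩ := hp
        rw [Finset.mem_coe, Finset.mem_filter, Finset.mem_product]
        exact ⟨⟨Finset.mem_map_of_mem ⟨f, hf⟩ hp1, Finset.mem_map_of_mem ⟨f, hf⟩ hp2⟩,
          hadj _ _ hp3⟩
      · rintro ⟨a, b⟩ _ ⟨c, d⟩ _ he
        simp only [Prod.mk.injEq] at he
        rw [hf he.1, hf he.2]
    omega
  exact ⟨f ⁻¹' X, key X h1, by rw [← Set.preimage_compl]; exact key Xᶜ h2⟩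

end Pool.Agent.H65.RI
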