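import Pool.Agent.H65.RI.SysL

set_option autoImplicit false

/-!
Module PRIV: the intended colouring of the pendant construction.
-/

namespace Pool.Agent.H65.RI

open Finset Classical

/-- A function on the vertices of a connected graph which is constant along edges is constant. -/
theorem h36_const {W α : Type} (B : SimpleGraph W) (hconn : B.Connected) (s : W → α)
    (hs : ∀ u v, B.Adj u v → s u = s v) (u v : W) : s u = s v := by
  obtain ⟨p⟩ := hconn.preconnected u v
  induction p with
  | nil => rfl
  | cons h _ ih => exact (hs _ _ h).trans ih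

theorem priv_join {W VZ VU : Type} (B : SimpleGraph W) (hconn : B.Connected)
    (GZ : SimpleGraph VZ) (GU : SimpleGraph VU) (q : ℕ) (cZ : VZ → VZ → ℕ) (cU : VU → VU → ℕ)
    (MM : Prop) (hcZ : Sm cZ) (hcZb : ∀ a b, GZ.Adj a b → cZ a b ≤ q)
    (hZf : ∀ j, j < q → ∀ f : W → VZ, ¬ Mono GZ B cZ j f)
    (hZM : ∀ x y, GZ.Adj x y → cZ x y = q → MM)
    (hZ1 : ∀ x y y', GZ.Adj x y → cZ x y = q → GZ.Adj x y' → cZ x y' = q → y = y')
    (hcU : PrivC GU q B cU)
    (hB : ¬ ∃ S : Set W, Deg1On B S ∧ (MM ∨ IndepOn B S) ∧ IndepOn B Sᶜ) :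
    Priv (jn GZ GU) (q + 1) B := by
  obtain ⟨hU1, hU2, hU3⟩ := hcU
  -- `B` has an edge
  have hedge : ∃ u v, B.Adj u v := by
    by_contra hno
    push Not at hno
    exact hB ⟨∅, fun u hu => absurd hu (Set.notMem_empty u),
      Or.inr fun u hu => absurd hu (Set.notMem_empty u), fun u _ v _ => hno u v⟩
  let c : VZ ⊕ VU → VZ ⊕ VU → ℕ := fun x y => match x, y with
    | Sum.inl a, Sum.inl b => cZ a b
    | Sum.inr a, Sum.inr b => cU a b
    | _, _ => q
  refine ⟨c, ?_, ?_, ?_⟩
  · rintro (a | a) (b | b)
    · exact hcZ a b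
    · rfl
    · rfl
    · exact hU1 a b
  · rintro (a | a) (b | b) h
    · exact Nat.lt_succ_of_le (hcZb a b h)
    · exact Nat.lt_succ_self q
    · exact Nat.lt_succ_self q
    · exact Nat.lt_succ_of_lt (hU2 a b h)
  · rintro j f ⟨hfi, hf⟩ w y hwy hcwy
    rcases lt_trichotomy j q with hj | hj | hj
    · -- all vertices on the same side
      have hside : ∀ u v, (f u).isLeft = (f v).isLeft := by
        refine h36_const B hconn (fun u => (f u).isLeft) ?_
        intro u v huv
        obtain ⟨h1, h2⟩ := hf u v huv
        cases hu : f u with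
        | inl a =>
          cases hv : f v with
          | inl b => simp
          | inr b =>
            rw [hu, hv] at h2
            exact absurd h2 (by show q ≠ j; omega)
        | inr a =>
          cases hv : f v with
          | inl b =>
            rw [hu, hv] at h2
            exact absurd h2 (by show q ≠ j; omega)
          | inr b => simp
      cases hw : f w with
      | inl a0 =>
        exfalso
        have hall : ∀ u, ∃ a, f u = Sum.inl a := by
          intro u
          have := hside u w
          rw [hw] at this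
          cases hu : f u with
          | inl a => exact ⟨a, rfl⟩
          | inr a => rw [hu] at this; simp at this
        choose g hg using hall
        refine hZf j hj g ⟨?_, ?_⟩
        · intro u v huv
          apply hfi
          rw [hg u, hg v, huv]
        · intro u v huv
          obtain ⟨h1, h2⟩ := hf u v huv
          rw [hg u, hg v] at h1 h2
          exact ⟨h1, h2⟩
      | inr a0 =>
        have hall : ∀ u, ∃ a, f u = Sum.inr a := by
          intro u
          have := hside u w
          rw [hw] at this
          cases hu : f u with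
          | inl a => rw [hu] at this; simp at this
          | inr a => exact ⟨a, rfl⟩
        choose g hg using hall
        have hmono : Mono GU B cU j g := by
          refine ⟨?_, ?_⟩
          · intro u v huv
            apply hfi
            rw [hg u, hg v, huv]
          · intro u v huv
            obtain ⟨h1, h2⟩ := hf u v huv
            rw [hg u, hg v] at h1 h2
            exact ⟨h1, h2⟩
        cases y with
        | inl y' =>
          rw [hg w] at hcwy
          exact absurd hcwy (by show q ≠ j; omega)
        | inr y' =>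
          rw [hg w] at hwy hcwy
          obtain ⟨w', hw'⟩ := hU3 j g hmono w y' hwy hcwy
          exact ⟨w', by rw [hg w', hw']⟩
    · -- the join colour
      subst hj
      exfalso
      refine hB ⟨{u | ∃ a, f u = Sum.inl a}, ?_, ?_, ?_⟩
      · rintro u ⟨a, ha⟩ v ⟨b, hb⟩ v' ⟨b', hb'⟩ huv huv'
        obtain ⟨h1, h2⟩ := hf u v huv
        obtain ⟨h1', h2'⟩ := hf u v' huv'
        rw [ha, hb] at h1 h2
        rw [ha, hb'] at h1' h2'
        have := hZ1 a b b' h1 h2 h1' h2'
        apply hfi
        rw [hb, hb', this]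
      · by_cases hI : IndepOn B {u | ∃ a, f u = Sum.inl a}
        · exact Or.inr hI
        · left
          unfold IndepOn at hI
          push Not at hI
          obtain ⟨u, ⟨a, ha⟩, v, ⟨b, hb⟩, huv⟩ := hI
          obtain ⟨h1, h2⟩ := hf u v huv
          rw [ha, hb] at h1 h2
          exact hZM a b h1 h2
      · intro u hu v hv huv
        obtain ⟨h1, h2⟩ := hf u v huv
        cases hfu : f u with
        | inl a => exact hu ⟨a, hfu⟩
        | inr a =>
          cases hfv : f v with
          | inl b => exact hv ⟨b, hfv⟩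
          | inr b =>
            rw [hfu, hfv] at h1 h2
            have h3 := hU2 a b h1
            have h4 : cU a b = j := h2
            omega
    · exfalso
      obtain ⟨u, v, huv⟩ := hedge
      obtain ⟨h1, h2⟩ := hf u v huv
      cases hfu : f u with
      | inl a =>
        cases hfv : f v with
        | inl b =>
          rw [hfu, hfv] at h1 h2
          have h3 := hcZb a b h1
          have h4 : cZ a b = j := h2
          omega
        | inr b =>
          rw [hfu, hfv] at h2
          have h4 : q = j := h2
          omega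
      | inr a =>
        cases hfv : f v with
        | inl b =>
          rw [hfu, hfv] at h2
          have h4 : q = j := h2
          omega
        | inr b =>
          rw [hfu, hfv] at h1 h2
          have h3 := hU2 a b h1
          have h4 : cU a b = j := h2
          omega

theorem priv_ds {W V₁ V₂ : Type} (B : SimpleGraph W) (hconn : B.Connected)
    (G₁ : SimpleGraph V₁) (G₂ : SimpleGraph V₂) (q : ℕ) (h1 : Good G₁ q B B)
    (h2 : Priv G₂ q B) : Priv (ds G₁ G₂) q B := by
  obtain ⟨c₁, hs1, hb1, h10, h1j⟩ := h1
  obtain ⟨c₂, hs2, hb2, hp2⟩ := h2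
  let c : V₁ ⊕ V₂ → V₁ ⊕ V₂ → ℕ := fun x y => match x, y with
    | Sum.inl a, Sum.inl b => c₁ a b
    | Sum.inr a, Sum.inr b => c₂ a b
    | _, _ => 0
  refine ⟨c, ?_, ?_, ?_⟩
  · rintro (a | a) (b | b)
    · exact hs1 a b
    · rfl
    · rfl
    · exact hs2 a b
  · rintro (a | a) (b | b) h
    · exact hb1 a b h
    · exact absurd h (fun h => h)
    · exact absurd h (fun h => h)
    · exact hb2 a b h
  · rintro j f ⟨hfi, hf⟩ w y hwy hcwy
    have hside : ∀ u v, (f u).isLeft = (f v).isLeft := by
      refine h36_const B hconn (fun u => (f u).isLeft) ?_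
      intro u v huv
      obtain ⟨h1, h2⟩ := hf u v huv
      cases hu : f u with
      | inl a =>
        cases hv : f v with
        | inl b => simp
        | inr b =>
          rw [hu, hv] at h1
          exact absurd h1 (fun h => h)
      | inr a =>
        cases hv : f v with
        | inl b =>
          rw [hu, hv] at h1
          exact absurd h1 (fun h => h)
        | inr b => simp
    cases hw : f w with
    | inl a0 =>
      exfalso
      have hall : ∀ u, ∃ a, f u = Sum.inl a := by
        intro u
        have := hside u w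
        rw [hw] at this
        cases hu : f u with
        | inl a => exact ⟨a, rfl⟩
        | inr a => rw [hu] at this; simp at this
      choose g hg using hall
      have hmono : Mono G₁ B c₁ j g := by
        refine ⟨?_, ?_⟩
        · intro u v huv
          apply hfi
          rw [hg u, hg v, huv]
        · intro u v huv
          obtain ⟨h1, h2⟩ := hf u v huv
          rw [hg u, hg v] at h1 h2
          exact ⟨h1, h2⟩
      have hjq : j < q := by
        cases y with
        | inl y' =>
          rw [hg w] at hwy hcwy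
          have h3 := hb1 _ _ hwy
          have h4 : c₁ (g w) y' = j := hcwy
          omega
        | inr y' =>
          rw [hg w] at hwy
          exact absurd hwy (fun h => h)
      rcases Nat.eq_zero_or_pos j with h0 | h0
      · rw [h0] at hmono
        exact h10 g hmono
      · exact h1j j h0 hjq g hmono
    | inr a0 =>
      have hall : ∀ u, ∃ a, f u = Sum.inr a := by
        intro u
        have := hside u w
        rw [hw] at this
        cases hu : f u with
        | inl a => rw [hu] at this; simp at this
        | inr a => exact ⟨a, rfl⟩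
      choose g hg using hall
      have hmono : Mono G₂ B c₂ j g := by
        refine ⟨?_, ?_⟩
        · intro u v huv
          apply hfi
          rw [hg u, hg v, huv]
        · intro u v huv
          obtain ⟨h1, h2⟩ := hf u v huv
          rw [hg u, hg v] at h1 h2
          exact ⟨h1, h2⟩
      cases y with
      | inl y' =>
        rw [hg w] at hwy
        exact absurd hwy (fun h => h)
      | inr y' =>
        rw [hg w] at hwy hcwy
        obtain ⟨w', hw'⟩ := hp2 j g hmono w y' hwy hcwy
        exact ⟨w', by rw [hg w', hw']⟩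

theorem priv_cps {W V : Type} (B : SimpleGraph W) (hconn : B.Connected) (G : SimpleGraph V)
    (q N : ℕ) (h : Priv G q B) : Priv (cps N G) q B := by
  obtain ⟨c, hs, hb, hp⟩ := h
  refine ⟨fun x y => c x.2 y.2, fun x y => hs x.2 y.2, fun x y hxy => hb _ _ hxy.2, ?_⟩
  rintro j f ⟨hfi, hf⟩ w y hwy hcwy
  have hfst : ∀ u v, (f u).1 = (f v).1 :=
    h36_const B hconn (fun u => (f u).1) (fun u v huv => (hf u v huv).1.1)
  have hmono : Mono G B c j (fun u => (f u).2) := by
    refine ⟨?_, fun u v huv => ⟨(hf u v huv).1.2, (hf u v huv).2⟩⟩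
    intro u v huv
    exact hfi (Prod.ext (hfst u v) huv)
  obtain ⟨w', hw'⟩ := hp j _ hmono w y.2 hwy.2 hcwy
  exact ⟨w', Prod.ext ((hfst w' w).trans hwy.1) hw'⟩

theorem sys_cZ {W : Type} [Fintype W] (B : SimpleGraph W) (n0 : NoSep B)
    (c0 : 2 ≤ Fintype.card W) {ι : Type} {nA nB m R : ℕ} (E : ι → Fin nA → Fin m × Fin nB)
    (hS : Sparse E R) (hR : (Fintype.card W) ^ 2 ≤ R) (hA : 2 ≤ nA) (hB : 1 ≤ nB)
    (A : SimpleGraph (Fin nA)) (q : ℕ) (hgA : Good A q B B) (Y : SimpleGraph (Fin nB))
    (cY : Fin nB → Fin nB → ℕ) (hcY : Sm cY) (hYb : ∀ a b, Y.Adj a b → cY a b ≤ q)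
    (hYf : ∀ j, j < q → ∀ f : W → Fin nB, ¬ Mono Y B cY j f)
    (hYq : ∀ a b b', Y.Adj a b → cY a b = q → Y.Adj a b' → cY a b' = q → b = b') :
    ∃ cZ : (Fin m × Fin nB) → (Fin m × Fin nB) → ℕ, Sm cZ ∧
      (∀ a b, (Sys E A Y).Adj a b → cZ a b ≤ q) ∧
      (∀ j, j < q → ∀ f : W → Fin m × Fin nB, ¬ Mono (Sys E A Y) B cZ j f) ∧
      (∀ x y, (Sys E A Y).Adj x y → cZ x y = q → ∃ a b, Y.Adj a b ∧ cY a b = q) ∧
      (∀ x y y', (Sys E A Y).Adj x y → cZ x y = q → (Sys E A Y).Adj x y' → cZ x y' = q →
        y = y') := by
  obtain ⟨cA, hAs, hAb, hA0, hAj⟩ := hgA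
  have hR2 : 2 ≤ R := by nlinarith
  obtain ⟨cZ, hZs, hZA, hZY⟩ := sys_col hS hR2 hA hB A Y cA cY hAs hcY
  -- an edge of colour q comes from a block
  have key : ∀ x y, (Sys E A Y).Adj x y → cZ x y = q →
      ∃ l a b, Y.Adj a b ∧ (l, a) = x ∧ (l, b) = y ∧ cY a b = q := by
    rintro x y ⟨_, ⟨j, a, b, hab, h1, h2⟩ | ⟨l, a, b, hab, h1, h2⟩⟩ hq
    · exfalso
      have h3 := hZA j a b hab
      rw [h1, h2, hq] at h3
      have h4 := hAb a b hab
      omega
    · refine ⟨l, a, b, hab, h1, h2, ?_⟩
      have h3 := hZY l a b hab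
      rw [h1, h2, hq] at h3
      exact h3.symm
  refine ⟨cZ, hZs, ?_, ?_, ?_, ?_⟩
  · rintro x y ⟨_, ⟨j, a, b, hab, h1, h2⟩ | ⟨l, a, b, hab, h1, h2⟩⟩
    · rw [← h1, ← h2, hZA j a b hab]
      exact (hAb a b hab).le
    · rw [← h1, ← h2, hZY l a b hab]
      exact hYb a b hab
  · rintro j hj f ⟨hfi, hf⟩
    rcases sys_local B n0 c0 hS hR hA hB A Y f hfi (fun u v huv => (hf u v huv).1) with
      ⟨l, g, hgi, hg, hga⟩ | ⟨l, g, hgi, hg, hga⟩
    · have hmono : Mono A B cA j g := by
        refine ⟨hgi, fun u v huv => ⟨hga u v huv, ?_⟩⟩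
        have h3 := hZA l (g u) (g v) (hga u v huv)
        rw [hg u, hg v, (hf u v huv).2] at h3
        exact h3.symm
      rcases Nat.eq_zero_or_pos j with h0 | h0
      · rw [h0] at hmono
        exact hA0 g hmono
      · exact hAj j h0 hj g hmono
    · have hmono : Mono Y B cY j g := by
        refine ⟨hgi, fun u v huv => ⟨hga u v huv, ?_⟩⟩
        have h3 := hZY l (g u) (g v) (hga u v huv)
        rw [hg u, hg v, (hf u v huv).2] at h3
        exact h3.symm
      exact hYf j hj g hmono
  · intro x y hxy hq
    obtain ⟨l, a, b, hab, _, _, h⟩ := key x y hxy hq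
    exact ⟨a, b, hab, h⟩
  · intro x y y' hxy hq hxy' hq'
    obtain ⟨l, a, b, hab, h1, h2, h⟩ := key x y hxy hq
    obtain ⟨l', a', b', hab', h1', h2', h'⟩ := key x y' hxy' hq'
    rw [← h1] at h1'
    obtain ⟨rfl, rfl⟩ := Prod.mk.inj h1'
    rw [← h2, ← h2', hYq a' b b' hab h hab' h']

end Pool.Agent.H65.RI
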