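import Pool.Agent.H65.RI.Ind
import Pool.Agent.H65.RI.PrivL
import Pool.Agent.H65.RI.Adv
import Pool.Agent.H65.RI.Blk

set_option autoImplicit false

/-!
Final module: isolation of 2-connected 3-chromatic graphs with a (1,1)-improper colouring, for
every number of colours.
-/

namespace Pool.Agent.H65.RI

open Finset Classical

/-- `G → (H)_q`, in the form of the frozen statement. -/
def Arr {V W : Type} (G : SimpleGraph V) (H : SimpleGraph W) (q : ℕ) : Prop :=
  ∀ c : V → V → Fin q, (∀ a b : V, c a b = c b a) →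
    ∃ f : W → V, Function.Injective f ∧ (∀ u v : W, H.Adj u v → G.Adj (f u) (f v)) ∧
      ∃ i : Fin q, ∀ u v : W, H.Adj u v → c (f u) (f v) = i

/-- `q`-equivalence. -/
def QEq {W W' : Type} (q : ℕ) (H : SimpleGraph W) (H' : SimpleGraph W') : Prop :=
  ∀ (n : ℕ) (G : SimpleGraph (Fin n)), Arr G H q ↔ Arr G H' q

theorem arr_of_nb {V W : Type} (G : SimpleGraph V) (H : SimpleGraph W) (q : ℕ)
    (h : NB G q H 1) : Arr G H q := by
  intro c hc
  rcases h (fun a b => (c a b : ℕ)) (fun a b => by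
    show (c a b : ℕ) = (c b a : ℕ)
    rw [hc]) (fun a b _ => (c a b).2.le) with ⟨i, hi, f, hf1, hf2⟩ | ⟨g, hg1, hg2⟩
  · exact ⟨f, hf1, fun u v huv => (hf2 u v huv).1, ⟨i, hi⟩, fun u v huv =>
      Fin.ext (hf2 u v huv).2⟩
  · have h1 := (hg2 0 0).2
    have h2 := (c (g (Sum.inl 0)) (g (Sum.inr 0))).2
    simp only at h1
    omega

theorem arr_comap {V V' W : Type} (G : SimpleGraph V) (σ : V' ≃ V) (H : SimpleGraph W) (q : ℕ) :
    Arr (G.comap σ) H q ↔ Arr G H q := by
  constructor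
  · intro h c hc
    obtain ⟨f, hf1, hf2, i, hi⟩ := h (fun a b => c (σ a) (σ b)) (fun a b => hc _ _)
    exact ⟨fun w => σ (f w), σ.injective.comp hf1, hf2, i, hi⟩
  · intro h c hc
    obtain ⟨f, hf1, hf2, i, hi⟩ := h (fun a b => c (σ.symm a) (σ.symm b)) (fun a b => hc _ _)
    exact ⟨fun w => σ.symm (f w), σ.symm.injective.comp hf1, fun u v huv => by
      simpa using hf2 u v huv, i, hi⟩

theorem QEq.arr {W W' V : Type} [Fintype V] {q : ℕ} {H : SimpleGraph W} {H' : SimpleGraph W'}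
    (h : QEq q H H') (G : SimpleGraph V) : Arr G H q ↔ Arr G H' q := by
  rw [← arr_comap G (Fintype.equivFin V).symm H q, ← arr_comap G (Fintype.equivFin V).symm H' q]
  exact h _ _

theorem arr_mono {V W : Type} (G : SimpleGraph V) (H : SimpleGraph W) (q : ℕ) (hq : 1 ≤ q)
    (h : Arr G H q) (c : V → V → ℕ) (hc : Sm c) (hb : ∀ a b, G.Adj a b → c a b < q) :
    ∃ i, i < q ∧ ∃ f : W → V, Mono G H c i f := by
  obtain ⟨f, hf1, hf2, i, hi⟩ := h (fun a b => if hab : G.Adj a b then ⟨c a b, hb a b hab⟩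
    else ⟨0, hq⟩) (fun a b => by
      by_cases hab : G.Adj a b
      · have hba := hab.symm
        simp only [hab, hba, dif_pos]
        exact Fin.ext (hc a b)
      · have hba : ¬ G.Adj b a := fun h => hab h.symm
        simp only [hab, hba]
        rfl)
  refine ⟨i, i.2, f, hf1, fun u v huv => ⟨hf2 u v huv, ?_⟩⟩
  have := hi u v huv
  simp only [hf2 u v huv, dif_pos] at this
  exact congrArg Fin.val this

theorem priv_comap {V V' W : Type} (G : SimpleGraph V) (σ : V' ≃ V) (m : ℕ)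
    (B : SimpleGraph W) (h : Priv G m B) : Priv (G.comap σ) m B := by
  obtain ⟨c, hc, hb, h0⟩ := h
  refine ⟨fun a b => c (σ a) (σ b), fun a b => hc _ _, fun a b hab => hb _ _ hab, ?_⟩
  rintro j f ⟨hf1, hf2⟩ w y hwy hcwy
  obtain ⟨x, hx⟩ := h0 j (fun w => σ (f w)) ⟨σ.injective.comp hf1, fun u v huv => hf2 u v huv⟩
    w (σ y) hwy hcwy
  exact ⟨x, σ.injective hx⟩

theorem br_le {t τ : ℕ} (h : BR t τ) : t ≤ τ := by
  rcases h (fun _ _ => True) with ⟨x, y, hx, -, -⟩ | ⟨x, y, hx, -, -⟩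
  · simpa using Fintype.card_le_of_injective x hx
  · simpa using Fintype.card_le_of_injective x hx

theorem nb_self {W : Type} (H : SimpleGraph W) : NB H 1 H 1 := by
  intro c hc hb
  by_cases h : ∃ a b, H.Adj a b ∧ c a b = 1
  · right
    obtain ⟨a, b, hab, hcab⟩ := h
    refine ⟨Sum.elim (fun _ => a) (fun _ => b), ?_, fun x y => ⟨hab, hcab⟩⟩
    rintro (x | x) (y | y) hxy
    · rw [Subsingleton.elim x y]
    · exact absurd hxy hab.ne
    · exact absurd hxy.symm hab.ne
    · rw [Subsingleton.elim x y]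
  · left
    push Not at h
    refine ⟨0, by omega, id, Function.injective_id, ?_⟩
    intro u v huv
    refine ⟨huv, ?_⟩
    have h1 := hb u v huv
    have h2 := h u v huv
    show c u v = 0
    omega

theorem pend_all {W : Type} [Fintype W] (B : SimpleGraph W) (hconn : B.Connected)
    (n0 : NoSep B) (c0 : 3 ≤ Fintype.card W) (nb : ¬ B.Colorable 2) (h3 : B.Colorable 3)
    (hS : ∃ S : Set W, Deg1On B S ∧ Deg1On B Sᶜ) (q : ℕ) (hq : 1 ≤ q) :
    ∃ (V' : Type) (_ : Fintype V') (G' : SimpleGraph V'), NB G' q B 1 ∧ Priv G' q B := by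
  have hBe := noSep_edge B n0 (by omega)
  have hTF : TF B := by
    obtain ⟨S, hS1, hS2⟩ := hS
    exact ⟨S, forestOn_of_deg1 B S hS1, forestOn_of_deg1 B Sᶜ hS2⟩
  induction q, hq using Nat.le_induction with
  | base =>
    refine ⟨W, inferInstance, B, nb_self B, fun _ _ => 0, fun _ _ => rfl,
      fun _ _ _ => Nat.zero_lt_one, ?_⟩
    rintro j f ⟨hf1, -⟩ w y - -
    exact (Finite.injective_iff_surjective.mp hf1) y
  | succ q hq ih =>
    obtain ⟨VG, _, G₀, hG₀, hP₀⟩ := ih
    obtain ⟨τ, hτ1, hτ⟩ := bipRam (Fintype.card W)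
    obtain ⟨VA, _, A₀, hA₀, hgA₀⟩ := richZ B hTF hBe n0 (by omega) nb q τ hq hτ1
    set nB := Fintype.card VG with hnB
    set nA := Fintype.card VA with hnA
    have hG := nb_comap G₀ (Fintype.equivFin VG).symm q 1 B hG₀
    have hP := priv_comap G₀ (Fintype.equivFin VG).symm q B hP₀
    set G := G₀.comap (Fintype.equivFin VG).symm with hGdef
    have hA := nb_comap A₀ (Fintype.equivFin VA).symm (q - 1) τ B hA₀
    have hgA := good_comap A₀ (Fintype.equivFin VA).symm q B B hgA₀
    set A := A₀.comap (Fintype.equivFin VA).symm with hAdef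
    have hBpos : 1 ≤ nB := by
      obtain ⟨a, b, hab⟩ := nb_edge G₀ q 1 B hBe le_rfl hG₀
      exact Fintype.card_pos_iff.mpr ⟨a⟩
    have hAcard : Fintype.card W ≤ nA ∧ 2 ≤ nA := by
      have h1 : MonoK A τ (fun _ _ => q - 1) (q - 1) := by
        rcases hA (fun _ _ => q - 1) (fun _ _ => rfl) (fun _ _ _ => le_rfl) with
          ⟨i, hi, f, hf1, hf2⟩ | h
        · obtain ⟨u, v, huv⟩ := hBe
          have h1 := (hf2 u v huv).2
          simp only at h1
          omega
        · exact h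
      obtain ⟨g, hg, -⟩ := h1
      have h2 := Fintype.card_le_of_injective g hg
      simp only [Fintype.card_sum, Fintype.card_fin] at h2
      have h3 := br_le hτ
      omega
    -- the family on the left
    obtain ⟨m, ι, _, E, hm, hSp, hD⟩ := hyp nA nB ((Fintype.card W) ^ 2 + 2)
      (4 * nB * ((q + 1) ^ nB + (q + 1))) (4 * (q + 1) * (Fintype.card W + 1)) hAcard.2 hBpos
      (Nat.succ_le_of_lt (by positivity))
    -- the family on the right
    obtain ⟨m', ι', _, E', hm', hSp', hD'⟩ := hyp nA 1 ((Fintype.card W) ^ 2 + 2)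
      ((q + 1) ^ (m * nB)) 1 hAcard.2 le_rfl le_rfl
    have hGr : Good (Sys E' A ⊥) q B B := by
      obtain ⟨cZ, z1, z2, z3, z4, -⟩ := sys_cZ B n0 (by omega) E' hSp' (by omega) hAcard.2 le_rfl A
        q hgA ⊥ (fun _ _ => 0) (fun _ _ => rfl) (fun a b hab => absurd hab (by simp))
        (fun j _ f hf => by
          obtain ⟨u, v, huv⟩ := hBe
          exact absurd (hf.2 u v huv).1 (by simp))
        (fun a b b' hab => absurd hab (by simp))
      refine ⟨cZ, z1, ?_, z3 0 (by omega), fun j _ hj => z3 j hj⟩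
      intro a b hab
      have h1 := z2 a b hab
      have h2 : cZ a b ≠ q := by
        intro h
        obtain ⟨a', b', h', -⟩ := z4 a b hab h
        exact absurd h' (by simp)
      omega
    have hr : ∀ φ : Fin m' × Fin 1 → Fin ((q + 1) ^ (m * nB)), ∃ e : Fin nA → Fin m' × Fin 1,
        Function.Injective e ∧ (∀ a b, A.Adj a b → (Sys E' A ⊥).Adj (e a) (e b)) ∧
        ∀ a b, φ (e a) = φ (e b) := by
      intro φ
      obtain ⟨j, hj⟩ := dense_mono hD' hm' le_rfl φ
      exact ⟨E' j, sparse_inj hSp' (by omega) (by omega) j,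
        fun a b hab => sys_adjA hSp' (by omega) (by omega) A ⊥ j hab, hj⟩
    -- privacy on the right
    have hU : ∀ N, Priv (ds (Sys E' A ⊥) (cps N G)) q B := fun N =>
      priv_ds B hconn _ _ q hGr (priv_cps B hconn G q N hP)
    by_cases hI : ∃ S : Set W, Deg1On B S ∧ IndepOn B Sᶜ
    · -- no edge of the last colour on the left
      obtain ⟨S, hS1, hS2⟩ := hI
      have hS2' : Deg1On B Sᶜ := fun u hu v hv v' hv' huv => absurd huv (hS2 u hu v hv)
      obtain ⟨N, hN⟩ := pend_nb B hBe h3 S hS1 hS2' q τ hq hτ hAcard.2 hAcard.1 hBpos A hA G hG ⊥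
        (Or.inl hS2) E hSp (by omega) hD rfl hm (Sys E' A ⊥) le_rfl hr
      refine ⟨_, inferInstance, _, hN, ?_⟩
      obtain ⟨cZ, z1, z2, z3, z4, z5⟩ := sys_cZ B n0 (by omega) E hSp (by omega) hAcard.2 hBpos A
        q hgA ⊥ (fun _ _ => 0) (fun _ _ => rfl) (fun a b hab => absurd hab (by simp))
        (fun j _ f hf => by
          obtain ⟨u, v, huv⟩ := hBe
          exact absurd (hf.2 u v huv).1 (by simp))
        (fun a b b' hab => absurd hab (by simp))
      obtain ⟨cU, hcU⟩ := hU N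
      apply priv_join B hconn _ _ q cZ cU False z1 z2 z3 _ z5 hcU
      · rintro ⟨S, -, h1, h2⟩
        have h1' : IndepOn B S := h1.resolve_left (fun h => h)
        apply nb
        refine ⟨SimpleGraph.Coloring.mk (fun w => if w ∈ S then (0 : Fin 2) else 1) ?_⟩
        intro u v huv
        by_cases hu : u ∈ S <;> by_cases hv : v ∈ S
        · exact absurd huv (h1' u hu v hv)
        · simp [hu, hv]
        · simp [hu, hv]
        · exact absurd huv (h2 u hu v hv)
      · intro x y hxy h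
        obtain ⟨a', b', h', -⟩ := z4 x y hxy h
        exact absurd h' (by simp)
    · -- a matching of the last colour on the left
      obtain ⟨S, hS1, hS2⟩ := hS
      obtain ⟨Y, cY, hY, y1, y2, y3, y4⟩ := edge_min B G q hq hBe hG
      obtain ⟨N, hN⟩ := pend_nb B hBe h3 S hS1 hS2 q τ hq hτ hAcard.2 hAcard.1 hBpos A hA G hG Y
        (Or.inr hY) E hSp (by omega) hD rfl hm (Sys E' A ⊥) le_rfl hr
      refine ⟨_, inferInstance, _, hN, ?_⟩
      obtain ⟨cZ, z1, z2, z3, z4, z5⟩ := sys_cZ B n0 (by omega) E hSp (by omega) hAcard.2 hBpos A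
        q hgA Y cY y1 y2 y3 y4
      obtain ⟨cU, hcU⟩ := hU N
      apply priv_join B hconn _ _ q cZ cU True z1 z2 z3 (fun _ _ _ _ => trivial) z5 hcU
      rintro ⟨S', h1, -, h2⟩
      exact hI ⟨S', h1, h2⟩

/-- Bijective endomorphisms of finite graphs reflect adjacency. -/
theorem endo_reflect {W : Type} [Fintype W] (B : SimpleGraph W) (h : W → W)
    (hi : Function.Injective h) (hadj : ∀ u v, B.Adj u v → B.Adj (h u) (h v)) (u v : W)
    (huv : B.Adj (h u) (h v)) : B.Adj u v := by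
  let P : Finset (W × W) := univ.filter (fun p => B.Adj p.1 p.2)
  have h1 : P.image (fun p => (h p.1, h p.2)) = P := by
    apply Finset.eq_of_subset_of_card_le
    · intro p hp
      obtain ⟨p', hp', rfl⟩ := Finset.mem_image.mp hp
      exact Finset.mem_filter.mpr ⟨Finset.mem_univ _, hadj _ _ (Finset.mem_filter.mp hp').2⟩
    · rw [Finset.card_image_of_injective]
      intro p p' hpp
      exact Prod.ext (hi (congrArg Prod.fst hpp)) (hi (congrArg Prod.snd hpp))
  have h2 : (h u, h v) ∈ P.image (fun p => (h p.1, h p.2)) := by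
    rw [h1]
    exact Finset.mem_filter.mpr ⟨Finset.mem_univ _, huv⟩
  obtain ⟨p, hp, hpe⟩ := Finset.mem_image.mp h2
  have e1 : p.1 = u := hi (congrArg Prod.fst hpe)
  have e2 : p.2 = v := hi (congrArg Prod.snd hpe)
  rw [← e1, ← e2]
  exact (Finset.mem_filter.mp hp).2

theorem iso_of_sub {W W' : Type} [Fintype W] [Fintype W'] (B : SimpleGraph W)
    (H : SimpleGraph W') (h1 : Sub B H) (h2 : Sub H B) : Nonempty (B ≃g H) := by
  obtain ⟨f, hf, hf'⟩ := h1
  obtain ⟨g, hg, hg'⟩ := h2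
  have hbij : Function.Bijective f := by
    rw [Fintype.bijective_iff_injective_and_card]
    exact ⟨hf, le_antisymm (Fintype.card_le_of_injective f hf) (Fintype.card_le_of_injective g hg)⟩
  refine ⟨⟨Equiv.ofBijective f hbij, ?_⟩⟩
  intro u v
  constructor
  · intro h
    exact endo_reflect B (fun w => g (f w)) (hg.comp hf) (fun u v huv => hg' _ _ (hf' _ _ huv)) u v
      (hg' _ _ h)
  · intro h
    exact hf' _ _ h

theorem not_bip_of_eq {W W' : Type} [Fintype W] [Fintype W'] (B : SimpleGraph W)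
    (H : SimpleGraph W') (q : ℕ) (hq : 1 ≤ q) (heq : QEq q B H) (nb : ¬ B.Colorable 2) :
    ¬ H.Colorable 2 := by
  intro hH
  obtain ⟨V', _, G', hG', hNB⟩ := knn_arrow H hH q hq
  have h1 := (heq.arr G').mpr (arr_of_nb G' H q hNB)
  obtain ⟨f, -, hf, -⟩ := h1 (fun _ _ => ⟨0, hq⟩) (fun _ _ => rfl)
  apply nb
  obtain ⟨φ⟩ := hG'
  exact ⟨SimpleGraph.Coloring.mk (fun w => φ (f w)) (fun {u v} huv => φ.valid (hf u v huv))⟩

theorem mono_induce {V W : Type} (G : SimpleGraph V) (H : SimpleGraph W) (c : V → V → ℕ) (i : ℕ)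
    (f : W → V) (h : Mono G H c i f) (S : Set W) :
    Mono G (H.induce S) c i (fun w => f w) :=
  ⟨h.1.comp Subtype.val_injective, fun u v huv => h.2 u v huv⟩

theorem mono_sub {V W W' : Type} (G : SimpleGraph V) (H : SimpleGraph W) (B : SimpleGraph W')
    (c : V → V → ℕ) (i : ℕ) (f : W → V) (h : Mono G H c i f) (g : W' → W)
    (hg : Function.Injective g) (hg' : ∀ u v, B.Adj u v → H.Adj (g u) (g v)) :
    Mono G B c i (fun w => f (g w)) :=
  ⟨h.1.comp hg, fun u v huv => h.2 _ _ (hg' u v huv)⟩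

/-- If `H` is `q`-equivalent to `B` and `B` has a two-forest partition, then the parts of `H`
without separation are contained in `B`. -/
theorem block_sub {W W' : Type} [Fintype W] [Fintype W'] (B : SimpleGraph W)
    (H : SimpleGraph W') (q : ℕ) (hq : 1 ≤ q) (heq : QEq q B H) (nb : ¬ B.Colorable 2)
    (hTF : TF B) (hBe : ∃ u v, B.Adj u v) (S : Set W') (hS2 : 2 ≤ Fintype.card S)
    (hS : NoSep (H.induce S)) : Sub (H.induce S) B := by
  by_contra hsub
  have nbH := not_bip_of_eq B H q hq heq nb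
  obtain ⟨S', hS'2, hS', nbS'⟩ := nonbip_block H nbH
  obtain ⟨V', _, G', hNB, c, hc, hb, h0, h1⟩ := thmB B hTF hBe (H.induce S) (H.induce S') hS hS'
    hS2 hS'2 nbS' hsub q hq
  obtain ⟨i, hi, f, hf⟩ := arr_mono G' H q hq ((heq.arr G').mp (arr_of_nb G' B q hNB)) c hc hb
  by_cases hi0 : i = 0
  · subst hi0
    exact h0 _ (mono_induce G' H c 0 f hf S)
  · exact h1 i (by omega) hi _ (mono_induce G' H c i f hf S')

/-- If `H` has a two-forest partition and is `q`-equivalent to `B`, a graph without separation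
that is not bipartite, then `B` is contained in `H`. -/
theorem sub_of_eq {W W' : Type} [Fintype W] [Fintype W'] (B : SimpleGraph W)
    (H : SimpleGraph W') (q : ℕ) (hq : 1 ≤ q) (heq : QEq q B H) (nb : ¬ B.Colorable 2)
    (n0 : NoSep B) (c0 : 2 ≤ Fintype.card W) (hTF : TF H) (hHe : ∃ u v, H.Adj u v) :
    Sub B H := by
  by_contra hsub
  obtain ⟨V', _, G', hNB, c, hc, hb, h0, h1⟩ := thmB H hTF hHe B B n0 n0 c0 c0 nb hsub q hq
  obtain ⟨i, hi, f, hf⟩ := arr_mono G' B q hq ((heq.arr G').mpr (arr_of_nb G' H q hNB)) c hc hb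
  by_cases hi0 : i = 0
  · subst hi0
    exact h0 f hf
  · exact h1 i (by omega) hi f hf

theorem edge_of_not_bip {W : Type} (H : SimpleGraph W) (nb : ¬ H.Colorable 2) :
    ∃ u v, H.Adj u v := by
  by_contra hcon
  push Not at hcon
  exact nb ⟨SimpleGraph.Coloring.mk (fun _ => 0) (fun {u v} huv => absurd huv (hcon u v))⟩

theorem isolation {W W' : Type} [Fintype W] [Fintype W'] (B : SimpleGraph W) (hB : TwoConn B)
    (h3 : B.Colorable 3) (nb : ¬ B.Colorable 2) (hS : ∃ S : Set W, Deg1On B S ∧ Deg1On B Sᶜ)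
    (H : SimpleGraph W') (hH : H.Connected) (q : ℕ) (hq : 1 ≤ q) (heq : QEq q B H) :
    Nonempty (B ≃g H) := by
  have n0 := noSep_of_twoConn B hB
  have c0 := hB.1
  have hBe := edge_of_not_bip B nb
  have hTF : TF B := by
    obtain ⟨S, hS1, hS2⟩ := hS
    exact ⟨S, forestOn_of_deg1 B S hS1, forestOn_of_deg1 B Sᶜ hS2⟩
  have nbH := not_bip_of_eq B H q hq heq nb
  have key := block_sub B H q hq heq nb hTF hBe
  have hTFH : TF H := tf_of_blocks H (fun S hS2 hS => tf_of_sub B (H.induce S) (key S hS2 hS) hTF)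
  obtain ⟨f, hf, hfa⟩ := sub_of_eq B H q hq heq nb n0 (by omega) hTFH (edge_of_not_bip H nbH)
  -- the range of `f` is everything
  by_cases hr : Set.range f = Set.univ
  · -- then `H` is contained in `B`
    have hns := noSep_range B H f hf hfa n0
    have hc : ∀ (inst : Fintype (Set.range f)), 2 ≤ @Fintype.card _ inst := by
      intro inst
      have := Fintype.card_congr (Equiv.ofInjective f hf)
      omega
    obtain ⟨g, hg, hga⟩ := key (Set.range f) (hc _) hns
    apply iso_of_sub B H ⟨f, hf, hfa⟩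
    refine ⟨fun w => g ⟨w, by rw [hr]; trivial⟩, ?_, ?_⟩
    · intro u v huv
      exact congrArg Subtype.val (hg huv)
    · intro u v huv
      exact hga _ _ huv
  · exfalso
    obtain ⟨y, hy⟩ : ∃ y, y ∉ Set.range f := by
      by_contra hcon
      push Not at hcon
      exact hr (Set.eq_univ_of_forall hcon)
    obtain ⟨u0, -, -⟩ := hBe
    obtain ⟨p⟩ := hH.preconnected (f u0) y
    obtain ⟨d, -, hd1, hd2⟩ := p.exists_boundary_dart (Set.range f) ⟨u0, rfl⟩ hy
    obtain ⟨x, hx⟩ := hd1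
    obtain ⟨V', _, G', hNB, c, hc, hb, hpriv⟩ := pend_all B hB.2.1 n0 c0 nb h3 hS q hq
    obtain ⟨i, hi, F, hF⟩ := arr_mono G' H q hq ((heq.arr G').mp (arr_of_nb G' B q hNB)) c hc hb
    have hadj : H.Adj (f x) d.snd := by
      rw [hx]
      exact d.adj
    obtain ⟨x', hx'⟩ := hpriv i (fun w => F (f w)) (mono_sub G' H B c i F hF f hf hfa) x (F d.snd)
      (hF.2 _ _ hadj).1 (hF.2 _ _ hadj).2
    exact hd2 ⟨x', hF.1 hx'⟩

theorem pairs {W W' : Type} [Fintype W] [Fintype W'] (B : SimpleGraph W) (hB : TwoConn B)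
    (nb : ¬ B.Colorable 2) (X : Set W) (hX1 : (B.induce X).IsAcyclic)
    (hX2 : (B.induce Xᶜ).IsAcyclic) (H : SimpleGraph W') (hH : TwoConn H) (q : ℕ) (hq : 1 ≤ q)
    (heq : QEq q B H) : Nonempty (B ≃g H) := by
  have n0 := noSep_of_twoConn B hB
  have n1 := noSep_of_twoConn H hH
  have c0 := hB.1
  have c1 := hH.1
  have hBe := edge_of_not_bip B nb
  have hTF : TF B := ⟨X, forestOn_of_acyclic B X hX1, forestOn_of_acyclic B Xᶜ hX2⟩
  have nbH := not_bip_of_eq B H q hq heq nb
  have heq' : QEq q H B := fun n G => (heq n G).symm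
  have hsub : Sub H B := sub_of_eq H B q hq heq' nbH n1 (by omega) hTF hBe
  have hTFH := tf_of_sub B H hsub hTF
  exact iso_of_sub B H (sub_of_eq B H q hq heq nb n0 (by omega) hTFH (edge_of_not_bip H nbH)) hsub

end Pool.Agent.H65.RI
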