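import Pool.Agent.H65.RI.Defs

set_option autoImplicit false

/-!
Module HYP: existence of sparse families of hyperedges which are dense on every large set.
-/

namespace Pool.Agent.H65.RI

open Finset Classical

/-- The pair `(J, D)` violates sparseness of `E`. -/
def h55_bad {M nA nB m : ℕ} (E : Fin M → Fin nA → Fin m × Fin nB) (J : Finset (Fin M))
    (D : Finset (Fin m)) : Prop :=
  (J.biUnion (fun j => univ.image (E j)) ∪ D ×ˢ univ).card ≤
    J.card * (nA - 1) + D.card * (nB - 1)

/-- Functions with few values outside a given set. -/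
theorem h55_few {T V : Type} [Fintype T] [Fintype V] [DecidableEq T] [DecidableEq V] [Nonempty V]
    (S : Finset V) (t0 : ℕ) :
    (univ.filter (fun g : T → V => ((univ.image g) \ S).card ≤ t0)).card ≤
      (S.card + t0) ^ (Fintype.card T) * (Fintype.card V) ^ t0 := by
  let Φ : (T → S ⊕ Fin t0) × (Fin t0 → V) → (T → V) :=
    fun q t => Sum.elim (fun s => s.1) q.2 (q.1 t)
  have hsub : univ.filter (fun g : T → V => ((univ.image g) \ S).card ≤ t0) ⊆
      univ.image Φ := by
    intro g hg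
    rw [mem_filter] at hg
    have hcard := hg.2
    set F := (univ.image g) \ S with hF
    rw [mem_image]
    let h : Fin t0 → V := fun i =>
      if hi : i.1 < F.card then (F.equivFin.symm ⟨i.1, hi⟩).1 else Classical.arbitrary V
    have hmem : ∀ t, g t ∉ S → g t ∈ F := by
      intro t ht
      rw [hF, mem_sdiff]
      exact ⟨mem_image_of_mem _ (mem_univ _), ht⟩
    let c : T → S ⊕ Fin t0 := fun t =>
      if ht : g t ∈ S then Sum.inl ⟨g t, ht⟩
      else Sum.inr ⟨(F.equivFin ⟨g t, hmem t ht⟩).1, lt_of_lt_of_le (Fin.is_lt _) hcard⟩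
    refine ⟨(c, h), mem_univ _, ?_⟩
    funext t
    by_cases ht : g t ∈ S
    · simp only [Φ, c, dif_pos ht, Sum.elim_inl]
    · simp only [Φ, c, dif_neg ht, Sum.elim_inr, h]
      rw [dif_pos (Fin.is_lt _)]
      simp
  refine (card_le_card hsub).trans (card_image_le.trans ?_)
  rw [card_univ, Fintype.card_prod, Fintype.card_fun, Fintype.card_fun, Fintype.card_sum,
    Fintype.card_coe, Fintype.card_fin]

/-- Number of families for which a given pair is bad. -/
theorem h55_count {M nA nB m R : ℕ} (hA : 2 ≤ nA) (hB : 1 ≤ nB) (hm : 1 ≤ m)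
    (J : Finset (Fin M)) (D : Finset (Fin m)) (h1 : 1 ≤ J.card + D.card)
    (h2 : J.card + D.card ≤ R) :
    (univ.filter (fun E : Fin M → Fin nA → Fin m × Fin nB => h55_bad E J D)).card *
      m ^ (J.card + D.card) ≤ (R * nB + R * nA) ^ (R * nA) * ((m * nB) ^ nA) ^ M := by
  have hne : Nonempty (Fin m × Fin nB) := ⟨(⟨0, hm⟩, ⟨0, hB⟩)⟩
  set a := J.card with ha
  set b := D.card with hb
  have hScard : (D ×ˢ (univ : Finset (Fin nB))).card = b * nB := by
    rw [card_product, card_univ, Fintype.card_fin]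
  have hnB : nB - 1 + 1 = nB := by omega
  have hnA : nA - 1 + 1 = nA := by omega
  have hbn : b * nB = b * (nB - 1) + b := by
    conv_lhs => rw [← hnB]
    ring
  have han : a * nA = a * (nA - 1) + a := by
    conv_lhs => rw [← hnA]
    ring
  by_cases hcase : b ≤ a * (nA - 1)
  swap
  · have hempty : univ.filter (fun E : Fin M → Fin nA → Fin m × Fin nB => h55_bad E J D) = ∅ := by
      rw [filter_eq_empty_iff]
      intro E _ hE
      unfold h55_bad at hE
      rw [← ha, ← hb] at hE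
      have : (D ×ˢ (univ : Finset (Fin nB))).card ≤
          (J.biUnion (fun j => univ.image (E j)) ∪ D ×ˢ univ).card :=
        card_le_card subset_union_right
      rw [hScard] at this
      omega
    rw [hempty]
    simp
  set t0 := a * (nA - 1) - b with ht0
  have ht0' : t0 + (a + b) = a * nA := by omega
  have ha1 : 1 ≤ a := by
    rcases Nat.eq_zero_or_pos a with h0 | h0
    · rw [h0] at hcase h1; omega
    · exact h0
  -- the injection
  have hinj : (univ.filter (fun E : Fin M → Fin nA → Fin m × Fin nB => h55_bad E J D)).card ≤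
      ((univ.filter (fun g : ({j // j ∈ J} × Fin nA) → Fin m × Fin nB =>
          ((univ.image g) \ (D ×ˢ univ)).card ≤ t0)) ×ˢ
        (univ : Finset ({j // j ∉ J} → Fin nA → Fin m × Fin nB))).card := by
    refine card_le_card_of_injOn
      (fun E => ((fun p : {j // j ∈ J} × Fin nA => E p.1.1 p.2),
        fun j : {j // j ∉ J} => E j.1)) ?_ ?_
    · intro E hE
      rw [mem_coe, mem_filter] at hE
      rw [mem_coe, mem_product, mem_filter]
      refine ⟨⟨mem_univ _, ?_⟩, mem_univ _⟩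
      have hE2 := hE.2
      unfold h55_bad at hE2
      rw [← ha, ← hb] at hE2
      have himg : univ.image (fun p : {j // j ∈ J} × Fin nA => E p.1.1 p.2) =
          J.biUnion (fun j => univ.image (E j)) := by
        ext x
        simp only [mem_image, mem_univ, true_and, mem_biUnion, Prod.exists, Subtype.exists]
        constructor
        · rintro ⟨j, hj, i, hi⟩
          exact ⟨j, hj, i, hi⟩
        · rintro ⟨j, hj, i, hi⟩
          exact ⟨j, hj, i, hi⟩
      rw [himg]
      have hu : (J.biUnion (fun j => univ.image (E j)) \ (D ×ˢ univ)).card +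
          (D ×ˢ (univ : Finset (Fin nB))).card =
          (J.biUnion (fun j => univ.image (E j)) ∪ D ×ˢ univ).card := by
        rw [card_sdiff_add_card]
      rw [hScard] at hu
      omega
    · intro E _ E' _ h
      rw [Prod.mk.injEq] at h
      funext j i
      by_cases hj : j ∈ J
      · exact congrFun h.1 (⟨j, hj⟩, i)
      · exact congrFun (congrFun h.2 ⟨j, hj⟩) i
  have hfew := h55_few (T := {j // j ∈ J} × Fin nA) (D ×ˢ (univ : Finset (Fin nB))) t0
  rw [hScard, Fintype.card_prod, Fintype.card_prod, Fintype.card_coe, Fintype.card_fin,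
    Fintype.card_fin, Fintype.card_fin, ← ha] at hfew
  have hcompl : Fintype.card {j // j ∉ J} = M - a := by
    rw [Fintype.card_subtype_compl, Fintype.card_fin, Fintype.card_coe]
  have hcard2 : (univ : Finset ({j // j ∉ J} → Fin nA → Fin m × Fin nB)).card =
      ((m * nB) ^ nA) ^ (M - a) := by
    rw [card_univ, Fintype.card_fun, Fintype.card_fun, Fintype.card_prod, Fintype.card_fin,
      Fintype.card_fin, Fintype.card_fin, hcompl]
  rw [card_product, hcard2] at hinj
  have haM : a ≤ M := by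
    have := card_le_univ J
    rwa [Fintype.card_fin] at this
  have hbase : b * nB + t0 ≤ R * nB + R * nA := by
    have e1 : b * nB ≤ R * nB := Nat.mul_le_mul_right _ (by omega)
    have e2 : a * nA ≤ R * nA := Nat.mul_le_mul_right _ (by omega)
    omega
  have hpow1 : (b * nB + t0) ^ (a * nA) ≤ (R * nB + R * nA) ^ (R * nA) := by
    refine (Nat.pow_le_pow_left hbase _).trans (Nat.pow_le_pow_right ?_ ?_)
    · have : 1 * 1 ≤ R * nA := Nat.mul_le_mul (by omega) (by omega)
      omega
    · exact Nat.mul_le_mul_right _ (by omega)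
  have hmN : m ^ (a + b) ≤ (m * nB) ^ (a + b) :=
    Nat.pow_le_pow_left (Nat.le_mul_of_pos_right _ hB) _
  calc (univ.filter (fun E : Fin M → Fin nA → Fin m × Fin nB => h55_bad E J D)).card *
        m ^ (a + b)
      ≤ ((b * nB + t0) ^ (a * nA) * (m * nB) ^ t0 * ((m * nB) ^ nA) ^ (M - a)) *
        (m * nB) ^ (a + b) :=
        Nat.mul_le_mul (hinj.trans (Nat.mul_le_mul_right _ hfew)) hmN
    _ = (b * nB + t0) ^ (a * nA) * (((m * nB) ^ (t0 + (a + b))) * ((m * nB) ^ nA) ^ (M - a)) := by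
        rw [pow_add]; ring
    _ = (b * nB + t0) ^ (a * nA) * ((m * nB) ^ nA) ^ M := by
        rw [ht0']
        congr 1
        rw [← pow_mul, ← pow_mul, ← pow_add]
        congr 1
        have : M = a + (M - a) := by omega
        conv_rhs => rw [this]
        ring
    _ ≤ _ := Nat.mul_le_mul_right _ hpow1

/-- The weight of the number of hyperedges inside `W`, summed over all families. -/
theorem h55_weight {M nA nB m k : ℕ} (hB : 1 ≤ nB) (hm : 1 ≤ m)
    (W : Finset (Fin m × Fin nB)) (hW : m * nB ≤ (k + 1) * W.card) :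
    ∑ E : Fin M → Fin nA → Fin m × Fin nB,
        (1 / 2 : ℝ) ^ (univ.filter (fun j => ∀ a, E j a ∈ W)).card ≤
      (1 - (1 / (k + 1 : ℝ)) ^ nA / 2) ^ M * (((m * nB : ℕ) : ℝ) ^ nA) ^ M := by
  have h1 : ∀ E : Fin M → Fin nA → Fin m × Fin nB,
      (1 / 2 : ℝ) ^ (univ.filter (fun j => ∀ a, E j a ∈ W)).card =
      ∏ j, (if (∀ a, E j a ∈ W) then (1 / 2 : ℝ) else 1) := by
    intro E
    rw [prod_ite, prod_const, prod_const_one, mul_one]
  have h2 : ∑ e : Fin nA → Fin m × Fin nB, (if (∀ a, e a ∈ W) then (1 / 2 : ℝ) else 1) =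
      ((m * nB : ℕ) : ℝ) ^ nA - (W.card : ℝ) ^ nA / 2 := by
    have e1 : ∀ e : Fin nA → Fin m × Fin nB, (if (∀ a, e a ∈ W) then (1 / 2 : ℝ) else 1) =
        1 - (if (∀ a, e a ∈ W) then (1 / 2 : ℝ) else 0) := by
      intro e
      split_ifs <;> norm_num
    have e2 : (univ.filter (fun e : Fin nA → Fin m × Fin nB => ∀ a, e a ∈ W)).card =
        W.card ^ nA := by
      have : univ.filter (fun e : Fin nA → Fin m × Fin nB => ∀ a, e a ∈ W) =
          Fintype.piFinset (fun _ : Fin nA => W) := by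
        ext e
        simp [Fintype.mem_piFinset]
      rw [this, Fintype.card_piFinset]
      simp
    rw [sum_congr rfl (fun e _ => e1 e), sum_sub_distrib, sum_const, card_univ,
      Fintype.card_fun, Fintype.card_prod, Fintype.card_fin, Fintype.card_fin, Fintype.card_fin,
      nsmul_eq_mul, mul_one, ← sum_filter, sum_const, e2, nsmul_eq_mul]
    push_cast
    ring
  rw [sum_congr rfl (fun E _ => h1 E)]
  have h3 := Fintype.sum_pow
    (fun e : Fin nA → Fin m × Fin nB => (if (∀ a, e a ∈ W) then (1 / 2 : ℝ) else 1)) M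
  rw [← h3, h2, ← mul_pow]
  have hWN : (W.card : ℝ) ≤ ((m * nB : ℕ) : ℝ) := by
    have := card_le_univ W
    rw [Fintype.card_prod, Fintype.card_fin, Fintype.card_fin] at this
    exact_mod_cast this
  have hW' : ((m * nB : ℕ) : ℝ) * (1 / (k + 1 : ℝ)) ≤ (W.card : ℝ) := by
    have hk : (0 : ℝ) < k + 1 := by positivity
    rw [mul_one_div, div_le_iff₀ hk]
    have : ((m * nB : ℕ) : ℝ) ≤ (((k + 1) * W.card : ℕ) : ℝ) := by exact_mod_cast hW
    push_cast at this ⊢
    linarith
  refine pow_le_pow_left₀ ?_ ?_ _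
  · have : (W.card : ℝ) ^ nA ≤ ((m * nB : ℕ) : ℝ) ^ nA :=
      pow_le_pow_left₀ (by positivity) hWN _
    have h0 : (0 : ℝ) ≤ (W.card : ℝ) ^ nA := by positivity
    linarith
  · have := pow_le_pow_left₀ (by positivity) hW' nA
    rw [mul_pow] at this
    linarith

/-- The sum of `m ^ (-|J| - |D|)` over all pairs. -/
theorem h55_pairs (K m : ℕ) (hm : 1 ≤ m) :
    ∑ q : Finset (Fin (K * m)) × Finset (Fin m), (1 / (m : ℝ)) ^ (q.1.card + q.2.card) ≤
      Real.exp (K + 1) := by
  have hgen : ∀ n : ℕ, ∑ J : Finset (Fin n), (1 / (m : ℝ)) ^ J.card = (1 / (m : ℝ) + 1) ^ n := by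
    intro n
    have := Finset.sum_pow_mul_eq_add_pow (1 / (m : ℝ)) 1 (univ : Finset (Fin n))
    rw [card_univ, Fintype.card_fin, powerset_univ] at this
    rw [← this]
    refine sum_congr rfl ?_
    intro J _
    rw [one_pow, mul_one]
  rw [← univ_product_univ, sum_product]
  have h1 : ∀ J : Finset (Fin (K * m)), ∑ D : Finset (Fin m),
      (1 / (m : ℝ)) ^ (J.card + D.card) = (1 / (m : ℝ)) ^ J.card * (1 / (m : ℝ) + 1) ^ m := by
    intro J
    rw [← hgen m, mul_sum]
    refine sum_congr rfl ?_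
    intro D _
    rw [pow_add]
  rw [sum_congr rfl (fun J _ => h1 J), ← sum_mul, hgen, ← pow_add]
  have hm0 : (0 : ℝ) < m := by exact_mod_cast hm
  have h2 : 1 / (m : ℝ) + 1 ≤ Real.exp (1 / (m : ℝ)) := Real.add_one_le_exp _
  calc (1 / (m : ℝ) + 1) ^ (K * m + m) ≤ (Real.exp (1 / (m : ℝ))) ^ (K * m + m) :=
        pow_le_pow_left₀ (by positivity) h2 _
    _ = Real.exp (K + 1) := by
        rw [← Real.exp_nat_mul]
        congr 1
        push_cast
        field_simp

/-- Existence of a family with few bad pairs and many hyperedges in every large set. -/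
theorem h55_exists (nA nB R k m₀ : ℕ) (hA : 2 ≤ nA) (hB : 1 ≤ nB) :
    ∃ (m M D0 : ℕ) (E : Fin M → Fin nA → Fin m × Fin nB), m₀ ≤ m ∧ 1 ≤ m ∧
      ((univ : Finset (Finset (Fin M) × Finset (Fin m))).filter (fun q =>
        (1 ≤ q.1.card + q.2.card ∧ q.1.card + q.2.card ≤ R) ∧ h55_bad E q.1 q.2)).card ≤ D0 ∧
      ∀ W : Finset (Fin m × Fin nB), m * nB ≤ k * W.card →
        D0 * R < (univ.filter (fun j => ∀ a, E j a ∈ W)).card := by
  set p : ℝ := (1 / (k + 1 : ℝ)) ^ nA / 2 with hp
  have hk1 : (0 : ℝ) < 1 / (k + 1 : ℝ) := by positivity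
  have hk2 : 1 / (k + 1 : ℝ) ≤ 1 := by
    rw [div_le_one (by positivity)]
    have : (0 : ℝ) ≤ k := by positivity
    linarith
  have hp0 : 0 < p := by positivity
  have hp1 : p ≤ 1 / 2 := by
    have := pow_le_one₀ (n := nA) hk1.le hk2
    rw [hp]; linarith
  obtain ⟨K, hK⟩ : ∃ K : ℕ, (1 - p) ^ K < 1 / 2 / (2 : ℝ) ^ nB :=
    exists_pow_lt_of_lt_one (by positivity) (by linarith)
  have hK' : (2 : ℝ) ^ nB * (1 - p) ^ K ≤ 1 / 2 := by
    have h2 : (0 : ℝ) < 2 ^ nB := by positivity
    rw [lt_div_iff₀ h2] at hK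
    linarith
  set C0 : ℕ := (R * nB + R * nA) ^ (R * nA) with hC0
  set C' : ℝ := C0 * Real.exp (K + 1) with hC'
  have hC'0 : 0 ≤ C' := by positivity
  obtain ⟨D0, hD0⟩ : ∃ D0 : ℕ, 2 * C' < D0 := exists_nat_gt _
  have hD0pos : (0 : ℝ) < D0 := lt_of_le_of_lt (by positivity) hD0
  set D1 := D0 * R with hD1
  obtain ⟨m, hm0, hm1, hm2⟩ : ∃ m : ℕ, m₀ ≤ m ∧ 1 ≤ m ∧ D1 + 2 ≤ m :=
    ⟨max m₀ (D1 + 2), le_max_left _ _, le_trans (by omega) (le_max_right _ _), le_max_right _ _⟩
  set M := K * m with hM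
  set Ω : ℝ := (((m * nB : ℕ) : ℝ) ^ nA) ^ M with hΩ
  have hΩpos : 0 < Ω := by
    have : 0 < m * nB := Nat.mul_pos hm1 hB
    have : (0 : ℝ) < ((m * nB : ℕ) : ℝ) := by exact_mod_cast this
    positivity
  have hΩcard : (Fintype.card (Fin M → Fin nA → Fin m × Fin nB) : ℝ) = Ω := by
    rw [Fintype.card_fun, Fintype.card_fun, Fintype.card_prod, Fintype.card_fin,
      Fintype.card_fin, Fintype.card_fin, Fintype.card_fin, hΩ]
    push_cast
    ring
  have hmpos : (0 : ℝ) < m := by exact_mod_cast hm1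
  -- sum of the number of bad pairs
  have hX : ∑ E : Fin M → Fin nA → Fin m × Fin nB,
      ((((univ : Finset (Finset (Fin M) × Finset (Fin m))).filter (fun q =>
        (1 ≤ q.1.card + q.2.card ∧ q.1.card + q.2.card ≤ R) ∧ h55_bad E q.1 q.2)).card : ℕ) : ℝ)
      ≤ C' * Ω := by
    have e1 : ∀ E : Fin M → Fin nA → Fin m × Fin nB,
        ((((univ : Finset (Finset (Fin M) × Finset (Fin m))).filter (fun q =>
        (1 ≤ q.1.card + q.2.card ∧ q.1.card + q.2.card ≤ R) ∧ h55_bad E q.1 q.2)).card : ℕ) : ℝ)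
        = ∑ q : Finset (Fin M) × Finset (Fin m),
          (if (1 ≤ q.1.card + q.2.card ∧ q.1.card + q.2.card ≤ R) ∧ h55_bad E q.1 q.2
            then (1 : ℝ) else 0) := by
      intro E
      rw [← sum_filter, sum_const, nsmul_eq_mul, mul_one]
    rw [sum_congr rfl (fun E _ => e1 E), sum_comm]
    have e2 : ∀ q : Finset (Fin M) × Finset (Fin m),
        ∑ E : Fin M → Fin nA → Fin m × Fin nB,
          (if (1 ≤ q.1.card + q.2.card ∧ q.1.card + q.2.card ≤ R) ∧ h55_bad E q.1 q.2
            then (1 : ℝ) else 0) ≤ C0 * Ω * (1 / (m : ℝ)) ^ (q.1.card + q.2.card) := by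
      intro q
      by_cases hq : 1 ≤ q.1.card + q.2.card ∧ q.1.card + q.2.card ≤ R
      · have := h55_count (R := R) (M := M) hA hB hm1 q.1 q.2 hq.1 hq.2
        have h3 : (((univ.filter (fun E : Fin M → Fin nA → Fin m × Fin nB =>
            h55_bad E q.1 q.2)).card * m ^ (q.1.card + q.2.card) : ℕ) : ℝ) ≤
            (((R * nB + R * nA) ^ (R * nA) * ((m * nB) ^ nA) ^ M : ℕ) : ℝ) := by
          exact_mod_cast this
        have h4 : (((R * nB + R * nA) ^ (R * nA) * ((m * nB) ^ nA) ^ M : ℕ) : ℝ) = C0 * Ω := by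
          rw [hC0, hΩ]
          push_cast
          ring
        rw [h4, Nat.cast_mul, Nat.cast_pow] at h3
        have h5 : ∑ E : Fin M → Fin nA → Fin m × Fin nB,
          (if (1 ≤ q.1.card + q.2.card ∧ q.1.card + q.2.card ≤ R) ∧ h55_bad E q.1 q.2
            then (1 : ℝ) else 0) = ((univ.filter (fun E : Fin M → Fin nA → Fin m × Fin nB =>
            h55_bad E q.1 q.2)).card : ℝ) := by
          rw [← sum_filter, sum_const, nsmul_eq_mul, mul_one]
          congr 2
          ext E
          simp only [mem_filter, mem_univ, true_and]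
          constructor
          · intro h; exact h.2
          · intro h; exact ⟨hq, h⟩
        rw [h5, one_div, inv_pow, ← div_eq_mul_inv, le_div_iff₀ (by positivity)]
        exact h3
      · rw [sum_eq_zero]
        · positivity
        · intro E _
          rw [if_neg]
          intro h
          exact hq h.1
    calc _ ≤ ∑ q : Finset (Fin M) × Finset (Fin m),
          C0 * Ω * (1 / (m : ℝ)) ^ (q.1.card + q.2.card) := sum_le_sum (fun q _ => e2 q)
      _ = C0 * Ω * ∑ q : Finset (Fin M) × Finset (Fin m),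
          (1 / (m : ℝ)) ^ (q.1.card + q.2.card) := by rw [mul_sum]
      _ ≤ C0 * Ω * Real.exp (K + 1) :=
          mul_le_mul_of_nonneg_left (h55_pairs K m hm1) (by positivity)
      _ = C' * Ω := by rw [hC']; ring
  -- the sum of the weights of large sets
  set LW : Finset (Finset (Fin m × Fin nB)) :=
    univ.filter (fun W => m * nB ≤ k * W.card) with hLW
  have hWsum : ∑ E : Fin M → Fin nA → Fin m × Fin nB, ∑ W ∈ LW,
      (2 : ℝ) ^ D1 * (1 / 2 : ℝ) ^ (univ.filter (fun j => ∀ a, E j a ∈ W)).card ≤ Ω / 4 := by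
    rw [sum_comm]
    have e1 : ∀ W ∈ LW, ∑ E : Fin M → Fin nA → Fin m × Fin nB,
        (2 : ℝ) ^ D1 * (1 / 2 : ℝ) ^ (univ.filter (fun j => ∀ a, E j a ∈ W)).card ≤
        (2 : ℝ) ^ D1 * ((1 - p) ^ M * Ω) := by
      intro W hW
      rw [hLW, mem_filter] at hW
      rw [← mul_sum]
      refine mul_le_mul_of_nonneg_left ?_ (by positivity)
      exact h55_weight hB hm1 W (hW.2.trans (Nat.mul_le_mul_right _ (Nat.le_succ k)))
    refine (sum_le_sum e1).trans ?_
    rw [sum_const, nsmul_eq_mul]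
    have e2 : (LW.card : ℝ) ≤ (2 : ℝ) ^ (m * nB) := by
      have : LW.card ≤ 2 ^ (m * nB) := by
        refine (card_le_univ _).trans ?_
        rw [Fintype.card_finset, Fintype.card_prod, Fintype.card_fin, Fintype.card_fin]
      exact_mod_cast this
    have h1p : 0 ≤ 1 - p := by linarith
    calc (LW.card : ℝ) * ((2 : ℝ) ^ D1 * ((1 - p) ^ M * Ω))
        ≤ (2 : ℝ) ^ (m * nB) * ((2 : ℝ) ^ D1 * ((1 - p) ^ M * Ω)) :=
          mul_le_mul_of_nonneg_right e2 (by positivity)
      _ = (2 : ℝ) ^ D1 * ((2 : ℝ) ^ nB * (1 - p) ^ K) ^ m * Ω := by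
          rw [mul_pow, ← pow_mul, ← pow_mul, hM, mul_comm nB m]
          ring
      _ ≤ (2 : ℝ) ^ D1 * (1 / 2) ^ m * Ω := by
          refine mul_le_mul_of_nonneg_right (mul_le_mul_of_nonneg_left ?_ (by positivity)) hΩpos.le
          exact pow_le_pow_left₀ (by positivity) hK' _
      _ ≤ (2 : ℝ) ^ D1 * (1 / 2) ^ (D1 + 2) * Ω := by
          refine mul_le_mul_of_nonneg_right (mul_le_mul_of_nonneg_left ?_ (by positivity)) hΩpos.le
          exact pow_le_pow_of_le_one (by norm_num) (by norm_num) hm2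
      _ = Ω / 4 := by
          rw [pow_add, ← mul_assoc, ← mul_pow]
          norm_num
          ring
  -- a good family
  obtain ⟨E, -, hE⟩ : ∃ E ∈ (univ : Finset (Fin M → Fin nA → Fin m × Fin nB)),
      ((((univ : Finset (Finset (Fin M) × Finset (Fin m))).filter (fun q =>
        (1 ≤ q.1.card + q.2.card ∧ q.1.card + q.2.card ≤ R) ∧ h55_bad E q.1 q.2)).card : ℕ) : ℝ)
        / D0 + ∑ W ∈ LW,
      (2 : ℝ) ^ D1 * (1 / 2 : ℝ) ^ (univ.filter (fun j => ∀ a, E j a ∈ W)).card < 1 := by
    apply exists_lt_of_sum_lt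
    rw [sum_add_distrib, ← sum_div, sum_const, card_univ, nsmul_eq_mul, mul_one, hΩcard]
    have h1 : (∑ E : Fin M → Fin nA → Fin m × Fin nB,
      ((((univ : Finset (Finset (Fin M) × Finset (Fin m))).filter (fun q =>
        (1 ≤ q.1.card + q.2.card ∧ q.1.card + q.2.card ≤ R) ∧ h55_bad E q.1 q.2)).card : ℕ) : ℝ))
        / D0 ≤ Ω / 2 := by
      rw [div_le_iff₀ hD0pos]
      refine hX.trans ?_
      nlinarith
    linarith
  have hsum0 : ∀ W ∈ LW, (0 : ℝ) ≤
      (2 : ℝ) ^ D1 * (1 / 2 : ℝ) ^ (univ.filter (fun j => ∀ a, E j a ∈ W)).card :=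
    fun W _ => by positivity
  refine ⟨m, M, D0, E, hm0, hm1, ?_, ?_⟩
  · have h1 := sum_nonneg hsum0
    have h2 : ((((univ : Finset (Finset (Fin M) × Finset (Fin m))).filter (fun q =>
        (1 ≤ q.1.card + q.2.card ∧ q.1.card + q.2.card ≤ R) ∧ h55_bad E q.1 q.2)).card : ℕ) : ℝ)
        / D0 < 1 := by linarith
    rw [div_lt_one hD0pos] at h2
    exact_mod_cast h2.le
  · intro W hW
    have hWm : W ∈ LW := by
      rw [hLW, mem_filter]
      exact ⟨mem_univ _, hW⟩
    have h1 := single_le_sum hsum0 hWm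
    have h0 : (0 : ℝ) ≤ ((((univ : Finset (Finset (Fin M) × Finset (Fin m))).filter (fun q =>
        (1 ≤ q.1.card + q.2.card ∧ q.1.card + q.2.card ≤ R) ∧ h55_bad E q.1 q.2)).card : ℕ) : ℝ)
        / D0 := by positivity
    have h2 : (2 : ℝ) ^ D1 * (1 / 2 : ℝ) ^ (univ.filter (fun j => ∀ a, E j a ∈ W)).card < 1 := by
      linarith
    by_contra hcon
    rw [not_lt] at hcon
    have h3 : (1 / 2 : ℝ) ^ D1 ≤ (1 / 2 : ℝ) ^ (univ.filter (fun j => ∀ a, E j a ∈ W)).card :=
      pow_le_pow_of_le_one (by norm_num) (by norm_num) hcon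
    have h4 : (2 : ℝ) ^ D1 * (1 / 2 : ℝ) ^ D1 = 1 := by
      rw [← mul_pow]; norm_num
    have h5 : (2 : ℝ) ^ D1 * (1 / 2 : ℝ) ^ D1 ≤
        (2 : ℝ) ^ D1 * (1 / 2 : ℝ) ^ (univ.filter (fun j => ∀ a, E j a ∈ W)).card :=
      mul_le_mul_of_nonneg_left h3 (by positivity)
    linarith

theorem hyp (nA nB R k m₀ : ℕ) (hA : 2 ≤ nA) (hB : 1 ≤ nB) (hm : 1 ≤ m₀) :
    ∃ (m : ℕ) (ι : Type) (_ : Fintype ι) (E : ι → Fin nA → Fin m × Fin nB),
      m₀ ≤ m ∧ Sparse E R ∧ Dense E k := by
  obtain ⟨m, M, D0, E, hm0, hm1, hbad, hdense⟩ := h55_exists nA nB R k m₀ hA hB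
  set P := ((univ : Finset (Finset (Fin M) × Finset (Fin m))).filter (fun q =>
        (1 ≤ q.1.card + q.2.card ∧ q.1.card + q.2.card ≤ R) ∧ h55_bad E q.1 q.2)) with hP
  have hPmem : ∀ q : Finset (Fin M) × Finset (Fin m), q ∈ P ↔
      ((1 ≤ q.1.card + q.2.card ∧ q.1.card + q.2.card ≤ R) ∧ h55_bad E q.1 q.2) := by
    intro q
    rw [hP, mem_filter]
    simp
  refine ⟨m, {j : Fin M // ∀ q ∈ P, j ∉ q.1}, inferInstance, fun j => E j.1, hm0, ?_, ?_⟩
  · intro J D h1 h2
    rcases J.eq_empty_or_nonempty with hJ | ⟨j, hj⟩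
    · subst hJ
      rw [card_empty] at h1 h2 ⊢
      rw [biUnion_empty, empty_union, card_product, card_univ, Fintype.card_fin]
      have : D.card * nB = D.card * (nB - 1) + D.card := by
        have hnB : nB - 1 + 1 = nB := by omega
        conv_lhs => rw [← hnB]
        ring
      omega
    · by_contra hcon
      rw [not_le, Nat.lt_add_one_iff] at hcon
      have hJ' : (J.map ⟨Subtype.val, Subtype.val_injective⟩, D) ∈ P := by
        refine (hPmem _).2 ⟨⟨?_, ?_⟩, ?_⟩
        · simpa using h1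
        · simpa using h2
        · unfold h55_bad
          have hU : (J.map ⟨Subtype.val, Subtype.val_injective⟩).biUnion
              (fun j => univ.image (E j)) = J.biUnion (fun j => univ.image (E j.1)) := by
            ext x
            simp only [mem_biUnion, mem_map, Function.Embedding.coeFn_mk]
            constructor
            · rintro ⟨i, ⟨i', hi', rfl⟩, hx⟩
              exact ⟨i', hi', hx⟩
            · rintro ⟨i', hi', hx⟩
              exact ⟨i'.1, ⟨i', hi', rfl⟩, hx⟩
          rw [hU, card_map]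
          exact hcon
      exact j.2 _ hJ' (mem_map.2 ⟨j, hj, rfl⟩)
  · intro W hW
    have h1 := hdense W hW
    have h2 : (P.biUnion (fun q => q.1)).card ≤ D0 * R := by
      refine card_biUnion_le.trans ?_
      calc ∑ q ∈ P, q.1.card ≤ ∑ q ∈ P, R := by
            refine sum_le_sum ?_
            intro q hq
            rw [hP, mem_filter] at hq
            omega
        _ = P.card * R := by rw [sum_const, smul_eq_mul]
        _ ≤ D0 * R := Nat.mul_le_mul_right _ hbad
    obtain ⟨j, hj, hj'⟩ := exists_mem_notMem_of_card_lt_card (h2.trans_lt h1)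
    rw [mem_filter] at hj
    refine ⟨⟨j, ?_⟩, hj.2⟩
    intro q hq hjq
    exact hj' (mem_biUnion.2 ⟨q, hq, hjq⟩)

end Pool.Agent.H65.RI
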