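import Pool.Agent.H65.RI.Defs

set_option autoImplicit false

/-!
Module SYS: systems of copies along sparse families. A graph without separation by at most one
vertex which is contained in a system is contained in one member.
-/

namespace Pool.Agent.H65.RI

open Finset Classical

variable {ι : Type} {nA nB m : ℕ} {E : ι → Fin nA → Fin m × Fin nB}

/-- The vertex set of a member (hyperedge or block). -/
noncomputable def ms (E : ι → Fin nA → Fin m × Fin nB) : ι ⊕ Fin m → Finset (Fin m × Fin nB)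
  | Sum.inl j => univ.image (E j)
  | Sum.inr l => ({l} : Finset (Fin m)) ×ˢ univ

theorem mem_ms_inl {j : ι} {x : Fin m × Fin nB} : x ∈ ms E (Sum.inl j) ↔ ∃ a, E j a = x := by
  simp [ms]

theorem mem_ms_inr {l : Fin m} {x : Fin m × Fin nB} : x ∈ ms E (Sum.inr l) ↔ x.1 = l := by
  show x ∈ ({l} : Finset (Fin m)) ×ˢ (univ : Finset (Fin nB)) ↔ x.1 = l
  rw [Finset.mem_product]
  simp only [Finset.mem_singleton, Finset.mem_univ, and_true]

theorem sparse_inj {R : ℕ} (hS : Sparse E R) (hR : 1 ≤ R) (hA : 1 ≤ nA) (j : ι) :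
    Function.Injective (E j) := by
  have h := hS {j} ∅ (by simp) (by simpa using hR)
  simp only [Finset.card_singleton, Finset.card_empty, one_mul, zero_mul, add_zero,
    Finset.singleton_biUnion, Finset.empty_product, Finset.union_empty] at h
  have h2 : (univ.image (E j)).card = (univ : Finset (Fin nA)).card := by
    apply le_antisymm Finset.card_image_le
    rw [Finset.card_univ, Fintype.card_fin]
    omega
  have h3 := Finset.card_image_iff.mp h2
  intro a b hab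
  exact h3 (Finset.mem_coe.mpr (Finset.mem_univ a)) (Finset.mem_coe.mpr (Finset.mem_univ b)) hab

theorem ms_sum {R : ℕ} (hS : Sparse E R) (hR : 1 ≤ R) (hA : 1 ≤ nA) (hB : 1 ≤ nB)
    (F : Finset (ι ⊕ Fin m)) (h1 : 1 ≤ F.card) (h2 : F.card ≤ R) :
    ∑ μ ∈ F, (ms E μ).card + 1 ≤ (F.biUnion (ms E)).card + F.card := by
  have hc := Finset.card_toLeft_add_card_toRight (u := F)
  have h := hS F.toLeft F.toRight (by omega) (by omega)
  have hU : F.toLeft.biUnion (fun j => univ.image (E j)) ∪ F.toRight ×ˢ univ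
      = F.biUnion (ms E) := by
    ext x
    simp only [Finset.mem_union, Finset.mem_biUnion, Finset.mem_toLeft, Finset.mem_product,
      Finset.mem_toRight, Finset.mem_univ, and_true]
    constructor
    · rintro (⟨j, hj, hx⟩ | hx)
      · exact ⟨Sum.inl j, hj, hx⟩
      · exact ⟨Sum.inr x.1, hx, mem_ms_inr.mpr rfl⟩
    · rintro ⟨j | l, hj, hx⟩
      · exact Or.inl ⟨j, hj, hx⟩
      · right
        rw [mem_ms_inr.mp hx]
        exact hj
  rw [hU] at h
  have hsum : ∑ μ ∈ F, (ms E μ).card = F.toLeft.card * nA + F.toRight.card * nB := by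
    rw [← Finset.toLeft_disjSum_toRight (u := F), Finset.sum_disjSum]
    simp only [Finset.toLeft_disjSum, Finset.toRight_disjSum]
    congr 1
    · rw [Finset.sum_congr rfl (fun j _ => ?_), Finset.sum_const, smul_eq_mul]
      show (univ.image (E j)).card = nA
      rw [Finset.card_image_of_injective _ (sparse_inj hS hR hA j)]
      simp
    · rw [Finset.sum_congr rfl (fun l _ => ?_), Finset.sum_const, smul_eq_mul]
      show (({l} : Finset (Fin m)) ×ˢ (univ : Finset (Fin nB))).card = nB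
      simp
  rw [hsum]
  have e1 : F.toLeft.card * (nA - 1) + F.toLeft.card = F.toLeft.card * nA := by
    obtain ⟨n, rfl⟩ : ∃ n, nA = n + 1 := ⟨nA - 1, by omega⟩
    simp
    ring
  have e2 : F.toRight.card * (nB - 1) + F.toRight.card = F.toRight.card * nB := by
    obtain ⟨n, rfl⟩ : ∃ n, nB = n + 1 := ⟨nB - 1, by omega⟩
    simp
    ring
  omega

/-- Some member of a small subfamily meets the union of the others in at most one vertex. -/
theorem ms_leaf {R : ℕ} (hS : Sparse E R) (hR : 1 ≤ R) (hA : 1 ≤ nA) (hB : 1 ≤ nB)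
    (F : Finset (ι ⊕ Fin m)) (h1 : 1 ≤ F.card) (h2 : F.card ≤ R) :
    ∃ μ ∈ F, (ms E μ ∩ (F.erase μ).biUnion (ms E)).card ≤ 1 := by
  by_contra hcon
  push Not at hcon
  have hs := ms_sum hS hR hA hB F h1 h2
  set U := F.biUnion (ms E) with hU
  let deg : Fin m × Fin nB → ℕ := fun x => (F.filter (fun μ => x ∈ ms E μ)).card
  have sub : ∀ μ ∈ F, ms E μ ⊆ U := fun μ hμ => Finset.subset_biUnion_of_mem (ms E) hμ
  -- double counting
  have dc : ∑ μ ∈ F, (ms E μ).card = ∑ x ∈ U, deg x := by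
    have : ∀ μ ∈ F, (ms E μ).card = ∑ x ∈ U, if x ∈ ms E μ then 1 else 0 := by
      intro μ hμ
      rw [Finset.sum_boole, Nat.cast_id, Finset.filter_mem_eq_inter,
        Finset.inter_eq_right.mpr (sub μ hμ)]
    rw [Finset.sum_congr rfl this, Finset.sum_comm]
    apply Finset.sum_congr rfl
    intro x _
    rw [Finset.sum_boole, Nat.cast_id]
  have dc2 : ∑ μ ∈ F, (ms E μ ∩ (F.erase μ).biUnion (ms E)).card ≤
      ∑ x ∈ U, if 2 ≤ deg x then deg x else 0 := by
    have : ∀ μ ∈ F, (ms E μ ∩ (F.erase μ).biUnion (ms E)).card ≤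
        ∑ x ∈ U, if x ∈ ms E μ ∧ 2 ≤ deg x then 1 else 0 := by
      intro μ hμ
      rw [Finset.sum_boole, Nat.cast_id]
      apply Finset.card_le_card
      intro x hx
      rw [Finset.mem_inter, Finset.mem_biUnion] at hx
      obtain ⟨hx1, ν, hν, hx2⟩ := hx
      rw [Finset.mem_filter]
      refine ⟨sub μ hμ hx1, hx1, ?_⟩
      have hne := (Finset.mem_erase.mp hν).1
      have hνF := (Finset.mem_erase.mp hν).2
      show 1 < (F.filter (fun μ => x ∈ ms E μ)).card
      rw [Finset.one_lt_card]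
      exact ⟨μ, Finset.mem_filter.mpr ⟨hμ, hx1⟩, ν, Finset.mem_filter.mpr ⟨hνF, hx2⟩, hne.symm⟩
    calc _ ≤ ∑ μ ∈ F, ∑ x ∈ U, (if x ∈ ms E μ ∧ 2 ≤ deg x then 1 else 0) :=
          Finset.sum_le_sum this
      _ = ∑ x ∈ U, ∑ μ ∈ F, (if x ∈ ms E μ ∧ 2 ≤ deg x then 1 else 0) := Finset.sum_comm
      _ ≤ _ := by
        apply Finset.sum_le_sum
        intro x _
        split_ifs with hx
        · apply le_of_eq
          simp only [hx, and_true]
          rw [Finset.sum_boole, Nat.cast_id]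
        · apply le_of_eq
          apply Finset.sum_eq_zero
          intro μ _
          rw [if_neg]
          exact fun h => hx h.2
  have dc3 : 2 * F.card ≤ ∑ μ ∈ F, (ms E μ ∩ (F.erase μ).biUnion (ms E)).card := by
    rw [mul_comm, ← smul_eq_mul, ← Finset.sum_const]
    exact Finset.sum_le_sum (fun μ hμ => hcon μ hμ)
  have hdeg : ∀ x ∈ U, 1 ≤ deg x := by
    intro x hx
    rw [hU, Finset.mem_biUnion] at hx
    obtain ⟨μ, hμ, hxμ⟩ := hx
    exact Finset.card_pos.mpr ⟨μ, Finset.mem_filter.mpr ⟨hμ, hxμ⟩⟩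
  have hfin : ∑ x ∈ U, (2 + if 2 ≤ deg x then deg x else 0) ≤ ∑ x ∈ U, 2 * deg x := by
    apply Finset.sum_le_sum
    intro x hx
    have := hdeg x hx
    split_ifs <;> omega
  rw [Finset.sum_add_distrib, Finset.sum_const, smul_eq_mul, ← Finset.mul_sum, ← dc] at hfin
  omega

theorem ms_inter {R : ℕ} (hS : Sparse E R) (hR : 2 ≤ R) (hA : 1 ≤ nA) (hB : 1 ≤ nB)
    {μ ν : ι ⊕ Fin m} (hne : μ ≠ ν) {x y : Fin m × Fin nB} (hx : x ∈ ms E μ) (hx' : x ∈ ms E ν)
    (hy : y ∈ ms E μ) (hy' : y ∈ ms E ν) : x = y := by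
  have hc : ({μ, ν} : Finset (ι ⊕ Fin m)).card = 2 := Finset.card_pair hne
  obtain ⟨ρ, hρ, hcard⟩ := ms_leaf hS (by omega) hA hB {μ, ν} (by omega) (by omega)
  rw [Finset.card_le_one] at hcard
  have key : ∀ z, z ∈ ms E μ → z ∈ ms E ν →
      z ∈ ms E ρ ∩ (({μ, ν} : Finset (ι ⊕ Fin m)).erase ρ).biUnion (ms E) := by
    intro z hz hz'
    rw [Finset.mem_insert, Finset.mem_singleton] at hρ
    rw [Finset.mem_inter, Finset.mem_biUnion]
    rcases hρ with rfl | rfl
    · exact ⟨hz, ν, Finset.mem_erase.mpr ⟨hne.symm, by simp⟩, hz'⟩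
    · exact ⟨hz', μ, Finset.mem_erase.mpr ⟨hne, by simp⟩, hz⟩
  exact hcard x (key x hx hx') y (key y hy hy')

theorem sys_adjA {R : ℕ} (hS : Sparse E R) (hR : 1 ≤ R) (hA : 1 ≤ nA) (A : SimpleGraph (Fin nA))
    (Y : SimpleGraph (Fin nB)) (j : ι) {a b : Fin nA} (h : A.Adj a b) :
    (Sys E A Y).Adj (E j a) (E j b) := by
  refine ⟨fun hab => h.ne (sparse_inj hS hR hA j hab), Or.inl ⟨j, a, b, h, rfl, rfl⟩⟩

theorem sys_adjY (A : SimpleGraph (Fin nA)) (Y : SimpleGraph (Fin nB)) (l : Fin m)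
    {a b : Fin nB} (h : Y.Adj a b) : (Sys E A Y).Adj (l, a) (l, b) := by
  refine ⟨fun hab => h.ne (congrArg Prod.snd hab), Or.inr ⟨l, a, b, h, rfl, rfl⟩⟩

theorem hyper_uniq {R : ℕ} (hS : Sparse E R) (hR : 2 ≤ R) (hA : 1 ≤ nA) (hB : 1 ≤ nB)
    {j j' : ι} {a b a' b' : Fin nA} (hab : a ≠ b) (h1 : E j' a' = E j a) (h2 : E j' b' = E j b) :
    j' = j ∧ a' = a ∧ b' = b := by
  have inj := sparse_inj hS (by omega) hA
  have hjj : j' = j := by
    by_contra hne
    have := ms_inter hS hR hA hB (μ := Sum.inl j) (ν := Sum.inl j')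
      (fun h => hne (Sum.inl_injective h).symm) (mem_ms_inl.mpr ⟨a, rfl⟩) (mem_ms_inl.mpr ⟨a', h1⟩)
      (mem_ms_inl.mpr ⟨b, rfl⟩) (mem_ms_inl.mpr ⟨b', h2⟩)
    exact hab (inj j this)
  subst hjj
  exact ⟨rfl, inj _ h1, inj _ h2⟩

/-- The colourings of the members give a colouring of the system (two members share at most one
vertex). -/
theorem sys_col {R : ℕ} (hS : Sparse E R) (hR : 2 ≤ R) (hA : 2 ≤ nA) (hB : 1 ≤ nB)
    (A : SimpleGraph (Fin nA)) (Y : SimpleGraph (Fin nB)) (cA : Fin nA → Fin nA → ℕ)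
    (cY : Fin nB → Fin nB → ℕ) (hcA : Sm cA) (hcY : Sm cY) :
    ∃ c : (Fin m × Fin nB) → (Fin m × Fin nB) → ℕ, Sm c ∧
      (∀ j a b, A.Adj a b → c (E j a) (E j b) = cA a b) ∧
      (∀ l a b, Y.Adj a b → c (l, a) (l, b) = cY a b) := by
  have hA1 : 1 ≤ nA := by omega
  let P : (Fin m × Fin nB) → (Fin m × Fin nB) → (ι × Fin nA × Fin nA) → Prop := fun x y p =>
    A.Adj p.2.1 p.2.2 ∧ E p.1 p.2.1 = x ∧ E p.1 p.2.2 = y
  let c : (Fin m × Fin nB) → (Fin m × Fin nB) → ℕ := fun x y =>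
    if h : ∃ p, P x y p then cA h.choose.2.1 h.choose.2.2 else cY x.2 y.2
  have c1 : ∀ x y p, P x y p → c x y = cA p.2.1 p.2.2 := by
    intro x y p hp
    have h : ∃ p, P x y p := ⟨p, hp⟩
    simp only [c]
    rw [dif_pos h]
    have hs := h.choose_spec
    have := hyper_uniq hS hR hA1 hB hp.1.ne (hs.2.1.trans hp.2.1.symm) (hs.2.2.trans hp.2.2.symm)
    rw [this.2.1, this.2.2]
  refine ⟨c, ?_, ?_, ?_⟩
  · intro x y
    by_cases h : ∃ p, P x y p
    · obtain ⟨p, hp⟩ := h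
      rw [c1 x y p hp, c1 y x (p.1, p.2.2, p.2.1) ⟨hp.1.symm, hp.2.2, hp.2.1⟩]
      exact hcA _ _
    · have h' : ¬ ∃ p, P y x p := by
        rintro ⟨p, hp⟩
        exact h ⟨(p.1, p.2.2, p.2.1), hp.1.symm, hp.2.2, hp.2.1⟩
      simp only [c]
      rw [dif_neg h, dif_neg h']
      exact hcY _ _
  · intro j a b hab
    exact c1 _ _ (j, a, b) ⟨hab, rfl, rfl⟩
  · intro l a b hab
    have h : ¬ ∃ p, P (l, a) (l, b) p := by
      rintro ⟨p, hp⟩
      have := ms_inter hS hR hA1 hB (μ := Sum.inl p.1) (ν := Sum.inr l) (by simp)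
        (mem_ms_inl.mpr ⟨_, hp.2.1⟩) (mem_ms_inr.mpr rfl) (mem_ms_inl.mpr ⟨_, hp.2.2⟩)
        (mem_ms_inr.mpr rfl)
      exact hab.ne (congrArg Prod.snd this)
    simp only [c]
    rw [dif_neg h]

theorem noSep_nbr {W : Type} [Fintype W] (L : SimpleGraph W) (hL : NoSep L)
    (h2 : 2 ≤ Fintype.card W) (w : W) : ∃ v, L.Adj w v := by
  by_contra hcon
  push Not at hcon
  obtain ⟨b, hb⟩ := Fintype.exists_ne_of_one_lt_card (by omega : 1 < Fintype.card W) w
  rcases hL {w} {w}ᶜ (by simp) (fun u v huv => by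
    right
    constructor
    · rintro rfl
      exact hcon v huv
    · rintro rfl
      exact hcon u huv.symm) (by simp) with h | h
  · have : b ∈ ({w} : Set W) := by rw [h]; trivial
    exact hb (Set.mem_singleton_iff.mp this)
  · have : w ∈ ({w}ᶜ : Set W) := by rw [h]; trivial
    exact this rfl

theorem sys_member {W : Type} [Fintype W] (L : SimpleGraph W) (hL : NoSep L)
    (h2 : 2 ≤ Fintype.card W) {R : ℕ} (hS : Sparse E R) (hR : (Fintype.card W) ^ 2 ≤ R)
    (hA : 2 ≤ nA) (hB : 1 ≤ nB) (f : W → Fin m × Fin nB) (hf : Function.Injective f)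
    (hadj : ∀ u v, L.Adj u v → ∃ μ, f u ∈ ms E μ ∧ f v ∈ ms E μ) :
    ∃ μ, ∀ w, f w ∈ ms E μ := by
  have hR1 : 1 ≤ R := by nlinarith
  have nbr := noSep_nbr L hL h2
  have hne : Nonempty W := by
    rw [← Fintype.card_pos_iff]
    omega
  obtain ⟨w0⟩ := hne
  obtain ⟨v0, hv0⟩ := nbr w0
  choose M hM1 hM2 using hadj
  let Mp : W × W → ι ⊕ Fin m := fun p => if h : L.Adj p.1 p.2 then M p.1 p.2 h else M w0 v0 hv0
  have hMp : ∀ u v (h : L.Adj u v), f u ∈ ms E (Mp (u, v)) ∧ f v ∈ ms E (Mp (u, v)) := by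
    intro u v h
    simp only [Mp]
    rw [dif_pos h]
    exact ⟨hM1 u v h, hM2 u v h⟩
  let F : Finset (ι ⊕ Fin m) := (univ.filter (fun p : W × W => L.Adj p.1 p.2)).image Mp
  have hF : ∀ u v, L.Adj u v → Mp (u, v) ∈ F := fun u v h =>
    Finset.mem_image.mpr ⟨(u, v), Finset.mem_filter.mpr ⟨Finset.mem_univ _, h⟩, rfl⟩
  have hFc : F.card ≤ R := by
    calc F.card ≤ (univ.filter (fun p : W × W => L.Adj p.1 p.2)).card := Finset.card_image_le
      _ ≤ (univ : Finset (W × W)).card := Finset.card_filter_le _ _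
      _ = (Fintype.card W) ^ 2 := by rw [Finset.card_univ, Fintype.card_prod, sq]
      _ ≤ R := hR
  have hF1 : 1 ≤ F.card := Finset.card_pos.mpr ⟨_, hF w0 v0 hv0⟩
  obtain ⟨μ, hμ, hcard⟩ := ms_leaf hS hR1 (by omega) hB F hF1 hFc
  rw [Finset.card_le_one] at hcard
  rcases hL {w | f w ∈ ms E μ} {w | f w ∈ (F.erase μ).biUnion (ms E)} (by
    ext w
    refine ⟨fun _ => trivial, fun _ => ?_⟩
    obtain ⟨v, hv⟩ := nbr w
    by_cases h : Mp (w, v) = μ
    · left
      rw [← h]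
      exact (hMp w v hv).1
    · right
      exact Finset.mem_biUnion.mpr ⟨_, Finset.mem_erase.mpr ⟨h, hF w v hv⟩, (hMp w v hv).1⟩)
    (fun u v huv => by
      by_cases h : Mp (u, v) = μ
      · left
        rw [← h]
        exact hMp u v huv
      · right
        exact ⟨Finset.mem_biUnion.mpr ⟨_, Finset.mem_erase.mpr ⟨h, hF u v huv⟩, (hMp u v huv).1⟩,
          Finset.mem_biUnion.mpr ⟨_, Finset.mem_erase.mpr ⟨h, hF u v huv⟩, (hMp u v huv).2⟩⟩)
    (by
      intro u hu v hv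
      exact hf (hcard _ (Finset.mem_inter.mpr hu) _ (Finset.mem_inter.mpr hv))) with h | h
  · refine ⟨μ, fun w => ?_⟩
    have : w ∈ {w | f w ∈ ms E μ} := by rw [h]; trivial
    exact this
  · exfalso
    obtain ⟨p, hp, hpμ⟩ := Finset.mem_image.mp hμ
    have hadj := (Finset.mem_filter.mp hp).2
    have h3 := hMp p.1 p.2 hadj
    have e : Mp (p.1, p.2) = μ := hpμ
    rw [e] at h3
    have h4 : p.1 ∈ {w | f w ∈ (F.erase μ).biUnion (ms E)} := by rw [h]; trivial
    have h5 : p.2 ∈ {w | f w ∈ (F.erase μ).biUnion (ms E)} := by rw [h]; trivial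
    exact hadj.ne (hf (hcard _ (Finset.mem_inter.mpr ⟨h3.1, h4⟩) _
      (Finset.mem_inter.mpr ⟨h3.2, h5⟩)))

/-- Subgraphs without separation are local. -/
theorem sys_local {W : Type} [Fintype W] (L : SimpleGraph W) (hL : NoSep L)
    (h2 : 2 ≤ Fintype.card W) {R : ℕ} (hS : Sparse E R) (hR : (Fintype.card W) ^ 2 ≤ R)
    (hA : 2 ≤ nA) (hB : 1 ≤ nB) (A : SimpleGraph (Fin nA)) (Y : SimpleGraph (Fin nB))
    (f : W → Fin m × Fin nB) (hf : Function.Injective f)
    (hadj : ∀ u v, L.Adj u v → (Sys E A Y).Adj (f u) (f v)) :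
    (∃ j, ∃ g : W → Fin nA, Function.Injective g ∧ (∀ w, E j (g w) = f w) ∧
      ∀ u v, L.Adj u v → A.Adj (g u) (g v)) ∨
    (∃ l, ∃ g : W → Fin nB, Function.Injective g ∧ (∀ w, (l, g w) = f w) ∧
      ∀ u v, L.Adj u v → Y.Adj (g u) (g v)) := by
  have hR2 : 2 ≤ R := by nlinarith
  have hA1 : 1 ≤ nA := by omega
  have inj := sparse_inj hS (by omega) hA1
  obtain ⟨μ, hμ⟩ := sys_member L hL h2 hS hR hA hB f hf (fun u v huv => by
    rcases (hadj u v huv).2 with ⟨j, a, b, hab, e1, e2⟩ | ⟨l, a, b, hab, e1, e2⟩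
    · exact ⟨Sum.inl j, mem_ms_inl.mpr ⟨a, e1⟩, mem_ms_inl.mpr ⟨b, e2⟩⟩
    · exact ⟨Sum.inr l, mem_ms_inr.mpr (by rw [← e1]), mem_ms_inr.mpr (by rw [← e2])⟩)
  cases μ with
  | inl j =>
    left
    have : ∀ w, ∃ a, E j a = f w := fun w => mem_ms_inl.mp (hμ w)
    choose g hg using this
    refine ⟨j, g, fun u v huv => hf (by rw [← hg u, ← hg v, huv]), hg, ?_⟩
    intro u v huv
    have hne : f u ≠ f v := fun h => huv.ne (hf h)
    rcases (hadj u v huv).2 with ⟨j', a, b, hab, e1, e2⟩ | ⟨l, a, b, hab, e1, e2⟩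
    · have hgne : g u ≠ g v := fun h => hne (by rw [← hg u, ← hg v, h])
      have := hyper_uniq hS hR2 hA1 hB hgne (e1.trans (hg u).symm) (e2.trans (hg v).symm)
      rw [← this.2.1, ← this.2.2]
      exact hab
    · exact absurd (ms_inter hS hR2 hA1 hB (μ := Sum.inl j) (ν := Sum.inr l) (by simp) (hμ u)
        (mem_ms_inr.mpr (by rw [← e1])) (hμ v) (mem_ms_inr.mpr (by rw [← e2]))) hne
  | inr l =>
    right
    refine ⟨l, fun w => (f w).2, ?_, ?_, ?_⟩
    · intro u v huv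
      exact hf (Prod.ext ((mem_ms_inr.mp (hμ u)).trans (mem_ms_inr.mp (hμ v)).symm) huv)
    · intro w
      exact Prod.ext (mem_ms_inr.mp (hμ w)).symm rfl
    · intro u v huv
      have hne : f u ≠ f v := fun h => huv.ne (hf h)
      rcases (hadj u v huv).2 with ⟨j', a, b, hab, e1, e2⟩ | ⟨l', a, b, hab, e1, e2⟩
      · exact absurd (ms_inter hS hR2 hA1 hB (μ := Sum.inr l) (ν := Sum.inl j') (by simp) (hμ u)
          (mem_ms_inl.mpr ⟨a, e1⟩) (hμ v) (mem_ms_inl.mpr ⟨b, e2⟩)) hne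
      · show Y.Adj (f u).2 (f v).2
        rw [← e1, ← e2]
        exact hab

/-- In a dense family, every colouring with `k` colours has a monochromatic hyperedge. -/
theorem dense_mono {k : ℕ} (hD : Dense E k) (hm : 1 ≤ m) (hB : 1 ≤ nB)
    (φ : Fin m × Fin nB → Fin k) : ∃ j, ∀ a b, φ (E j a) = φ (E j b) := by
  have hpos : 0 < m * nB := by positivity
  have : ∃ i : Fin k, m * nB ≤ k * (univ.filter (fun x => φ x = i)).card := by
    by_contra hcon
    push Not at hcon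
    have hsum : ∑ i : Fin k, (univ.filter (fun x => φ x = i)).card = m * nB := by
      rw [← Finset.card_eq_sum_card_fiberwise (fun x _ => Finset.mem_coe.mpr (Finset.mem_univ _))]
      simp
    have hk : 0 < k := by
      have : Nonempty (Fin k) := ⟨φ (⟨0, hm⟩, ⟨0, hB⟩)⟩
      exact Fin.pos_iff_nonempty.mpr this
    have h1 : ∑ i : Fin k, k * (univ.filter (fun x => φ x = i)).card < ∑ _i : Fin k, m * nB := by
      apply Finset.sum_lt_sum_of_nonempty
      · exact ⟨⟨0, hk⟩, Finset.mem_univ _⟩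
      · intro i _
        exact hcon i
    rw [← Finset.mul_sum, hsum, Finset.sum_const, Finset.card_univ, Fintype.card_fin,
      smul_eq_mul] at h1
    exact lt_irrefl _ h1
  obtain ⟨i, hi⟩ := this
  obtain ⟨j, hj⟩ := hD _ hi
  refine ⟨j, fun a b => ?_⟩
  rw [(Finset.mem_filter.mp (hj a)).2, (Finset.mem_filter.mp (hj b)).2]

end Pool.Agent.H65.RI
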