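import Pool.Agent.H65.RI.Hyp
import Pool.Agent.H65.RI.SysL
import Pool.Agent.H65.RI.Emb

set_option autoImplicit false

/-!
Module IND: one more colour.
-/

namespace Pool.Agent.H65.RI

open Finset Classical

theorem nb_comap {V V' W : Type} (G : SimpleGraph V) (σ : V' ≃ V) (r τ : ℕ) (H : SimpleGraph W)
    (h : NB G r H τ) : NB (G.comap σ) r H τ := by
  intro c hc hb
  rcases h (fun a b => c (σ.symm a) (σ.symm b)) (fun a b => hc _ _) (fun a b hab => hb _ _ (by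
    simpa using hab)) with ⟨i, hi, f, hf1, hf2⟩ | ⟨g, hg1, hg2⟩
  · left
    refine ⟨i, hi, fun w => σ.symm (f w), σ.symm.injective.comp hf1, ?_⟩
    intro u v huv
    exact ⟨by simpa using (hf2 u v huv).1, (hf2 u v huv).2⟩
  · right
    refine ⟨fun x => σ.symm (g x), σ.symm.injective.comp hg1, ?_⟩
    intro a b
    exact ⟨by simpa using (hg2 a b).1, (hg2 a b).2⟩

theorem good_comap {V V' W0 W1 : Type} (G : SimpleGraph V) (σ : V' ≃ V) (m : ℕ)
    (L0 : SimpleGraph W0) (L1 : SimpleGraph W1) (h : Good G m L0 L1) :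
    Good (G.comap σ) m L0 L1 := by
  obtain ⟨c, hc, hb, h0, h1⟩ := h
  refine ⟨fun a b => c (σ a) (σ b), fun a b => hc _ _, fun a b hab => hb _ _ hab, ?_, ?_⟩
  · rintro f ⟨hf1, hf2⟩
    exact h0 (fun w => σ (f w)) ⟨σ.injective.comp hf1, fun u v huv => hf2 u v huv⟩
  · rintro j hj1 hj2 f ⟨hf1, hf2⟩
    exact h1 j hj1 hj2 (fun w => σ (f w)) ⟨σ.injective.comp hf1, fun u v huv => hf2 u v huv⟩

theorem nb_edge {V W : Type} (G : SimpleGraph V) (r τ : ℕ) (H : SimpleGraph W)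
    (hHe : ∃ u v, H.Adj u v) (hτ : 1 ≤ τ) (h : NB G r H τ) : ∃ a b, G.Adj a b := by
  rcases h (fun _ _ => 0) (fun _ _ => rfl) (fun _ _ _ => Nat.zero_le _) with
    ⟨i, hi, f, hf1, hf2⟩ | ⟨g, hg1, hg2⟩
  · obtain ⟨u, v, huv⟩ := hHe
    exact ⟨_, _, (hf2 u v huv).1⟩
  · exact ⟨_, _, (hg2 ⟨0, hτ⟩ ⟨0, hτ⟩).1⟩

theorem noSep_edge {W : Type} [Fintype W] (L : SimpleGraph W) (hL : NoSep L)
    (h2 : 2 ≤ Fintype.card W) : ∃ u v, L.Adj u v := by
  by_contra hcon
  push Not at hcon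
  obtain ⟨a, b, hab⟩ := Fintype.exists_pair_of_one_lt_card (by omega : 1 < Fintype.card W)
  rcases hL {a} {a}ᶜ (by simp) (fun u v huv => absurd huv (hcon u v)) (by simp) with h | h
  · have : b ∈ ({a} : Set W) := by rw [h]; trivial
    exact hab (Set.mem_singleton_iff.mp this).symm
  · have : a ∈ ({a}ᶜ : Set W) := by rw [h]; trivial
    exact this rfl

/-- A graph without separation whose edges do not cross lies on one side. -/
theorem one_side {W V₁ V₂ : Type} (L : SimpleGraph W) (hL : NoSep L) (f : W → V₁ ⊕ V₂)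
    (h : ∀ u v, L.Adj u v → ((f u).isLeft = (f v).isLeft)) :
    (∃ g : W → V₁, ∀ w, f w = Sum.inl (g w)) ∨ (∃ g : W → V₂, ∀ w, f w = Sum.inr (g w)) := by
  rcases hL {w | (f w).isLeft = true} {w | (f w).isLeft = true}ᶜ (by simp) (fun u v huv => by
    have := h u v huv
    by_cases h1 : (f u).isLeft = true
    · left
      exact ⟨h1, by show (f v).isLeft = true; rw [← this]; exact h1⟩
    · right
      exact ⟨h1, by show ¬ (f v).isLeft = true; rw [← this]; exact h1⟩) (by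
    intro a ha
    exact absurd ha.1 ha.2) with h1 | h1
  · left
    have : ∀ w, ∃ g, f w = Sum.inl g := by
      intro w
      have hw : (f w).isLeft = true := by
        have : w ∈ {w | (f w).isLeft = true} := by rw [h1]; trivial
        exact this
      exact Sum.isLeft_iff.mp hw
    choose g hg using this
    exact ⟨g, hg⟩
  · right
    have : ∀ w, ∃ g, f w = Sum.inr g := by
      intro w
      have hw : ¬ (f w).isLeft = true := by
        have : w ∈ {w | (f w).isLeft = true}ᶜ := by rw [h1]; trivial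
        exact this
      exact Sum.isRight_iff.mp (by simpa using hw)
    choose g hg using this
    exact ⟨g, hg⟩

theorem dense_mono' {ι κ : Type} [Fintype κ] {nA nB m : ℕ} {E : ι → Fin nA → Fin m × Fin nB}
    {k : ℕ} (hD : Dense E k) (hm : 1 ≤ m) (hB : 1 ≤ nB) (hk : Fintype.card κ ≤ k)
    (φ : Fin m × Fin nB → κ) : ∃ j, ∀ a b, φ (E j a) = φ (E j b) := by
  obtain ⟨j, hj⟩ := dense_mono hD hm hB (fun x => Fin.castLE hk (Fintype.equivFin κ (φ x)))
  refine ⟨j, fun a b => ?_⟩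
  exact (Fintype.equivFin κ).injective (Fin.castLE_injective hk (hj a b))

/-- Copies of `G` use all normal colours. -/
theorem all_normal {V V' W : Type} (G : SimpleGraph V) (H : SimpleGraph W) (r τ : ℕ)
    (h : NB G r H τ) (G' : SimpleGraph V') (ψ : V' → V' → ℕ) (hψ : Sm ψ)
    (hb : ∀ a b, G'.Adj a b → ψ a b ≤ r + 1) (h1 : ¬ ∃ i, i < r + 1 ∧ ∃ f : W → V', Mono G' H ψ i f)
    (h2 : ¬ MonoK G' τ ψ (r + 1)) (e : V → V') (he : Function.Injective e)
    (hadj : ∀ a b, G.Adj a b → G'.Adj (e a) (e b)) (i : ℕ) (hi : i ≤ r) :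
    ∃ a b, G.Adj a b ∧ ψ (e a) (e b) = i := by
  by_contra hcon
  push Not at hcon
  let ρ : ℕ → ℕ := fun x => if x = r + 1 then r else if x = r then i else x
  have hρ : ∀ x, ρ x = if x = r + 1 then r else if x = r then i else x := fun _ => rfl
  rcases h (fun a b => ρ (ψ (e a) (e b))) (fun a b => by
    show ρ (ψ (e a) (e b)) = ρ (ψ (e b) (e a))
    rw [hψ]) (fun a b hab => by
    have := hb _ _ (hadj a b hab)
    simp only [hρ]
    split_ifs <;> omega) with ⟨l, hl, f, hf1, hf2⟩ | ⟨g, hg1, hg2⟩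
  · apply h1
    by_cases hli : l = i
    · refine ⟨r, by omega, fun w => e (f w), he.comp hf1, ?_⟩
      intro u v huv
      obtain ⟨a1, a2⟩ := hf2 u v huv
      refine ⟨hadj _ _ a1, ?_⟩
      have a3 := hcon _ _ a1
      simp only [hρ] at a2
      split_ifs at a2 <;> omega
    · refine ⟨l, by omega, fun w => e (f w), he.comp hf1, ?_⟩
      intro u v huv
      obtain ⟨a1, a2⟩ := hf2 u v huv
      refine ⟨hadj _ _ a1, ?_⟩
      have a3 := hcon _ _ a1
      simp only [hρ] at a2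
      split_ifs at a2 <;> omega
  · apply h2
    refine ⟨fun x => e (g x), he.comp hg1, ?_⟩
    intro a b
    obtain ⟨a1, a2⟩ := hg2 a b
    refine ⟨hadj _ _ a1, ?_⟩
    have a3 := hcon _ _ a1
    simp only [hρ] at a2
    split_ifs at a2 <;> omega

/-- A class that is not `kap`-colourable is large. -/
theorem big_class {V : Type} [Fintype V] {ι : Type} {n : ℕ} (hn : 2 ≤ n) (E : ι → Fin n → V)
    (hE : ∀ j, Function.Injective (E j)) (kap : ℕ) (hkap : 1 ≤ kap) (P : V → Prop)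
    (h : ∀ φ : V → Fin kap, ∃ j, (∀ a, P (E j a)) ∧ ∀ a b, φ (E j a) = φ (E j b)) :
    kap ≤ (univ.filter P).card := by
  by_contra hlt
  have hle : (univ.filter P).card ≤ kap := by omega
  obtain ⟨j, hj1, hj2⟩ := h (fun x => if hx : x ∈ univ.filter P then
    Fin.castLE hle ((univ.filter P).equivFin ⟨x, hx⟩) else ⟨0, hkap⟩)
  have m1 : ∀ a, E j a ∈ univ.filter P := fun a => Finset.mem_filter.mpr ⟨Finset.mem_univ _, hj1 a⟩
  have := hj2 ⟨0, by omega⟩ ⟨1, by omega⟩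
  rw [dif_pos (m1 _), dif_pos (m1 _)] at this
  have h3 := (univ.filter P).equivFin.injective (Fin.castLE_injective hle this)
  have h4 := congrArg Subtype.val h3
  simp only at h4
  have h5 := hE j h4
  simp at h5

/-- Extract an injection of `Fin t` from a large set. -/
theorem exists_inj_of_card' {α : Type} (A : Finset α) (t : ℕ) (h : t ≤ A.card) :
    ∃ f : Fin t → α, Function.Injective f ∧ ∀ s, f s ∈ A := by
  obtain ⟨A', hA', hc⟩ := Finset.exists_subset_card_eq h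
  let e := (Finset.equivFinOfCardEq hc).symm
  refine ⟨fun s => (e s : α), ?_, fun s => hA' (e s).2⟩
  intro s s' hs
  exact e.injective (Subtype.ext hs)

theorem ind_good {W0 W1 : Type} [Fintype W0] [Fintype W1] (L0 : SimpleGraph W0)
    (L1 : SimpleGraph W1) (n0 : NoSep L0) (n1 : NoSep L1) (c0 : 2 ≤ Fintype.card W0)
    (c1 : 2 ≤ Fintype.card W1) (nb : ¬ L1.Colorable 2) {n : ℕ} (hn : 2 ≤ n)
    (G : SimpleGraph (Fin n)) (m : ℕ) (hm : 1 ≤ m) (hG : Good G m L0 L1) {R m₁ m₂ : ℕ}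
    {ι₁ ι₂ : Type} (E₁ : ι₁ → Fin n → Fin m₁ × Fin 1) (E₂ : ι₂ → Fin n → Fin m₂ × Fin 1)
    (hS₁ : Sparse E₁ R) (hS₂ : Sparse E₂ R)
    (hR : (Fintype.card W0) ^ 2 + (Fintype.card W1) ^ 2 + 2 ≤ R) :
    Good (jn (Sys E₁ G ⊥) (Sys E₂ G ⊥)) (m + 1) L0 L1 := by
  obtain ⟨c, hc, hb, h0, h1⟩ := hG
  obtain ⟨d₁, hd₁, hd₁A, -⟩ := sys_col hS₁ (by omega) hn le_rfl G ⊥ c (fun _ _ => 0) hc
    (fun _ _ => rfl)
  obtain ⟨d₂, hd₂, hd₂A, -⟩ := sys_col hS₂ (by omega) hn le_rfl G ⊥ c (fun _ _ => 0) hc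
    (fun _ _ => rfl)
  have bd : ∀ {ι : Type} {m' : ℕ} (E : ι → Fin n → Fin m' × Fin 1)
      (d : Fin m' × Fin 1 → Fin m' × Fin 1 → ℕ),
      (∀ j a b, G.Adj a b → d (E j a) (E j b) = c a b) → ∀ x y, (Sys E G ⊥).Adj x y →
      d x y < m := by
    intro ι m' E d hd x y hxy
    rcases hxy.2 with ⟨j, a, b, hab, rfl, rfl⟩ | ⟨l, a, b, hab, -, -⟩
    · rw [hd j a b hab]
      exact hb a b hab
    · exact absurd hab (by simp)
  have bd₁ := bd E₁ d₁ hd₁A
  have bd₂ := bd E₂ d₂ hd₂A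
  let ψ : (Fin m₁ × Fin 1) ⊕ (Fin m₂ × Fin 1) → (Fin m₁ × Fin 1) ⊕ (Fin m₂ × Fin 1) → ℕ :=
    fun x y => match x, y with
      | Sum.inl a, Sum.inl b => d₁ a b
      | Sum.inr a, Sum.inr b => d₂ a b
      | _, _ => m
  -- copies in one side
  have loc : ∀ {W : Type} [Fintype W] (L : SimpleGraph W), NoSep L → 2 ≤ Fintype.card W →
      (Fintype.card W) ^ 2 ≤ R → ∀ (j : ℕ), (∀ g : W → Fin n, ¬ Mono G L c j g) →
      ∀ {ι : Type} {m' : ℕ} (E : ι → Fin n → Fin m' × Fin 1), Sparse E R →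
      ∀ (d : Fin m' × Fin 1 → Fin m' × Fin 1 → ℕ),
      (∀ j a b, G.Adj a b → d (E j a) (E j b) = c a b) → ∀ g : W → Fin m' × Fin 1,
      ¬ Mono (Sys E G ⊥) L d j g := by
    intro W _ L hL h2 hRW j hno ι m' E hS d hd g hg
    obtain ⟨u0, v0, huv0⟩ := noSep_edge L hL h2
    rcases sys_local L hL h2 hS hRW hn le_rfl G ⊥ g hg.1 (fun u v huv => (hg.2 u v huv).1) with
      ⟨j', g', hg'1, hg'2, hg'3⟩ | ⟨l, g', -, -, hg'3⟩
    · apply hno g'
      refine ⟨hg'1, fun u v huv => ⟨hg'3 u v huv, ?_⟩⟩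
      rw [← hd j' _ _ (hg'3 u v huv), hg'2, hg'2]
      exact (hg.2 u v huv).2
    · exact absurd (hg'3 u0 v0 huv0) (by simp)
  have sides : ∀ {W : Type} [Fintype W] (L : SimpleGraph W), NoSep L → 2 ≤ Fintype.card W →
      (Fintype.card W) ^ 2 ≤ R → ∀ (j : ℕ), j < m → (∀ g : W → Fin n, ¬ Mono G L c j g) →
      ∀ f, ¬ Mono (jn (Sys E₁ G ⊥) (Sys E₂ G ⊥)) L ψ j f := by
    intro W _ L hL h2 hRW j hj hno f hf
    rcases one_side L hL f (fun u v huv => by
      obtain ⟨a1, a2⟩ := hf.2 u v huv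
      cases hu : f u <;> cases hv : f v
      · rfl
      · rw [hu, hv] at a2
        have : m = j := a2
        omega
      · rw [hu, hv] at a2
        have : m = j := a2
        omega
      · rfl) with ⟨g, hg⟩ | ⟨g, hg⟩
    · apply loc L hL h2 hRW j hno E₁ hS₁ d₁ hd₁A g
      refine ⟨fun u v huv => hf.1 (by rw [hg, hg, huv]), fun u v huv => ?_⟩
      have := hf.2 u v huv
      rw [hg, hg] at this
      exact this
    · apply loc L hL h2 hRW j hno E₂ hS₂ d₂ hd₂A g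
      refine ⟨fun u v huv => hf.1 (by rw [hg, hg, huv]), fun u v huv => ?_⟩
      have := hf.2 u v huv
      rw [hg, hg] at this
      exact this
  refine ⟨ψ, ?_, ?_, ?_, ?_⟩
  · rintro (a | a) (b | b)
    · exact hd₁ a b
    · rfl
    · rfl
    · exact hd₂ a b
  · rintro (a | a) (b | b) hab
    · exact (bd₁ a b hab).trans (Nat.lt_succ_self m)
    · exact Nat.lt_succ_self m
    · exact Nat.lt_succ_self m
    · exact (bd₂ a b hab).trans (Nat.lt_succ_self m)
  · exact sides L0 n0 c0 (by omega) 0 (by omega) h0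
  · intro j hj1 hj2 f hf
    by_cases hjm : j < m
    · exact sides L1 n1 c1 (by omega) j hjm (h1 j hj1 hjm) f hf
    · have hjm' : j = m := by omega
      subst hjm'
      apply nb
      refine ⟨SimpleGraph.Coloring.mk (fun w => if (f w).isLeft = true then (0 : Fin 2) else 1) ?_⟩
      intro u v huv
      obtain ⟨a1, a2⟩ := hf.2 u v huv
      cases hu : f u <;> cases hv : f v
      · rw [hu, hv] at a1 a2
        have := bd₁ _ _ a1
        have h3 : d₁ _ _ = j := a2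
        omega
      · simp
      · simp
      · rw [hu, hv] at a1 a2
        have := bd₂ _ _ a1
        have h3 : d₂ _ _ = j := a2
        omega

theorem ind_nb {W : Type} [Fintype W] (H : SimpleGraph W) (hH : TF H)
    {n : ℕ} (hn : 2 ≤ n)
    (G : SimpleGraph (Fin n)) (r τ : ℕ) (hτ : 1 ≤ τ) (hNB : NB G r H τ) {R m₁ m₂ k₁ k₂ : ℕ}
    (hR : 1 ≤ R)
    {ι₁ ι₂ : Type} (E₁ : ι₁ → Fin n → Fin m₁ × Fin 1) (E₂ : ι₂ → Fin n → Fin m₂ × Fin 1)
    (hS₁ : Sparse E₁ R) (hS₂ : Sparse E₂ R) (hm₁ : 1 ≤ m₁) (hm₂ : 1 ≤ m₂)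
    (hD₁ : Dense E₁ k₁) (hD₂ : Dense E₂ k₂)
    (hk₁ : (r + 2) * (Fintype.card W + τ) ≤ k₁)
    (hk₂ : (r + 2) ^ m₁ * (Fintype.card W + τ) ≤ k₂) :
    NB (jn (Sys E₁ G ⊥) (Sys E₂ G ⊥)) (r + 1) H τ := by
  set kap := Fintype.card W + τ with hkap
  set G' := jn (Sys E₁ G ⊥) (Sys E₂ G ⊥) with hG'
  obtain ⟨X, hX1, hX2⟩ := hH
  intro ψ hψ hb
  by_contra hcon
  rw [not_or] at hcon
  obtain ⟨h1, h2⟩ := hcon
  have inj₁ := sparse_inj hS₁ hR (by omega : 1 ≤ n)
  have inj₂ := sparse_inj hS₂ hR (by omega : 1 ≤ n)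
  have adjJ : ∀ z y, G'.Adj (Sum.inl z) (Sum.inr y) := fun z y => trivial
  let toF : ℕ → Fin (r + 2) := fun x => ⟨min x (r + 1), by omega⟩
  have htoF : ∀ x, x ≤ r + 1 → (toF x : ℕ) = x := fun x hx => by simp [toF, hx]
  let vec : Fin m₂ × Fin 1 → (Fin m₁ × Fin 1) → Fin (r + 2) :=
    fun w z => toF (ψ (Sum.inl z) (Sum.inr w))
  have hvec : ∀ w z, ψ (Sum.inl z) (Sum.inr w) = vec w z := fun w z =>
    (htoF _ (hb _ _ (adjJ z w))).symm
  -- a good vector
  obtain ⟨s, hs⟩ : ∃ s : (Fin m₁ × Fin 1) → Fin (r + 2), ∀ φ : Fin m₂ × Fin 1 → Fin kap,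
      ∃ j, (∀ a, vec (E₂ j a) = s) ∧ ∀ a b, φ (E₂ j a) = φ (E₂ j b) := by
    by_contra hcon
    push Not at hcon
    choose φ hφ using hcon
    obtain ⟨j, hj⟩ := dense_mono' (κ := ((Fin m₁ × Fin 1) → Fin (r + 2)) × Fin kap) hD₂ hm₂ le_rfl
      (by
        simp only [Fintype.card_prod, Fintype.card_fun, Fintype.card_fin, mul_one]
        exact hk₂) (fun w => (vec w, φ (vec w) w))
    have e0 : ∀ a, vec (E₂ j a) = vec (E₂ j ⟨0, by omega⟩) := fun a => congrArg Prod.fst (hj a _)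
    obtain ⟨a, b, hab⟩ := hφ (vec (E₂ j ⟨0, by omega⟩)) j e0
    apply hab
    have := congrArg Prod.snd (hj a b)
    simp only at this
    rw [e0 a, e0 b] at this
    exact this
  obtain ⟨i, hi⟩ : ∃ i : Fin (r + 2), ∀ φ : Fin m₁ × Fin 1 → Fin kap,
      ∃ j, (∀ a, s (E₁ j a) = i) ∧ ∀ a b, φ (E₁ j a) = φ (E₁ j b) := by
    by_contra hcon
    push Not at hcon
    choose φ hφ using hcon
    obtain ⟨j, hj⟩ := dense_mono' (κ := Fin (r + 2) × Fin kap) hD₁ hm₁ le_rfl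
      (by
        simp only [Fintype.card_prod, Fintype.card_fin]
        exact hk₁) (fun w => (s w, φ (s w) w))
    have e0 : ∀ a, s (E₁ j a) = s (E₁ j ⟨0, by omega⟩) := fun a => congrArg Prod.fst (hj a _)
    obtain ⟨a, b, hab⟩ := hφ (s (E₁ j ⟨0, by omega⟩)) j e0
    apply hab
    have := congrArg Prod.snd (hj a b)
    simp only at this
    rw [e0 a, e0 b] at this
    exact this
  -- the classes are large
  have big₂ := big_class hn E₂ inj₂ kap (by omega) (fun w => vec w = s) hs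
  have big₁ := big_class hn E₁ inj₁ kap (by omega) (fun z => s z = i) hi
  have hne : (i : ℕ) ≠ r + 1 := by
    intro hir
    apply h2
    obtain ⟨x, hx, hxm⟩ := exists_inj_of_card' _ τ ((by omega : τ ≤ kap).trans big₁)
    obtain ⟨y, hy, hym⟩ := exists_inj_of_card' _ τ ((by omega : τ ≤ kap).trans big₂)
    refine ⟨Sum.elim (fun a => Sum.inl (x a)) (fun b => Sum.inr (y b)), ?_, ?_⟩
    · rintro (a | a) (b | b) hab
      · simp only [Sum.elim_inl, Sum.inl.injEq] at hab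
        rw [hx hab]
      · simp at hab
      · simp at hab
      · simp only [Sum.elim_inr, Sum.inr.injEq] at hab
        rw [hy hab]
    · intro a b
      refine ⟨adjJ _ _, ?_⟩
      show ψ (Sum.inl (x a)) (Sum.inr (y b)) = r + 1
      have e1 : vec (y b) = s := by simpa using hym b
      have e2 : s (x a) = i := by simpa using hxm a
      rw [hvec, e1, e2, hir]
  have hir : (i : ℕ) ≤ r := by omega
  -- the two graphs
  let Γ₁ : SimpleGraph (Fin m₁ × Fin 1) :=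
    { Adj := fun z z' => (Sys E₁ G ⊥).Adj z z' ∧ s z = i ∧ s z' = i ∧
        ψ (Sum.inl z) (Sum.inl z') = i
      symm := ⟨fun z z' h => ⟨h.1.symm, h.2.2.1, h.2.1, by rw [hψ]; exact h.2.2.2⟩⟩
      loopless := ⟨fun z h => h.1.ne rfl⟩ }
  let Γ₂ : SimpleGraph (Fin m₂ × Fin 1) :=
    { Adj := fun z z' => (Sys E₂ G ⊥).Adj z z' ∧ vec z = s ∧ vec z' = s ∧
        ψ (Sum.inr z) (Sum.inr z') = i
      symm := ⟨fun z z' h => ⟨h.1.symm, h.2.2.1, h.2.1, by rw [hψ]; exact h.2.2.2⟩⟩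
      loopless := ⟨fun z h => h.1.ne rfl⟩ }
  obtain ⟨f₁, f₁i, f₁a, f₁n⟩ := emb_forest H X hX1 Γ₁ kap (by omega) (by omega) (by
    rintro ⟨φ, hφ⟩
    obtain ⟨j, hj1, hj2⟩ := hi φ
    obtain ⟨a, b, hab, hcab⟩ := all_normal G H r τ hNB G' ψ hψ hb h1 h2
      (fun a => Sum.inl (E₁ j a)) (Sum.inl_injective.comp (inj₁ j))
      (fun a b hab => sys_adjA hS₁ hR (by omega) G ⊥ j hab) i hir
    exact hφ (E₁ j a) (E₁ j b) ⟨sys_adjA hS₁ hR (by omega) G ⊥ j hab, hj1 a, hj1 b, hcab⟩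
      (hj2 a b))
  obtain ⟨f₂, f₂i, f₂a, f₂n⟩ := emb_forest H Xᶜ hX2 Γ₂ kap (by omega) (by omega) (by
    rintro ⟨φ, hφ⟩
    obtain ⟨j, hj1, hj2⟩ := hs φ
    obtain ⟨a, b, hab, hcab⟩ := all_normal G H r τ hNB G' ψ hψ hb h1 h2
      (fun a => Sum.inr (E₂ j a)) (Sum.inr_injective.comp (inj₂ j))
      (fun a b hab => sys_adjA hS₂ hR (by omega) G ⊥ j hab) i hir
    exact hφ (E₂ j a) (E₂ j b) ⟨sys_adjA hS₂ hR (by omega) G ⊥ j hab, hj1 a, hj1 b, hcab⟩
      (hj2 a b))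
  apply h1
  refine ⟨i, by omega, fun u => if u ∈ X then Sum.inl (f₁ u) else Sum.inr (f₂ u), ?_, ?_⟩
  · intro u v huv
    simp only at huv
    by_cases hu : u ∈ X
    · by_cases hv : v ∈ X
      · rw [if_pos hu, if_pos hv] at huv
        exact f₁i hu hv (Sum.inl_injective huv)
      · rw [if_pos hu, if_neg hv] at huv
        exact absurd huv (by simp)
    · by_cases hv : v ∈ X
      · rw [if_neg hu, if_pos hv] at huv
        exact absurd huv (by simp)
      · rw [if_neg hu, if_neg hv] at huv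
        exact f₂i hu hv (Sum.inr_injective huv)
  · have cross : ∀ u v, u ∈ X → v ∉ X →
        ψ (Sum.inl (f₁ u)) (Sum.inr (f₂ v)) = i := by
      intro u v hu hv
      obtain ⟨y, hy⟩ := f₁n u hu
      obtain ⟨y', hy'⟩ := f₂n v hv
      rw [hvec, hy'.2.1, hy.2.1]
    intro u v huv
    simp only
    by_cases hu : u ∈ X
    · by_cases hv : v ∈ X
      · rw [if_pos hu, if_pos hv]
        have := f₁a u hu v hv huv
        exact ⟨this.1, this.2.2.2⟩
      · rw [if_pos hu, if_neg hv]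
        exact ⟨adjJ _ _, cross u v hu hv⟩
    · by_cases hv : v ∈ X
      · rw [if_neg hu, if_pos hv]
        exact ⟨(adjJ _ _).symm, by rw [hψ]; exact cross v u hv hu⟩
      · rw [if_neg hu, if_neg hv]
        have := f₂a u hu v hv huv
        exact ⟨this.1, this.2.2.2⟩

theorem ind_step {W W0 W1 VG : Type} [Fintype W] [Fintype W0] [Fintype W1] [Fintype VG]
    (H : SimpleGraph W) (hH : TF H) (hHe : ∃ u v, H.Adj u v) (L0 : SimpleGraph W0)
    (L1 : SimpleGraph W1) (n0 : NoSep L0) (n1 : NoSep L1) (c0 : 2 ≤ Fintype.card W0)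
    (c1 : 2 ≤ Fintype.card W1) (nb : ¬ L1.Colorable 2) (G : SimpleGraph VG) (r m τ : ℕ)
    (hm : 1 ≤ m) (hτ : 1 ≤ τ) (hNB : NB G r H τ) (hG : Good G m L0 L1) :
    ∃ (V' : Type) (_ : Fintype V') (G' : SimpleGraph V'),
      NB G' (r + 1) H τ ∧ Good G' (m + 1) L0 L1 := by
  set n := Fintype.card VG with hn
  let σ := (Fintype.equivFin VG).symm
  have hn2 : 2 ≤ n := by
    obtain ⟨a, b, hab⟩ := nb_edge G r τ H hHe hτ hNB
    exact Fintype.one_lt_card_iff.mpr ⟨a, b, hab.ne⟩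
  have hNB' := nb_comap G σ r τ H hNB
  have hG' := good_comap G σ m L0 L1 hG
  set R := (Fintype.card W0) ^ 2 + (Fintype.card W1) ^ 2 + 2 with hR
  obtain ⟨m₁, ι₁, _, E₁, hm₁, hS₁, hD₁⟩ := hyp n 1 R ((r + 2) * (Fintype.card W + τ)) 1 hn2 le_rfl
    le_rfl
  obtain ⟨m₂, ι₂, _, E₂, hm₂, hS₂, hD₂⟩ := hyp n 1 R ((r + 2) ^ m₁ * (Fintype.card W + τ)) 1 hn2
    le_rfl le_rfl
  refine ⟨(Fin m₁ × Fin 1) ⊕ (Fin m₂ × Fin 1), inferInstance,
    jn (Sys E₁ (G.comap σ) ⊥) (Sys E₂ (G.comap σ) ⊥), ?_, ?_⟩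
  · exact ind_nb H hH hn2 _ r τ hτ hNB' (by omega) E₁ E₂ hS₁ hS₂ hm₁ hm₂ hD₁ hD₂ le_rfl le_rfl
  · exact ind_good L0 L1 n0 n1 c0 c1 nb hn2 _ m hm hG' E₁ E₂ hS₁ hS₂ le_rfl

theorem thmB {W W0 W1 : Type} [Fintype W] [Fintype W0] [Fintype W1]
    (H : SimpleGraph W) (hH : TF H) (hHe : ∃ u v, H.Adj u v) (L0 : SimpleGraph W0)
    (L1 : SimpleGraph W1) (n0 : NoSep L0) (n1 : NoSep L1) (c0 : 2 ≤ Fintype.card W0)
    (c1 : 2 ≤ Fintype.card W1) (nb : ¬ L1.Colorable 2) (hs : ¬ Sub L0 H) (q : ℕ) (hq : 1 ≤ q) :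
    ∃ (V' : Type) (_ : Fintype V') (G' : SimpleGraph V'), NB G' q H 1 ∧ Good G' q L0 L1 := by
  induction q, hq using Nat.le_induction with
  | base =>
    refine ⟨W, inferInstance, H, ?_, ?_⟩
    · intro c hc hb
      by_cases h : ∃ a b, H.Adj a b ∧ c a b = 1
      · right
        obtain ⟨a, b, hab, hcab⟩ := h
        refine ⟨Sum.elim (fun _ => a) (fun _ => b), ?_, fun x y => ⟨hab, hcab⟩⟩
        rintro (x | x) (y | y) hxy
        · rw [Subsingleton.elim x y]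
        · exact absurd hxy hab.ne
        · exact absurd hxy.symm hab.ne
        · rw [Subsingleton.elim x y]
      · left
        push Not at h
        refine ⟨0, by omega, id, Function.injective_id, ?_⟩
        intro u v huv
        refine ⟨huv, ?_⟩
        have h1 := hb u v huv
        have h2 := h u v huv
        show c u v = 0
        omega
    · refine ⟨fun _ _ => 0, fun _ _ => rfl, fun _ _ _ => Nat.zero_lt_one, ?_, fun j h1 h2 => by omega⟩
      intro f hf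
      exact hs ⟨f, hf.1, fun u v huv => (hf.2 u v huv).1⟩
  | succ q hq ih =>
    obtain ⟨V', _, G', h1, h2⟩ := ih
    exact ind_step H hH hHe L0 L1 n0 n1 c0 c1 nb G' q q 1 hq le_rfl h1 h2

theorem richZ {W : Type} [Fintype W] (B : SimpleGraph W) (hB : TF B) (hBe : ∃ u v, B.Adj u v)
    (n0 : NoSep B) (c0 : 2 ≤ Fintype.card W) (nb : ¬ B.Colorable 2) (q τ : ℕ) (hq : 1 ≤ q)
    (hτ : 1 ≤ τ) : ∃ (V' : Type) (_ : Fintype V') (G' : SimpleGraph V'),
      NB G' (q - 1) B τ ∧ Good G' q B B := by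
  induction q, hq using Nat.le_induction with
  | base =>
    refine ⟨Fin τ ⊕ Fin τ, inferInstance, completeBipartiteGraph (Fin τ) (Fin τ), ?_, ?_⟩
    · intro c hc hb
      right
      refine ⟨id, Function.injective_id, ?_⟩
      intro a b
      have h : (completeBipartiteGraph (Fin τ) (Fin τ)).Adj (Sum.inl a) (Sum.inr b) := by simp
      refine ⟨h, ?_⟩
      have := hb _ _ h
      show c (Sum.inl a) (Sum.inr b) = 0
      omega
    · have key : ∀ f : W → Fin τ ⊕ Fin τ,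
          ¬ Mono (completeBipartiteGraph (Fin τ) (Fin τ)) B (fun _ _ => 0) 0 f := by
        intro f hf
        apply nb
        refine ⟨SimpleGraph.Coloring.mk (fun w => if (f w).isLeft = true then (0 : Fin 2) else 1) ?_⟩
        intro u v huv
        have a1 := (hf.2 u v huv).1
        cases hu : f u <;> cases hv : f v <;> rw [hu, hv] at a1 <;> simp at a1 ⊢
      exact ⟨fun _ _ => 0, fun _ _ => rfl, fun _ _ _ => Nat.zero_lt_one, key,
        fun j h1 h2 => by omega⟩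
  | succ q hq ih =>
    obtain ⟨V', _, G', h1, h2⟩ := ih
    have := ind_step B hB hBe B B n0 n0 c0 c0 nb G' (q - 1) q τ hq hτ h1 h2
    rwa [show q - 1 + 1 = q + 1 - 1 by omega] at this

end Pool.Agent.H65.RI
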